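import Pool.Agent.H22.Recip.InfConv

/-!
# Chains and their limits
-/

open MeasureTheory Measure Set Metric Filter Topology
open scoped ENNReal NNReal

namespace Pool.Agent.H22.Recip

universe u

variable {X : Type u} [MetricSpace X]

/-- an `ε`-chain in `K` starting in `E`, ending at `y` -/
structure IsChain (K E : Set X) (ε : ℝ) (y : X) (N : ℕ) (x : ℕ → X) : Prop where
  start : x 0 ∈ E
  last : x N = y
  mem : ∀ i ≤ N, x i ∈ K
  step : ∀ i < N, dist (x i) (x (i + 1)) ≤ ε

/-- weighted length of a chain -/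
def chainSum (a : X → ℝ) (N : ℕ) (x : ℕ → X) : ℝ :=
  ∑ i ∈ Finset.range N, a (x i) * dist (x i) (x (i + 1))

/-- partial lengths -/
def len (x : ℕ → X) (i : ℕ) : ℝ := ∑ j ∈ Finset.range i, dist (x j) (x (j + 1))

theorem len_zero (x : ℕ → X) : len x 0 = 0 := by simp [len]

theorem len_succ (x : ℕ → X) (i : ℕ) : len x (i + 1) = len x i + dist (x i) (x (i + 1)) := by
  simp [len, Finset.sum_range_succ]

theorem len_mono (x : ℕ → X) : Monotone (len x) :=
  monotone_nat_of_le_succ fun i => by rw [len_succ]; linarith [dist_nonneg (x := x i) (y := x (i + 1))]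

theorem dist_le_len (x : ℕ → X) (i j : ℕ) : dist (x i) (x j) ≤ |len x i - len x j| := by
  wlog hij : i ≤ j generalizing i j
  · rw [dist_comm, abs_sub_comm]; exact this j i (le_of_not_ge hij)
  have h1 := dist_le_Ico_sum_dist x hij
  have h2 : ∑ k ∈ Finset.Ico i j, dist (x k) (x (k + 1)) = len x j - len x i := by
    rw [Finset.sum_Ico_eq_sub _ hij]; rfl
  rw [h2] at h1
  rw [abs_sub_comm]
  exact h1.trans (le_abs_self _)

theorem exists_idx (x : ℕ → X) {ε : ℝ} (hε : 0 ≤ ε) (N : ℕ) (hstep : ∀ i < N, dist (x i) (x (i + 1)) ≤ ε)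
    {τ : ℝ} (h0 : 0 ≤ τ) (h1 : τ ≤ len x N) : ∃ i ≤ N, |τ - len x i| ≤ ε := by
  induction N with
  | zero =>
    refine ⟨0, le_rfl, ?_⟩
    rw [len_zero] at h1 ⊢
    have : τ = 0 := le_antisymm h1 h0
    rw [this]; simpa using hε
  | succ N ih =>
    by_cases hτ : τ ≤ len x N
    · obtain ⟨i, hi, h2⟩ := ih (fun i hi => hstep i (by omega)) hτ
      exact ⟨i, by omega, h2⟩
    · push Not at hτ
      refine ⟨N + 1, le_rfl, ?_⟩
      rw [len_succ] at h1 ⊢
      have := hstep N (by omega)
      rw [abs_le]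
      constructor <;> linarith

/-- clamp to `[0, ℓ]` -/
def clamp (ℓ τ : ℝ) : ℝ := max 0 (min τ ℓ)

theorem clamp_sub (ℓ s t : ℝ) : |clamp ℓ s - clamp ℓ t| ≤ |s - t| := by
  unfold clamp
  rcases le_total s t with h | h
  · rw [abs_sub_comm, abs_sub_comm s]
    rw [abs_of_nonneg (by linarith : 0 ≤ t - s), abs_of_nonneg]
    · rw [max_def, max_def, min_def, min_def]; split_ifs <;> linarith
    · rw [max_def, max_def, min_def, min_def]; split_ifs <;> linarith
  · rw [abs_of_nonneg (by linarith : 0 ≤ s - t), abs_of_nonneg]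
    · rw [max_def, max_def, min_def, min_def]; split_ifs <;> linarith
    · rw [max_def, max_def, min_def, min_def]; split_ifs <;> linarith

theorem clamp_mem {ℓ : ℝ} (hℓ : 0 ≤ ℓ) (τ : ℝ) : 0 ≤ clamp ℓ τ ∧ clamp ℓ τ ≤ ℓ :=
  ⟨le_max_left _ _, max_le hℓ (min_le_right _ _)⟩

theorem clamp_eq {ℓ τ : ℝ} (h0 : 0 ≤ τ) (h1 : τ ≤ ℓ) : clamp ℓ τ = τ := by
  unfold clamp; rw [min_eq_left h1, max_eq_right h0]

variable [MeasurableSpace X] [BorelSpace X]

/-- Key compactness lemma: the chain length with weight `ρ_n + η` is nearly `≥ 1`. -/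
theorem chain_limit {K E F : Set X} (hK : IsCompact K) (hE : IsClosed E) (hF : IsClosed F)
    {ρ : X → ℝ≥0∞} (hρ : LowerSemicontinuous ρ) (hadm : Admissible (Joining E F K) ρ)
    {η δ : ℝ} (hη : 0 < η) (hδ : 0 < δ) :
    ∃ n : ℕ, ∃ ε > 0, ∀ y ∈ F, ∀ N x, IsChain K E ε y N x →
      1 - δ ≤ chainSum (fun z => infConv ρ n z + η) N x := by
  by_contra hcon
  push Not at hcon
  set ε : ℕ → ℝ := fun n => 1 / ((n : ℝ) + 1) with hε
  have hεpos : ∀ n, 0 < ε n := fun n => by rw [hε]; positivity
  have hch : ∀ n : ℕ, ∃ y ∈ F, ∃ N x, IsChain K E (ε n) y N x ∧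
      chainSum (fun z => infConv ρ n z + η) N x < 1 - δ := fun n => hcon n (ε n) (hεpos n)
  choose y hy N x hx hsum using hch
  set ℓ' : ℕ → ℝ := fun n => len (x n) (N n) with hℓ'
  set T : ℝ := 1 / η with hT
  have hTpos : 0 < T := by rw [hT]; positivity
  have hℓ0 : ∀ n, 0 ≤ ℓ' n := fun n => by
    have := len_mono (x n) (Nat.zero_le (N n)); rwa [len_zero] at this
  -- bound for the sums
  have hsum2 : ∀ n, (∑ i ∈ Finset.range (N n), infConv ρ n (x n i) * dist (x n i) (x n (i + 1)))
      + η * ℓ' n < 1 - δ := by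
    intro n
    refine lt_of_le_of_lt (le_of_eq ?_) (hsum n)
    rw [chainSum, hℓ']
    simp only [add_mul, Finset.sum_add_distrib, len, Finset.mul_sum]
  have hℓT : ∀ n, ℓ' n ≤ T := by
    intro n
    have h1 : 0 ≤ ∑ i ∈ Finset.range (N n), infConv ρ n (x n i) * dist (x n i) (x n (i + 1)) :=
      Finset.sum_nonneg fun i _ => mul_nonneg (infConv_nonneg _ _ _) dist_nonneg
    have h2 := hsum2 n
    rw [hT, le_div_iff₀ hη]
    linarith
  have hidx : ∀ n (τ : ℝ), ∃ i ≤ N n, |clamp (ℓ' n) τ - len (x n) i| ≤ ε n := fun n τ =>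
    exists_idx (x n) (hεpos n).le (N n) (hx n).step (clamp_mem (hℓ0 n) τ).1 (clamp_mem (hℓ0 n) τ).2
  choose idx hidx1 hidx2 using hidx
  set c' : ℕ → ℝ → X := fun n τ => x n (idx n τ) with hc'
  have hcK : ∀ n τ, c' n τ ∈ K := fun n τ => (hx n).mem _ (hidx1 n τ)
  have hclose : ∀ n τ i, dist (c' n τ) (x n i) ≤ |clamp (ℓ' n) τ - len (x n) i| + ε n := by
    intro n τ i
    refine (dist_le_len (x n) _ _).trans ?_
    have h1 := hidx2 n τ
    have h2 := abs_sub_le (len (x n) (idx n τ)) (clamp (ℓ' n) τ) (len (x n) i)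
    rw [abs_sub_comm (len (x n) (idx n τ)) (clamp (ℓ' n) τ)] at h2
    linarith
  have hclip : ∀ n s t, dist (c' n s) (c' n t) ≤ |s - t| + 2 * ε n := by
    intro n s t
    have h1 := hclose n s (idx n t)
    have h2 := hidx2 n t
    have h3 := clamp_sub (ℓ' n) s t
    have h4 := abs_sub_le (clamp (ℓ' n) s) (clamp (ℓ' n) t) (len (x n) (idx n t))
    have h5 : dist (c' n s) (c' n t) ≤ |clamp (ℓ' n) s - len (x n) (idx n t)| + ε n := h1
    linarith
  -- ultrafilter limit
  let U : Ultrafilter ℕ := hyperfilter ℕ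
  have hU : (U : Filter ℕ) ≤ atTop := Nat.hyperfilter_le_atTop
  have hlim : ∀ τ : ℝ, ∃ z ∈ K, Tendsto (fun n => c' n τ) U (𝓝 z) := by
    intro τ
    obtain ⟨z, hz, hz2⟩ := hK.ultrafilter_le_nhds' (U.map fun n => c' n τ)
      (Filter.mem_map.mpr (Filter.Eventually.of_forall fun n => hcK n τ))
    exact ⟨z, hz, hz2⟩
  choose c hcmem hc using hlim
  obtain ⟨ℓ, hℓmem, hℓ⟩ : ∃ ℓ ∈ Icc 0 T, Tendsto ℓ' U (𝓝 ℓ) := by
    obtain ⟨z, hz, hz2⟩ := isCompact_Icc.ultrafilter_le_nhds' (U.map ℓ')
      (Filter.mem_map.mpr (Filter.Eventually.of_forall fun n =>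
        (⟨hℓ0 n, hℓT n⟩ : ℓ' n ∈ Icc 0 T)))
    exact ⟨z, hz, hz2⟩
  have hεlim : Tendsto ε U (𝓝 0) :=
    (tendsto_one_div_add_atTop_nhds_zero_nat (𝕜 := ℝ)).mono_left hU
  have hclip2 : ∀ s t, dist (c s) (c t) ≤ |s - t| := by
    intro s t
    have h1 : Tendsto (fun n => dist (c' n s) (c' n t)) U (𝓝 (dist (c s) (c t))) :=
      (hc s).dist (hc t)
    have h2 : Tendsto (fun n => |s - t| + 2 * ε n) U (𝓝 (|s - t| + 2 * 0)) :=
      tendsto_const_nhds.add (hεlim.const_mul 2)
    have h3 := le_of_tendsto_of_tendsto h1 h2 (Filter.Eventually.of_forall fun n => hclip n s t)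
    simpa using h3
  have hcL : LipschitzWith 1 c := by
    apply LipschitzWith.of_dist_le_mul
    intro s t
    rw [NNReal.coe_one, one_mul, Real.dist_eq]; exact hclip2 s t
  have hc0 : c 0 ∈ E := by
    have h1 : Tendsto (fun n => x n 0) U (𝓝 (c 0)) := by
      rw [tendsto_iff_dist_tendsto_zero]
      have h2 : Tendsto (fun n => dist (c' n 0) (c 0) + ε n) U (𝓝 (0 + 0)) :=
        (tendsto_iff_dist_tendsto_zero.mp (hc 0)).add hεlim
      rw [add_zero] at h2
      refine squeeze_zero (fun n => dist_nonneg) (fun n => ?_) h2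
      have h3 := hclose n 0 0
      rw [len_zero, clamp_eq le_rfl (hℓ0 n), sub_zero, abs_zero, zero_add] at h3
      have h4 := dist_triangle (x n 0) (c' n 0) (c 0)
      rw [dist_comm (x n 0) (c' n 0)] at h4
      linarith
    exact hE.mem_of_tendsto h1 (Filter.Eventually.of_forall fun n => (hx n).start)
  have hcℓ : c ℓ ∈ F := by
    have h1 : Tendsto y U (𝓝 (c ℓ)) := by
      rw [tendsto_iff_dist_tendsto_zero]
      have h2 : Tendsto (fun n => dist (c' n ℓ) (c ℓ) + (dist (ℓ' n) ℓ + ε n)) U (𝓝 (0 + (0 + 0))) :=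
        (tendsto_iff_dist_tendsto_zero.mp (hc ℓ)).add ((tendsto_iff_dist_tendsto_zero.mp hℓ).add hεlim)
      rw [add_zero, add_zero] at h2
      refine squeeze_zero (fun n => dist_nonneg) (fun n => ?_) h2
      have h3 := hclose n ℓ (N n)
      rw [(hx n).last] at h3
      have h5 : |clamp (ℓ' n) ℓ - len (x n) (N n)| ≤ dist (ℓ' n) ℓ := by
        have h6 : len (x n) (N n) = clamp (ℓ' n) (ℓ' n) := (clamp_eq (hℓ0 n) le_rfl).symm
        rw [h6, dist_comm, Real.dist_eq]
        exact clamp_sub _ _ _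
      have h4 := dist_triangle (y n) (c' n ℓ) (c ℓ)
      rw [dist_comm (y n) (c' n ℓ)] at h4
      linarith
    exact hF.mem_of_tendsto h1 (Filter.Eventually.of_forall hy)
  have hone := hadm.lip (c := c) hℓmem.1 hcL.lipschitzOnWith (fun t _ => hcmem t) hc0 hcℓ
  -- the integral bound
  have hint : ∀ m : ℕ, ∫ t in (0:ℝ)..ℓ, infConv ρ m (c t) ≤ 1 - δ := by
    intro m
    have hcont : Continuous fun t => infConv ρ m (c t) := (infConv_continuous ρ m).comp hcL.continuous
    have hii : ∀ a b, IntervalIntegrable (fun t => infConv ρ m (c t)) volume a b :=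
      fun a b => hcont.intervalIntegrable a b
    have hkey : ∀ e > 0, ∫ t in (0:ℝ)..ℓ, infConv ρ m (c t) ≤ 1 - δ + e * (5 * m * T + m) := by
      intro e he
      obtain ⟨G, hGsub, hGfin, hGcov⟩ := (isCompact_Icc (a := (0:ℝ)) (b := T)).finite_cover_balls he
      have hev1 : ∀ᶠ n in (U : Filter ℕ), ∀ g ∈ G, dist (c' n g) (c g) < e := by
        rw [Filter.eventually_all_finite hGfin]
        intro g _
        exact (tendsto_iff_dist_tendsto_zero.mp (hc g)).eventually_lt_const he
      have hev2 : ∀ᶠ n in (U : Filter ℕ), ε n < e := hεlim.eventually_lt_const he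
      have hev3 : ∀ᶠ n in (U : Filter ℕ), dist (ℓ' n) ℓ < e :=
        (tendsto_iff_dist_tendsto_zero.mp hℓ).eventually_lt_const he
      have hev4 : ∀ᶠ n in (U : Filter ℕ), m ≤ n := hU (eventually_ge_atTop m)
      obtain ⟨n, ⟨⟨hn1, hn2⟩, hn3⟩, hn4⟩ := (((hev1.and hev2).and hev3).and hev4).exists
      have hpt : ∀ i < N n, ∀ t ∈ Icc (len (x n) i) (len (x n) (i + 1)),
          infConv ρ m (c t) ≤ infConv ρ n (x n i) + 5 * m * e := by
        intro i hi t ht
        have hi0 : 0 ≤ len (x n) i := by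
          have := len_mono (x n) (Nat.zero_le i); rwa [len_zero] at this
        have hiℓ : len (x n) i ≤ ℓ' n := len_mono (x n) hi.le
        have hi1ℓ : len (x n) (i + 1) ≤ ℓ' n := len_mono (x n) hi
        have htT : t ∈ Icc 0 T := ⟨hi0.trans ht.1, ht.2.trans (hi1ℓ.trans (hℓT n))⟩
        obtain ⟨g, hg, hgt⟩ := mem_iUnion₂.mp (hGcov htT)
        rw [mem_ball, Real.dist_eq] at hgt
        have d1 : dist (c t) (c g) ≤ e := (hclip2 t g).trans hgt.le
        have d2 : dist (c g) (c' n g) ≤ e := by rw [dist_comm]; exact (hn1 g hg).le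
        have d3 : dist (c' n g) (x n i) ≤ 3 * e := by
          have h1 := hclose n g i
          have h2 : |clamp (ℓ' n) g - len (x n) i| ≤ |g - len (x n) i| := by
            have := clamp_sub (ℓ' n) g (len (x n) i)
            rwa [clamp_eq hi0 hiℓ] at this
          have h3 : |g - len (x n) i| ≤ |g - t| + |t - len (x n) i| := abs_sub_le _ _ _
          have h4 : |t - len (x n) i| ≤ ε n := by
            rw [abs_of_nonneg (by linarith [ht.1])]
            have h5 := ht.2
            rw [len_succ] at h5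
            have h6 := (hx n).step i hi
            linarith
          rw [abs_sub_comm g t] at h3
          linarith
        have d4 : dist (c t) (x n i) ≤ 5 * e := by
          have h1 := dist_triangle (c t) (c g) (x n i)
          have h2 := dist_triangle (c g) (c' n g) (x n i)
          linarith
        have h7 := infConv_lip ρ m (c t) (x n i)
        have h8 := infConv_mono ρ (x n i) hn4
        simp only at h8
        have h9 : (m : ℝ) * dist (c t) (x n i) ≤ m * (5 * e) := by gcongr
        linarith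
      have hs1 : ∫ t in (0:ℝ)..ℓ' n, infConv ρ m (c t) =
          ∑ i ∈ Finset.range (N n), ∫ t in (len (x n) i)..(len (x n) (i + 1)), infConv ρ m (c t) := by
        rw [intervalIntegral.sum_integral_adjacent_intervals (fun k _ => hii _ _), len_zero]
      have hs2 : ∀ i ∈ Finset.range (N n),
          ∫ t in (len (x n) i)..(len (x n) (i + 1)), infConv ρ m (c t) ≤
          (infConv ρ n (x n i) + 5 * m * e) * dist (x n i) (x n (i + 1)) := by
        intro i hi
        have hi' := Finset.mem_range.mp hi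
        have hle : len (x n) i ≤ len (x n) (i + 1) := len_mono (x n) (Nat.le_succ i)
        calc ∫ t in (len (x n) i)..(len (x n) (i + 1)), infConv ρ m (c t)
            ≤ ∫ _t in (len (x n) i)..(len (x n) (i + 1)), (infConv ρ n (x n i) + 5 * m * e) := by
              apply intervalIntegral.integral_mono_on hle (hii _ _) intervalIntegrable_const
              intro t ht
              exact hpt i hi' t ht
          _ = _ := by
              rw [intervalIntegral.integral_const, smul_eq_mul, len_succ]; ring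
      have hs3 : ∫ t in (0:ℝ)..ℓ' n, infConv ρ m (c t) ≤ 1 - δ + 5 * m * e * T := by
        rw [hs1]
        refine (Finset.sum_le_sum hs2).trans ?_
        have e1 : ∑ i ∈ Finset.range (N n), (infConv ρ n (x n i) + 5 * m * e) * dist (x n i) (x n (i + 1))
            = (∑ i ∈ Finset.range (N n), infConv ρ n (x n i) * dist (x n i) (x n (i + 1)))
              + 5 * m * e * ℓ' n := by
          rw [hℓ']; simp only [add_mul, Finset.sum_add_distrib, len, Finset.mul_sum]
        rw [e1]
        have h1 := hsum2 n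
        have h2 : 0 ≤ η * ℓ' n := mul_nonneg hη.le (hℓ0 n)
        have h3 : 5 * (m:ℝ) * e * ℓ' n ≤ 5 * m * e * T := by
          have := hℓT n; gcongr
        linarith
      have hs4 : ∫ t in (ℓ' n)..ℓ, infConv ρ m (c t) ≤ m * e := by
        have h1 : ‖∫ t in (ℓ' n)..ℓ, infConv ρ m (c t)‖ ≤ m * |ℓ - ℓ' n| := by
          apply intervalIntegral.norm_integral_le_of_norm_le_const
          intro t _
          rw [Real.norm_of_nonneg (infConv_nonneg _ _ _)]
          exact infConv_le_nat _ _ _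
        rw [dist_comm, Real.dist_eq] at hn3
        have h2 : (m : ℝ) * |ℓ - ℓ' n| ≤ m * e := by gcongr
        exact (le_abs_self _).trans (h1.trans h2)
      have hs5 : ∫ t in (0:ℝ)..ℓ, infConv ρ m (c t) = (∫ t in (0:ℝ)..ℓ' n, infConv ρ m (c t)) +
          ∫ t in (ℓ' n)..ℓ, infConv ρ m (c t) :=
        (intervalIntegral.integral_add_adjacent_intervals (hii _ _) (hii _ _)).symm
      rw [hs5]
      linarith
    set B := 5 * (m:ℝ) * T + m with hB
    have hBnn : 0 ≤ B := by positivity
    refine le_of_forall_pos_le_add fun e' he' => ?_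
    have h1 := hkey (e' / (B + 1)) (by positivity)
    have h2 : e' / (B + 1) * B ≤ e' := by
      rw [div_mul_eq_mul_div, div_le_iff₀ (by linarith)]
      nlinarith
    linarith
  have hfin : ∫⁻ t in Icc 0 ℓ, ρ (c t) ≤ ENNReal.ofReal (1 - δ) := by
    have e1 : ∀ t, ρ (c t) = ⨆ m, ENNReal.ofReal (infConv ρ m (c t)) :=
      fun t => (infConv_iSup hρ (c t)).symm
    simp_rw [e1]
    rw [lintegral_iSup]
    · refine iSup_le fun m => ?_
      have hcont : Continuous fun t => infConv ρ m (c t) :=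
        (infConv_continuous ρ m).comp hcL.continuous
      rw [← ofReal_integral_eq_lintegral_ofReal]
      · apply ENNReal.ofReal_le_ofReal
        have := hint m
        rw [intervalIntegral.integral_of_le hℓmem.1] at this
        rwa [integral_Icc_eq_integral_Ioc]
      · exact hcont.continuousOn.integrableOn_Icc
      · exact Filter.Eventually.of_forall fun t => infConv_nonneg _ _ _
    · intro m
      exact (((infConv_continuous ρ m).comp hcL.continuous).measurable).ennreal_ofReal
    · intro m n hmn t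
      exact ENNReal.ofReal_le_ofReal (infConv_mono ρ (c t) hmn)
  have h1 := hone.trans hfin
  have h2 : ENNReal.ofReal (1 - δ) < 1 := by
    rw [ENNReal.ofReal_lt_one]; linarith
  exact absurd h1 (not_le.mpr h2)

end Pool.Agent.H22.Recip
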