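import Pool.Agent.H22.Recip.Miranda

/-!
# Curves: Lipschitz curves versus unit speed curves, crossing
-/

open MeasureTheory Measure Set Metric Filter Topology
open scoped ENNReal NNReal

namespace Pool.Agent.H22.Recip

universe u

variable {X : Type u} [MetricSpace X]

theorem HasUnitSpeedOn.lipschitz {γ : ℝ → X} {s : Set ℝ} (h : HasUnitSpeedOn γ s) :
    LipschitzOnWith 1 γ s := by
  intro x hx y hy
  wlog hxy : x ≤ y generalizing x y
  · rw [edist_comm (γ x), edist_comm x]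
    exact this hy hx (le_of_not_ge hxy)
  have h1 := h hx hy
  have h2 : edist (γ x) (γ y) ≤ eVariationOn γ (s ∩ Icc x y) :=
    eVariationOn.edist_le γ ⟨hx, le_rfl, hxy⟩ ⟨hy, hxy, le_rfl⟩
  rw [h1] at h2
  have h3 : edist x y = ENNReal.ofReal (y - x) := by
    rw [edist_comm, edist_dist, Real.dist_eq, abs_of_nonneg (by linarith)]
  rw [ENNReal.coe_one, one_mul, h3]
  simpa using h2

/-- the image of Lebesgue measure under a 1-Lipschitz map dominates Lebesgue measure on the image. -/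
theorem lintegral_image_le {σ : ℝ → ℝ} {s : Set ℝ} (hs : MeasurableSet s)
    (hσ : LipschitzOnWith 1 σ s) (h : ℝ → ℝ≥0∞) :
    ∫⁻ u in σ '' s, h u ≤ ∫⁻ t in s, h (σ t) := by
  have hae : AEMeasurable σ (volume.restrict s) := hσ.continuousOn.aemeasurable hs
  refine le_trans ?_ (lintegral_map_le h σ)
  refine lintegral_mono' ?_ le_rfl
  rw [Measure.le_iff]
  intro A hA
  rw [Measure.restrict_apply hA, Measure.map_apply_of_aemeasurable hae hA,
    ← Set.image_preimage_inter]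
  have hvol : ∀ T ⊆ s, volume (σ '' T) ≤ volume T := by
    intro T hT
    rw [← hausdorffMeasure_real]
    have := (hσ.mono hT).hausdorffMeasure_image_le (d := 1) zero_le_one
    simpa using this
  refine le_trans (hvol _ inter_subset_right) ?_
  rw [Measure.restrict_apply₀' hs.nullMeasurableSet]

set_option linter.unusedSectionVars false

variable [MeasurableSpace X] [BorelSpace X]

/-- Admissible functions see every 1-Lipschitz curve. -/
theorem Admissible.lip {E F S : Set X} {ρ : X → ℝ≥0∞} (hρ : Admissible (Joining E F S) ρ)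
    {c : ℝ → X} {ℓ : ℝ} (hℓ : 0 ≤ ℓ) (hc : LipschitzOnWith 1 c (Icc 0 ℓ))
    (hS : MapsTo c (Icc 0 ℓ) S) (h0 : c 0 ∈ E) (h1 : c ℓ ∈ F) :
    1 ≤ ∫⁻ t in Icc 0 ℓ, ρ (c t) := by
  set s := Icc 0 ℓ with hs
  have m0 : (0:ℝ) ∈ s := ⟨le_rfl, hℓ⟩
  have m1 : ℓ ∈ s := ⟨hℓ, le_rfl⟩
  have hbv : LocallyBoundedVariationOn c s := hc.locallyBoundedVariationOn
  set σ : ℝ → ℝ := variationOnFromTo c s 0 with hσ
  have hmono : MonotoneOn σ s := variationOnFromTo.monotoneOn hbv m0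
  have hσ0 : σ 0 = 0 := variationOnFromTo.self _ _ _
  have hlip : LipschitzOnWith 1 σ s := by
    apply LipschitzOnWith.of_dist_le_mul
    intro x hx y hy
    rw [NNReal.coe_one, one_mul]
    wlog hxy : x ≤ y generalizing x y
    · rw [dist_comm (σ x), dist_comm x]
      exact this y hy x hx (le_of_not_ge hxy)
    have e1 : σ y - σ x = variationOnFromTo c s x y := by
      have := variationOnFromTo.add hbv m0 hx hy
      rw [hσ]; linarith
    rw [dist_comm, Real.dist_eq, dist_comm, Real.dist_eq, abs_of_nonneg (by linarith [hmono hx hy hxy]),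
      abs_of_nonneg (by linarith), e1, variationOnFromTo.eq_of_le _ _ hxy]
    have e2 : eVariationOn c (s ∩ Icc x y) ≤ ENNReal.ofReal (y - x) := by
      have h3 := (hc.mono (inter_subset_left : s ∩ Icc x y ⊆ s)).comp_eVariationOn_le
        (mapsTo_id (s ∩ Icc x y))
      have h4 : eVariationOn (id : ℝ → ℝ) (s ∩ Icc x y) ≤ ENNReal.ofReal (y - x) := by
        have := ((monotoneOn_id (s := s)).eVariationOn_eq hx hy).le
        simpa using this
      calc eVariationOn c (s ∩ Icc x y) ≤ _ := h3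
        _ ≤ 1 * ENNReal.ofReal (y - x) := by gcongr; exact_mod_cast le_rfl
        _ = _ := one_mul _
    exact ENNReal.toReal_le_of_le_ofReal (by linarith) e2
  have himg : σ '' s = Icc 0 (σ ℓ) := by
    apply Subset.antisymm
    · rintro _ ⟨t, ht, rfl⟩
      constructor
      · rw [← hσ0]; exact hmono m0 ht ht.1
      · exact hmono ht m1 ht.2
    · have := intermediate_value_Icc hℓ (f := σ) hlip.continuousOn
      rwa [hσ0] at this
  set γ := naturalParameterization c s 0 with hγ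
  have hγσ : ∀ t ∈ s, γ (σ t) = c t := by
    intro t ht
    have := edist_naturalParameterization_eq_zero hbv m0 ht
    exact edist_eq_zero.mp this
  have hmem : (σ ℓ, γ) ∈ Joining E F S := by
    refine ⟨?_, ?_, ?_, ?_, ?_⟩
    · show 0 ≤ σ ℓ
      rw [← hσ0]; exact hmono m0 m1 hℓ
    · show HasUnitSpeedOn γ (Icc 0 (σ ℓ))
      rw [← himg]
      exact has_unit_speed_naturalParameterization c hbv m0
    · show MapsTo γ (Icc 0 (σ ℓ)) S
      rw [← himg]
      rintro _ ⟨t, ht, rfl⟩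
      rw [hγσ t ht]; exact hS ht
    · show γ 0 ∈ E
      rw [← hσ0, hγσ 0 m0]; exact h0
    · show γ (σ ℓ) ∈ F
      rw [hγσ ℓ m1]; exact h1
  calc (1 : ℝ≥0∞) ≤ ∫⁻ u in Icc 0 (σ ℓ), ρ (γ u) := hρ.2 _ hmem
    _ = ∫⁻ u in σ '' s, ρ (γ u) := by rw [himg]
    _ ≤ ∫⁻ t in s, ρ (γ (σ t)) := lintegral_image_le measurableSet_Icc hlip (fun u => ρ (γ u))
    _ = ∫⁻ t in s, ρ (c t) := setLIntegral_congr_fun measurableSet_Icc (fun t ht => by rw [hγσ t ht])

omit [MeasurableSpace X] [BorelSpace X] in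
theorem Quadrilateral.exists_inv (q : Quadrilateral X) :
    ∃ ψ : X → ℝ × ℝ, ContinuousOn ψ q.carrier ∧
      (∀ p ∈ (Icc 0 1 ×ˢ Icc 0 1 : Set (ℝ × ℝ)), ψ (q.toFun p) = p) := by
  set S : Set (ℝ × ℝ) := Icc 0 1 ×ˢ Icc 0 1 with hS
  have hScomp : IsCompact S := isCompact_Icc.prod isCompact_Icc
  have hleft : ∀ p ∈ S, Function.invFunOn q.toFun S (q.toFun p) = p :=
    fun p hp => q.inj.leftInvOn_invFunOn hp
  refine ⟨Function.invFunOn q.toFun S, ?_, hleft⟩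
  rw [continuousOn_iff_isClosed]
  intro C hC
  refine ⟨q.toFun '' (C ∩ S), ?_, ?_⟩
  · exact ((hScomp.inter_left hC).image_of_continuousOn (q.cont.mono inter_subset_right)).isClosed
  · ext x
    constructor
    · rintro ⟨hx, p, hp, rfl⟩
      rw [mem_preimage, hleft p hp] at hx
      exact ⟨⟨p, ⟨hx, hp⟩, rfl⟩, p, hp, rfl⟩
    · rintro ⟨⟨p, ⟨hpC, hpS⟩, rfl⟩, h2⟩
      refine ⟨?_, h2⟩
      rw [mem_preimage, hleft p hpS]; exact hpC

omit [MeasurableSpace X] [BorelSpace X] in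
/-- curves joining opposite sides of a quadrilateral cross. -/
theorem Quadrilateral.crossing (q : Quadrilateral X) {u v : ℝ → X} {ℓ L : ℝ} (hℓ : 0 ≤ ℓ) (hL : 0 ≤ L)
    (hu : ContinuousOn u (Icc 0 ℓ)) (hv : ContinuousOn v (Icc 0 L))
    (hu' : MapsTo u (Icc 0 ℓ) q.carrier) (hv' : MapsTo v (Icc 0 L) q.carrier)
    (u0 : u 0 ∈ q.arc₁) (u1 : u ℓ ∈ q.arc₃) (v0 : v 0 ∈ q.arc₂) (v1 : v L ∈ q.arc₄) :
    ∃ a ∈ Icc 0 ℓ, ∃ b ∈ Icc 0 L, u a = v b := by
  obtain ⟨ψ, hψc, hψ⟩ := q.exists_inv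
  have m0 : (0:ℝ) ∈ Icc (0:ℝ) 1 := by simp
  have m1 : (1:ℝ) ∈ Icc (0:ℝ) 1 := by simp
  have hsc : ∀ {M : ℝ}, 0 ≤ M → ∀ a ∈ Icc (0:ℝ) 1, M * a ∈ Icc 0 M := by
    intro M hM a ha
    exact ⟨mul_nonneg hM ha.1, by nlinarith [ha.2]⟩
  have hψu : ContinuousOn (fun t => ψ (u t)) (Icc 0 ℓ) := hψc.comp hu hu'
  have hψv : ContinuousOn (fun t => ψ (v t)) (Icc 0 L) := hψc.comp hv hv'
  have c1 : ContinuousOn (fun p : ℝ × ℝ => ψ (u (ℓ * p.1))) (Icc 0 1 ×ˢ Icc 0 1) :=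
    hψu.comp (f := fun p : ℝ × ℝ => ℓ * p.1) (by fun_prop) (fun p hp => hsc hℓ _ hp.1)
  have c2 : ContinuousOn (fun p : ℝ × ℝ => ψ (v (L * p.2))) (Icc 0 1 ×ˢ Icc 0 1) :=
    hψv.comp (f := fun p : ℝ × ℝ => L * p.2) (by fun_prop) (fun p hp => hsc hL _ hp.2)
  have hrange : ∀ x ∈ q.carrier, ψ x ∈ (Icc 0 1 ×ˢ Icc 0 1 : Set (ℝ × ℝ)) := by
    rintro _ ⟨p, hp, rfl⟩
    rw [hψ p hp]; exact hp
  obtain ⟨p, hp, h1, h2⟩ := poincare_miranda
    (fun p => (ψ (u (ℓ * p.1))).2 - (ψ (v (L * p.2))).2)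
    (fun p => (ψ (u (ℓ * p.1))).1 - (ψ (v (L * p.2))).1)
    ((continuous_snd.comp_continuousOn c1).sub (continuous_snd.comp_continuousOn c2))
    ((continuous_fst.comp_continuousOn c1).sub (continuous_fst.comp_continuousOn c2))
    (by
      intro y hy
      obtain ⟨w, hw, hwe⟩ := u0
      have e : (ψ (u (ℓ * 0))).2 = 0 := by
        rw [mul_zero, ← hwe, hψ w ⟨hw.1, by rw [hw.2]; exact m0⟩]; exact hw.2
      have := (hrange _ (hv' (hsc hL y hy))).2.1
      simp only [e]; linarith)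
    (by
      intro y hy
      obtain ⟨w, hw, hwe⟩ := u1
      have e : (ψ (u (ℓ * 1))).2 = 1 := by
        rw [mul_one, ← hwe, hψ w ⟨hw.1, by rw [hw.2]; exact m1⟩]; exact hw.2
      have := (hrange _ (hv' (hsc hL y hy))).2.2
      simp only [e]; linarith)
    (by
      intro x hx
      obtain ⟨w, hw, hwe⟩ := v0
      have e : (ψ (v (L * 0))).1 = 1 := by
        rw [mul_zero, ← hwe, hψ w ⟨by rw [hw.1]; exact m1, hw.2⟩]; exact hw.1
      have := (hrange _ (hu' (hsc hℓ x hx))).1.2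
      simp only [e]; linarith)
    (by
      intro x hx
      obtain ⟨w, hw, hwe⟩ := v1
      have e : (ψ (v (L * 1))).1 = 0 := by
        rw [mul_one, ← hwe, hψ w ⟨by rw [hw.1]; exact m0, hw.2⟩]; exact hw.1
      have := (hrange _ (hu' (hsc hℓ x hx))).1.1
      simp only [e]; linarith)
  refine ⟨ℓ * p.1, hsc hℓ _ hp.1, L * p.2, hsc hL _ hp.2, ?_⟩
  have e3 : ψ (u (ℓ * p.1)) = ψ (v (L * p.2)) := by
    apply Prod.ext <;> [linarith; linarith]
  obtain ⟨w, hw, hwe⟩ := hu' (hsc hℓ _ hp.1)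
  obtain ⟨w', hw', hwe'⟩ := hv' (hsc hL _ hp.2)
  rw [← hwe, ← hwe', hψ w hw, hψ w' hw'] at e3
  rw [← hwe, ← hwe', e3]

omit [MeasurableSpace X] [BorelSpace X] in
/-- surjectivity onto a rectangle -/
theorem Quadrilateral.surj (q : Quadrilateral X) {f g : X → ℝ} (hf : ContinuousOn f q.carrier)
    (hg : ContinuousOn g q.carrier) {A B : ℝ}
    (hf0 : ∀ x ∈ q.arc₁, f x = 0) (hf1 : ∀ x ∈ q.arc₃, A ≤ f x)
    (hg0 : ∀ x ∈ q.arc₂, g x = 0) (hg1 : ∀ x ∈ q.arc₄, B ≤ g x)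
    {s t : ℝ} (hs : s ∈ Icc 0 A) (ht : t ∈ Icc 0 B) :
    ∃ x ∈ q.carrier, f x = s ∧ g x = t := by
  have m0 : (0:ℝ) ∈ Icc (0:ℝ) 1 := by simp
  have m1 : (1:ℝ) ∈ Icc (0:ℝ) 1 := by simp
  have hmaps : MapsTo q.toFun (Icc 0 1 ×ˢ Icc 0 1) q.carrier := mapsTo_image _ _
  obtain ⟨p, hp, h1, h2⟩ := poincare_miranda
    (fun p => t - g (q.toFun p)) (fun p => f (q.toFun p) - s)
    (continuousOn_const.sub (hg.comp q.cont hmaps))
    ((hf.comp q.cont hmaps).sub continuousOn_const)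
    (by
      intro y hy
      have := hg1 (q.toFun (0, y)) ⟨(0, y), ⟨rfl, hy⟩, rfl⟩
      linarith [ht.2])
    (by
      intro y hy
      have := hg0 (q.toFun (1, y)) ⟨(1, y), ⟨rfl, hy⟩, rfl⟩
      linarith [ht.1])
    (by
      intro x hx
      have := hf0 (q.toFun (x, 0)) ⟨(x, 0), ⟨hx, rfl⟩, rfl⟩
      linarith [hs.1])
    (by
      intro x hx
      have := hf1 (q.toFun (x, 1)) ⟨(x, 1), ⟨hx, rfl⟩, rfl⟩
      linarith [hs.2])
  exact ⟨q.toFun p, ⟨p, hp, rfl⟩, by linarith, by linarith⟩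

end Pool.Agent.H22.Recip
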