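import Mathlib

/-!
# Reciprocal metric surfaces: definitions
-/

open MeasureTheory Measure Set Metric Filter Topology
open scoped ENNReal NNReal

namespace Pool.Agent.H22.Recip

universe u

section Defs

variable (X : Type u) [MetricSpace X] [MeasurableSpace X] [BorelSpace X]

/-- Hausdorff 2-measure, normalised so that it agrees with Lebesgue measure on the Euclidean plane:
`π/4` times Mathlib's `μH[2]`. -/
noncomputable def H2 : Measure X := ENNReal.ofReal (Real.pi / 4) • (μH[2] : Measure X)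

variable {X}

/-- A family of rectifiable curves in `X`: a set of pairs `(L, γ)`, where `γ` restricted to `[0, L]` is the
arc-length parametrisation of a curve of length `L`.  The family `Γ(E, F; S)` of curves in `S` joining `E` and `F`. -/
def Joining (E F S : Set X) : Set (ℝ × (ℝ → X)) :=
  {c | 0 ≤ c.1 ∧ HasUnitSpeedOn c.2 (Icc 0 c.1) ∧ MapsTo c.2 (Icc 0 c.1) S ∧ c.2 0 ∈ E ∧ c.2 c.1 ∈ F}

/-- `ρ` is admissible for `Γ`: it is Borel and `∫_γ ρ ds ≥ 1` for every `γ ∈ Γ`. -/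
def Admissible (Γ : Set (ℝ × (ℝ → X))) (ρ : X → ℝ≥0∞) : Prop :=
  Measurable ρ ∧ ∀ c ∈ Γ, 1 ≤ ∫⁻ s in Icc 0 c.1, ρ (c.2 s)

/-- The conformal modulus `Mod₂ Γ`. -/
noncomputable def Mod2 (Γ : Set (ℝ × (ℝ → X))) : ℝ≥0∞ :=
  ⨅ (ρ : X → ℝ≥0∞) (_ : Admissible Γ ρ), ∫⁻ x, ρ x ^ 2 ∂(H2 X)

variable (X)

/-- A quadrilateral in `X`: a topological embedding of the closed unit square `[0,1]²`.  Its carrier is
the image of the square, and the marked points are the images of the four corners. -/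
structure Quadrilateral where
  /-- the parametrisation -/
  toFun : ℝ × ℝ → X
  cont : ContinuousOn toFun (Icc 0 1 ×ˢ Icc 0 1)
  inj : InjOn toFun (Icc 0 1 ×ˢ Icc 0 1)

variable {X}

namespace Quadrilateral

/-- the closed Jordan domain -/
def carrier (q : Quadrilateral X) : Set X := q.toFun '' (Icc 0 1 ×ˢ Icc 0 1)

/-- boundary arc `[ζ₁, ζ₂]` -/
def arc₁ (q : Quadrilateral X) : Set X := q.toFun '' (Icc 0 1 ×ˢ {0})
/-- boundary arc `[ζ₂, ζ₃]` -/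
def arc₂ (q : Quadrilateral X) : Set X := q.toFun '' ({1} ×ˢ Icc 0 1)
/-- boundary arc `[ζ₃, ζ₄]` -/
def arc₃ (q : Quadrilateral X) : Set X := q.toFun '' (Icc 0 1 ×ˢ {1})
/-- boundary arc `[ζ₄, ζ₁]` -/
def arc₄ (q : Quadrilateral X) : Set X := q.toFun '' ({0} ×ˢ Icc 0 1)

/-- `Γ(Q)` -/
def Γ (q : Quadrilateral X) : Set (ℝ × (ℝ → X)) := Joining q.arc₁ q.arc₃ q.carrier

/-- `Γ*(Q)` -/
def Γstar (q : Quadrilateral X) : Set (ℝ × (ℝ → X)) := Joining q.arc₂ q.arc₄ q.carrier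

end Quadrilateral

variable (X)

/-- (R1) with constant `κ` -/
def R1 (κ : ℝ) : Prop := ∀ q : Quadrilateral X,
  ENNReal.ofReal κ⁻¹ ≤ Mod2 q.Γ * Mod2 q.Γstar ∧ Mod2 q.Γ * Mod2 q.Γstar ≤ ENNReal.ofReal κ

/-- (R2) -/
def R2 : Prop := ∀ (a : X) (R : ℝ), 0 < R →
  Tendsto (fun r : ℝ => Mod2 (Joining (closedBall a r) (ball a R)ᶜ (univ : Set X))) (𝓝[>] 0) (𝓝 0)

/-- `X` is reciprocal. -/
def Reciprocal : Prop := (∃ κ : ℝ, 1 ≤ κ ∧ R1 X κ) ∧ R2 X

/-- condition (1) -/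
def Cond1 : Prop := ∀ x : X,
  limsup (fun r : ℝ => H2 X (ball x r) / ENNReal.ofReal (Real.pi * r ^ 2)) (𝓝[>] 0) < ∞
/-- condition (2) -/
def Cond2 : Prop := ∃ C : ℝ, ∀ x : X,
  liminf (fun r : ℝ => H2 X (ball x r) / ENNReal.ofReal (Real.pi * r ^ 2)) (𝓝[>] 0) ≤ ENNReal.ofReal C
/-- condition (3) -/
def Cond3 : Prop := ∀ x : X,
  liminf (fun r : ℝ => H2 X (ball x r) / ENNReal.ofReal (Real.pi * r ^ 2)) (𝓝[>] 0) < ∞

end Defs

end Pool.Agent.H22.Recip
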