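import Pool.Agent.H22.Recip.Lower

/-!
# Vitali covering, density of `μH[2]`, and a maximal function
-/

open MeasureTheory Measure Set Metric Filter Topology
open scoped ENNReal NNReal

namespace Pool.Agent.H22.Recip

universe u

variable {X : Type u} [MetricSpace X] [MeasurableSpace X] [BorelSpace X]

set_option linter.unusedSectionVars false

theorem vitali_countable (ν : Measure X) [IsFiniteMeasure ν] {ι : Type*} (t : Set ι) (x : ι → X)
    (r : ι → ℝ) (R : ℝ) (hr : ∀ a ∈ t, r a ≤ R) (hpos : ∀ a ∈ t, 0 < ν (closedBall (x a) (r a))) :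
    ∃ u ⊆ t, u.Countable ∧ (u.PairwiseDisjoint fun a => closedBall (x a) (r a)) ∧
      ∀ a ∈ t, ∃ b ∈ u, closedBall (x a) (r a) ⊆ closedBall (x b) (5 * r b) := by
  obtain ⟨u, hut, hdisj, hcov⟩ := Vitali.exists_disjoint_subfamily_covering_enlargement_closedBall
    t x r R hr 5 (by norm_num)
  refine ⟨u, hut, ?_, hdisj, hcov⟩
  have h1 := Measure.countable_meas_pos_of_disjoint_iUnion (μ := ν)
    (As := fun a : u => closedBall (x a) (r a)) (fun _ => measurableSet_closedBall)
    (by
      intro a b hab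
      exact hdisj a.2 b.2 (fun h => hab (Subtype.ext h)))
  have h2 : {i : u | 0 < ν (closedBall (x i) (r i))} = univ := by
    ext i; simp only [mem_ofPred_eq, mem_univ, iff_true]; exact hpos _ (hut i.2)
  rw [h2, countable_univ_iff] at h1
  exact h1

/-- lower density of `μH[2]` is bounded by a universal constant almost everywhere -/
theorem density_null {K : Set X}
    (hfin : (μH[2] : Measure X) K < ∞) {δ : ℝ} (hδ : 0 < δ) :
    ((μH[2] : Measure X).restrict K) {x | x ∈ K ∧ ∀ r, 0 < r → r < δ →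
      ENNReal.ofReal (101 * r ^ 2) ≤ ((μH[2] : Measure X).restrict K) (closedBall x r)} = 0 := by
  set ν : Measure X := (μH[2] : Measure X).restrict K with hν
  have : IsFiniteMeasure ν := ⟨by rwa [hν, Measure.restrict_apply_univ]⟩
  set A : Set X := {x | x ∈ K ∧ ∀ r, 0 < r → r < δ → ENNReal.ofReal (101 * r ^ 2) ≤ ν (closedBall x r)}
    with hA
  have hAfin : ν A ≠ ∞ := measure_ne_top ν A
  have hmain : ∀ ε : ℝ≥0∞, ε ≠ 0 → ν A ≤ ENNReal.ofReal (100 / 101) * (ν A + ε) := by
    intro ε hε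
    obtain ⟨U, hAU, hUo, hU⟩ := A.exists_isOpen_lt_add hAfin hε
    have hstep : ∀ n : ℕ, ∃ (u : Set X) (r : X → ℝ), u.Countable ∧
        (∀ b ∈ u, ediam (closedBall b (5 * r b)) ≤ ENNReal.ofReal (10 * δ * (1 / ((n:ℝ) + 1)))) ∧
        A ⊆ ⋃ b : u, closedBall (b : X) (5 * r b) ∧
        ∑' b : u, ediam (closedBall (b : X) (5 * r b)) ^ (2:ℝ) ≤ ENNReal.ofReal (100 / 101) * ν U := by
      intro n
      have hR : 0 < δ * (1 / ((n:ℝ) + 1)) := by positivity
      have hR2 : δ * (1 / ((n:ℝ) + 1)) ≤ δ := by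
        have : 1 / ((n:ℝ) + 1) ≤ 1 := by
          rw [div_le_one (by positivity)]; linarith [(Nat.cast_nonneg n : (0:ℝ) ≤ n)]
        nlinarith
      have hch : ∀ x ∈ A, ∃ r, 0 < r ∧ r < δ * (1 / ((n:ℝ) + 1)) ∧ closedBall x r ⊆ U := by
        intro x hx
        obtain ⟨e, he, heU⟩ := Metric.isOpen_iff.mp hUo x (hAU hx)
        refine ⟨min (e / 2) (δ * (1 / ((n:ℝ) + 1)) / 2), by positivity, ?_, ?_⟩
        · exact lt_of_le_of_lt (min_le_right _ _) (by linarith)
        · refine (closedBall_subset_ball ?_).trans heU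
          exact lt_of_le_of_lt (min_le_left _ _) (by linarith)
      choose! r hr0 hrR hrU using hch
      have hlow : ∀ a ∈ A, ENNReal.ofReal (101 * r a ^ 2) ≤ ν (closedBall a (r a)) :=
        fun a ha => ha.2 (r a) (hr0 a ha) ((hrR a ha).trans_le hR2)
      obtain ⟨u, huA, huc, hud, hucov⟩ := vitali_countable ν A id r _ (fun a ha => (hrR a ha).le)
        (fun a ha => lt_of_lt_of_le (ENNReal.ofReal_pos.mpr (by have := hr0 a ha; positivity))
          (hlow a ha))
      have hdiam : ∀ b ∈ u, ediam (closedBall b (5 * r b)) ≤ ENNReal.ofReal (10 * r b) := by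
        intro b _
        apply Metric.ediam_le
        intro x hx y hy
        rw [edist_dist]
        apply ENNReal.ofReal_le_ofReal
        have h1 : dist x b ≤ 5 * r b := hx
        have h2 : dist y b ≤ 5 * r b := hy
        have := dist_triangle_right x y b
        linarith
      refine ⟨u, r, huc, ?_, ?_, ?_⟩
      · intro b hb
        refine (hdiam b hb).trans (ENNReal.ofReal_le_ofReal ?_)
        have := hrR b (huA hb)
        linarith
      · intro x hx
        obtain ⟨b, hb, hsub⟩ := hucov x hx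
        exact mem_iUnion.mpr ⟨⟨b, hb⟩, hsub (mem_closedBall_self (hr0 x hx).le)⟩
      · have : Countable u := huc.to_subtype
        calc ∑' b : u, ediam (closedBall (b : X) (5 * r b)) ^ (2:ℝ)
            ≤ ∑' b : u, ENNReal.ofReal (100 / 101) * ν (closedBall (b : X) (r b)) := by
              apply ENNReal.tsum_le_tsum
              intro b
              have h0 := hr0 b (huA b.2)
              calc ediam (closedBall (b : X) (5 * r b)) ^ (2:ℝ)
                  ≤ (ENNReal.ofReal (10 * r b)) ^ (2:ℝ) := by gcongr; exact hdiam b b.2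
                _ = ENNReal.ofReal (100 / 101) * ENNReal.ofReal (101 * r b ^ 2) := by
                  rw [ENNReal.rpow_ofNat, ← ENNReal.ofReal_pow (by positivity),
                    ← ENNReal.ofReal_mul (by norm_num)]
                  congr 1; ring
                _ ≤ _ := by gcongr; exact hlow b (huA b.2)
          _ = ENNReal.ofReal (100 / 101) * ∑' b : u, ν (closedBall (b : X) (r b)) :=
              ENNReal.tsum_mul_left
          _ = ENNReal.ofReal (100 / 101) * ν (⋃ b : u, closedBall (b : X) (r b)) := by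
              rw [measure_iUnion _ (fun _ => measurableSet_closedBall)]
              intro a b hab
              exact hud a.2 b.2 (fun h => hab (Subtype.ext h))
          _ ≤ _ := by
              gcongr
              exact iUnion_subset fun b => hrU b (huA b.2)
    choose u r huc hdiam hcov hsum using hstep
    have hcount : ∀ n, Countable (u n) := fun n => (huc n).to_subtype
    have hlim : Tendsto (fun n : ℕ => ENNReal.ofReal (10 * δ * (1 / ((n:ℝ) + 1)))) atTop (𝓝 0) := by
      rw [← ENNReal.ofReal_zero]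
      apply ENNReal.tendsto_ofReal
      have := (tendsto_one_div_add_atTop_nhds_zero_nat (𝕜 := ℝ)).const_mul (10 * δ)
      simpa using this
    have hH := hausdorffMeasure_le_liminf_tsum (X := X) (ι := fun n => u n) 2 A
      (fun n : ℕ => ENNReal.ofReal (10 * δ * (1 / ((n:ℝ) + 1)))) hlim
      (fun n b => closedBall (b : X) (5 * r n b))
      (Filter.Eventually.of_forall fun n b => hdiam n b b.2)
      (Filter.Eventually.of_forall fun n => hcov n)
    have hlimle : liminf (fun n : ℕ => ∑' b : u n, ediam (closedBall (b : X) (5 * r n b)) ^ (2:ℝ)) atTop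
        ≤ ENNReal.ofReal (100 / 101) * ν U := by
      apply liminf_le_of_frequently_le'
      exact Filter.Frequently.of_forall fun n => hsum n
    calc ν A ≤ (μH[2] : Measure X) A := Measure.restrict_le_self A
      _ ≤ _ := hH
      _ ≤ _ := hlimle
      _ ≤ _ := by gcongr
  -- conclusion
  have hreal : ∀ e : ℝ, 0 < e → (ν A).toReal ≤ 100 / 101 * ((ν A).toReal + e) := by
    intro e he
    have h1 := hmain (ENNReal.ofReal e) (ENNReal.ofReal_pos.mpr he).ne'
    have h2 := ENNReal.toReal_mono (by finiteness) h1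
    rw [ENNReal.toReal_mul, ENNReal.toReal_add hAfin ENNReal.ofReal_ne_top,
      ENNReal.toReal_ofReal (by norm_num), ENNReal.toReal_ofReal he.le] at h2
    exact h2
  have h0 : (ν A).toReal = 0 := by
    by_contra hne
    have hpos : 0 < (ν A).toReal := lt_of_le_of_ne ENNReal.toReal_nonneg (Ne.symm hne)
    have := hreal ((ν A).toReal / 200) (by positivity)
    linarith
  exact ((ENNReal.toReal_eq_zero_iff _).mp h0).resolve_right hAfin

/-- maximal function -/
noncomputable def maxFun (ν : Measure X) (δ : ℝ) (f : X → ℝ≥0∞) (y : X) : ℝ≥0∞ :=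
  ⨆ (p : X × ℝ) (_ : 0 < p.2 ∧ p.2 < δ) (_ : dist y p.1 < p.2 / 5),
    (∫⁻ z in closedBall p.1 (3 * p.2), f z ∂ν) / ν (closedBall p.1 (15 * p.2))

theorem le_maxFun (ν : Measure X) {δ : ℝ} (f : X → ℝ≥0∞) {x y : X} {r : ℝ} (hr : 0 < r) (hrδ : r < δ)
    (hxy : dist y x < r / 5) :
    (∫⁻ z in closedBall x (3 * r), f z ∂ν) / ν (closedBall x (15 * r)) ≤ maxFun ν δ f y := by
  unfold maxFun
  exact le_iSup_of_le (x, r) (le_iSup_of_le ⟨hr, hrδ⟩ (le_iSup_of_le hxy le_rfl))

theorem lt_maxFun_iff (ν : Measure X) {δ : ℝ} (f : X → ℝ≥0∞) {y : X} {c : ℝ≥0∞} :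
    c < maxFun ν δ f y ↔ ∃ x r, 0 < r ∧ r < δ ∧ dist y x < r / 5 ∧
      c < (∫⁻ z in closedBall x (3 * r), f z ∂ν) / ν (closedBall x (15 * r)) := by
  unfold maxFun
  simp only [lt_iSup_iff]
  constructor
  · rintro ⟨⟨x, r⟩, ⟨h1, h2⟩, h3, h4⟩
    exact ⟨x, r, h1, h2, h3, h4⟩
  · rintro ⟨x, r, h1, h2, h3, h4⟩
    exact ⟨⟨x, r⟩, ⟨h1, h2⟩, h3, h4⟩

theorem lsc_maxFun (ν : Measure X) (δ : ℝ) (f : X → ℝ≥0∞) : LowerSemicontinuous (maxFun ν δ f) := by
  intro y c hc
  obtain ⟨x, r, h1, h2, h3, h4⟩ := (lt_maxFun_iff ν f).mp hc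
  have : ∀ᶠ z in 𝓝 y, dist z x < r / 5 :=
    (isOpen_lt (continuous_id.dist continuous_const) continuous_const).mem_nhds h3
  filter_upwards [this] with z hz
  exact (lt_maxFun_iff ν f).mpr ⟨x, r, h1, h2, hz, h4⟩

theorem measurable_maxFun (ν : Measure X) (δ : ℝ) (f : X → ℝ≥0∞) : Measurable (maxFun ν δ f) :=
  (lsc_maxFun ν δ f).measurable

/-- weak type (1,1) -/
theorem weak_maxFun (ν : Measure X) [IsFiniteMeasure ν] (δ : ℝ) (f : X → ℝ≥0∞) (c : ℝ≥0∞) :
    c * ν {y | c < maxFun ν δ f y} ≤ ∫⁻ z, f z ∂ν := by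
  set t : Set (X × ℝ) := {p | 0 < p.2 ∧ p.2 < δ ∧
    c < (∫⁻ z in closedBall p.1 (3 * p.2), f z ∂ν) / ν (closedBall p.1 (15 * p.2))} with ht
  have hkey : ∀ p ∈ t, c * ν (closedBall p.1 (15 * p.2)) ≤ ∫⁻ z in closedBall p.1 (3 * p.2), f z ∂ν := by
    intro p hp
    exact ENNReal.mul_le_of_le_div hp.2.2.le
  have hpos : ∀ p ∈ t, 0 < ν (closedBall p.1 (3 * p.2)) := by
    intro p hp
    rw [pos_iff_ne_zero]
    intro h0
    have h1 : ∫⁻ z in closedBall p.1 (3 * p.2), f z ∂ν = 0 := setLIntegral_measure_zero _ _ h0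
    have h2 := hp.2.2
    rw [h1, ENNReal.zero_div] at h2
    exact absurd h2 not_lt_zero
  obtain ⟨u, hut, huc, hud, hucov⟩ := vitali_countable ν t (fun p => p.1) (fun p => 3 * p.2) (3 * δ)
    (fun p hp => by linarith [hp.2.1]) hpos
  have hcount : Countable u := huc.to_subtype
  have hsub : {y | c < maxFun ν δ f y} ⊆ ⋃ b : u, closedBall b.1.1 (15 * b.1.2) := by
    intro y hy
    obtain ⟨x, r, h1, h2, h3, h4⟩ := (lt_maxFun_iff ν f).mp hy
    obtain ⟨b, hb, hb2⟩ := hucov (x, r) ⟨h1, h2, h4⟩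
    refine mem_iUnion.mpr ⟨⟨b, hb⟩, ?_⟩
    have h5 : y ∈ closedBall x (3 * r) := by rw [mem_closedBall]; linarith
    have h6 := hb2 h5
    simp only at h6 ⊢
    rwa [show 5 * (3 * b.2) = 15 * b.2 by ring] at h6
  calc c * ν {y | c < maxFun ν δ f y}
      ≤ c * ∑' b : u, ν (closedBall b.1.1 (15 * b.1.2)) := by
        gcongr
        exact (measure_mono hsub).trans (measure_iUnion_le _)
    _ = ∑' b : u, c * ν (closedBall b.1.1 (15 * b.1.2)) := ENNReal.tsum_mul_left.symm
    _ ≤ ∑' b : u, ∫⁻ z in closedBall b.1.1 (3 * b.1.2), f z ∂ν :=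
        ENNReal.tsum_le_tsum fun b => hkey b.1 (hut b.2)
    _ = ∫⁻ z in ⋃ b : u, closedBall b.1.1 (3 * b.1.2), f z ∂ν := by
        rw [lintegral_iUnion (fun _ => measurableSet_closedBall)]
        intro a b hab
        exact hud a.2 b.2 (fun h => hab (Subtype.ext h))
    _ ≤ ∫⁻ z, f z ∂ν := setLIntegral_le_lintegral _ _

/-- truncated weak type estimate -/
theorem weak_trunc (ν : Measure X) [IsFiniteMeasure ν] (δ : ℝ) {f : X → ℝ≥0∞} (hf : Measurable f)
    {t : ℝ} (ht : 0 < t) :
    ENNReal.ofReal t * ν {y | ENNReal.ofReal t < maxFun ν δ f y} ≤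
      2 * ∫⁻ z in {z | ENNReal.ofReal t < 2 * f z}, f z ∂ν := by
  set s : Set X := {z | ENNReal.ofReal t < 2 * f z} with hs
  have hsm : MeasurableSet s := measurableSet_lt measurable_const (hf.const_mul 2)
  set g : X → ℝ≥0∞ := s.indicator f with hg
  have hgm : Measurable g := hf.indicator hsm
  have h1 : ∀ z, f z ≤ g z + ENNReal.ofReal (t / 2) := by
    intro z
    by_cases hz : z ∈ s
    · rw [hg, indicator_of_mem hz]; exact le_self_add
    · rw [hg, indicator_of_notMem hz, zero_add]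
      have h2 : 2 * f z ≤ ENNReal.ofReal t := not_lt.mp hz
      have h3 : ENNReal.ofReal t = 2 * ENNReal.ofReal (t / 2) := by
        rw [← ENNReal.ofReal_ofNat 2, ← ENNReal.ofReal_mul (by norm_num)]
        congr 1; ring
      rw [h3] at h2
      exact (ENNReal.mul_le_mul_iff_right (by norm_num) (by norm_num)).mp h2
  have h2 : ∀ y, maxFun ν δ f y ≤ maxFun ν δ g y + ENNReal.ofReal (t / 2) := by
    intro y
    conv_lhs => unfold maxFun
    refine iSup_le fun p => iSup_le fun hp => iSup_le fun hpy => ?_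
    have h3 : ∫⁻ z in closedBall p.1 (3 * p.2), f z ∂ν ≤
        (∫⁻ z in closedBall p.1 (3 * p.2), g z ∂ν) +
          ENNReal.ofReal (t / 2) * ν (closedBall p.1 (15 * p.2)) := by
      calc ∫⁻ z in closedBall p.1 (3 * p.2), f z ∂ν
          ≤ ∫⁻ z in closedBall p.1 (3 * p.2), (g z + ENNReal.ofReal (t / 2)) ∂ν := lintegral_mono h1
        _ = (∫⁻ z in closedBall p.1 (3 * p.2), g z ∂ν) +
            ENNReal.ofReal (t / 2) * ν (closedBall p.1 (3 * p.2)) := by
            rw [lintegral_add_left hgm, setLIntegral_const]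
        _ ≤ _ := by
            gcongr
            · exact hp.1.le
            · norm_num
    calc (∫⁻ z in closedBall p.1 (3 * p.2), f z ∂ν) / ν (closedBall p.1 (15 * p.2))
        ≤ ((∫⁻ z in closedBall p.1 (3 * p.2), g z ∂ν) +
          ENNReal.ofReal (t / 2) * ν (closedBall p.1 (15 * p.2))) / ν (closedBall p.1 (15 * p.2)) := by
          gcongr
      _ = (∫⁻ z in closedBall p.1 (3 * p.2), g z ∂ν) / ν (closedBall p.1 (15 * p.2)) +
          ENNReal.ofReal (t / 2) * ν (closedBall p.1 (15 * p.2)) / ν (closedBall p.1 (15 * p.2)) :=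
          ENNReal.add_div
      _ ≤ _ := by
          apply add_le_add (le_maxFun ν g hp.1 hp.2 hpy)
          rw [mul_div_assoc]
          calc _ ≤ ENNReal.ofReal (t / 2) * 1 := by
                gcongr; exact ENNReal.div_self_le_one
            _ = _ := mul_one _
  have h3 : {y | ENNReal.ofReal t < maxFun ν δ f y} ⊆ {y | ENNReal.ofReal (t / 2) < maxFun ν δ g y} := by
    intro y hy
    rw [mem_ofPred_eq] at hy ⊢
    by_contra hc
    push Not at hc
    have h4 : maxFun ν δ f y ≤ ENNReal.ofReal (t / 2) + ENNReal.ofReal (t / 2) :=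
      (h2 y).trans (by gcongr)
    rw [← ENNReal.ofReal_add (by positivity) (by positivity), add_halves] at h4
    exact absurd hy (not_lt.mpr h4)
  have h4 := weak_maxFun ν δ g (ENNReal.ofReal (t / 2))
  have h5 : ∫⁻ z, g z ∂ν = ∫⁻ z in s, f z ∂ν := by rw [hg, lintegral_indicator hsm]
  calc ENNReal.ofReal t * ν {y | ENNReal.ofReal t < maxFun ν δ f y}
      ≤ (2 * ENNReal.ofReal (t / 2)) * ν {y | ENNReal.ofReal (t / 2) < maxFun ν δ g y} := by
        have : ENNReal.ofReal t = 2 * ENNReal.ofReal (t / 2) := by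
          rw [← ENNReal.ofReal_ofNat 2, ← ENNReal.ofReal_mul (by norm_num)]
          congr 1; ring
        exact mul_le_mul' this.le (measure_mono h3)
    _ = 2 * (ENNReal.ofReal (t / 2) * ν {y | ENNReal.ofReal (t / 2) < maxFun ν δ g y}) := by
        rw [mul_assoc]
    _ ≤ 2 * ∫⁻ z in s, f z ∂ν := by gcongr; exact h4.trans h5.le

end Pool.Agent.H22.Recip
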