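import Pool.Agent.H22.Recip.Curves

/-!
# Lipschitz minorants of lower semicontinuous functions
-/

open MeasureTheory Measure Set Metric Filter Topology
open scoped ENNReal NNReal

namespace Pool.Agent.H22.Recip

universe u

variable {X : Type u} [MetricSpace X]

/-- inf-convolution -/
noncomputable def infConv (ρ : X → ℝ≥0∞) (n : ℕ) (x : X) : ℝ :=
  ⨅ y : X, ((min (ρ y) n).toReal + n * dist x y)

theorem infConv_bdd (ρ : X → ℝ≥0∞) (n : ℕ) (x : X) :
    BddBelow (range fun y : X => ((min (ρ y) n).toReal + n * dist x y)) :=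
  ⟨0, by rintro _ ⟨y, rfl⟩; exact add_nonneg ENNReal.toReal_nonneg (by positivity)⟩

theorem infConv_nonneg (ρ : X → ℝ≥0∞) (n : ℕ) (x : X) : 0 ≤ infConv ρ n x :=
  Real.iInf_nonneg fun y => add_nonneg ENNReal.toReal_nonneg (by positivity)

theorem infConv_le (ρ : X → ℝ≥0∞) (n : ℕ) (x : X) : infConv ρ n x ≤ (min (ρ x) n).toReal := by
  have := ciInf_le (infConv_bdd ρ n x) x
  simpa [infConv] using this

theorem infConv_le_nat (ρ : X → ℝ≥0∞) (n : ℕ) (x : X) : infConv ρ n x ≤ n := by
  refine (infConv_le ρ n x).trans ?_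
  have : (min (ρ x) n).toReal ≤ (n : ℝ≥0∞).toReal :=
    ENNReal.toReal_mono (ENNReal.natCast_ne_top n) (min_le_right _ _)
  simpa using this

theorem ofReal_infConv_le (ρ : X → ℝ≥0∞) (n : ℕ) (x : X) : ENNReal.ofReal (infConv ρ n x) ≤ ρ x := by
  refine (ENNReal.ofReal_le_ofReal (infConv_le ρ n x)).trans ?_
  rw [ENNReal.ofReal_toReal (ne_top_of_le_ne_top (ENNReal.natCast_ne_top n) (min_le_right _ _))]
  exact min_le_left _ _

theorem infConv_lip (ρ : X → ℝ≥0∞) (n : ℕ) (x z : X) :
    infConv ρ n x ≤ infConv ρ n z + n * dist x z := by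
  rw [← _root_.sub_le_iff_le_add]
  have : Nonempty X := ⟨x⟩
  refine le_ciInf fun y => ?_
  rw [_root_.sub_le_iff_le_add]
  refine (ciInf_le (infConv_bdd ρ n x) y).trans ?_
  have := dist_triangle x z y
  have h2 : (n : ℝ) * dist x y ≤ n * (dist x z + dist z y) := by gcongr
  linarith

theorem infConv_continuous (ρ : X → ℝ≥0∞) (n : ℕ) : Continuous (infConv ρ n) := by
  have : LipschitzWith n (infConv ρ n) := by
    apply LipschitzWith.of_le_add_mul
    intro x y
    simpa using infConv_lip ρ n x y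
  exact this.continuous

theorem infConv_mono (ρ : X → ℝ≥0∞) (x : X) : Monotone fun n => infConv ρ n x := by
  intro m n hmn
  have : Nonempty X := ⟨x⟩
  refine ciInf_mono (infConv_bdd ρ m x) fun y => ?_
  have h1 : (min (ρ y) m).toReal ≤ (min (ρ y) n).toReal := by
    apply ENNReal.toReal_mono (ne_top_of_le_ne_top (ENNReal.natCast_ne_top n) (min_le_right _ _))
    exact min_le_min le_rfl (by exact_mod_cast hmn)
  have h2 : (m : ℝ) * dist x y ≤ n * dist x y := by gcongr
  exact add_le_add h1 h2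

theorem infConv_iSup {ρ : X → ℝ≥0∞} (hρ : LowerSemicontinuous ρ) (x : X) :
    ⨆ n, ENNReal.ofReal (infConv ρ n x) = ρ x := by
  apply le_antisymm
  · exact iSup_le fun n => ofReal_infConv_le ρ n x
  · refine ENNReal.le_of_forall_nnreal_lt fun lam hlam => ?_
    have h1 := hρ x lam hlam
    rw [Metric.eventually_nhds_iff] at h1
    obtain ⟨r, hr, hr2⟩ := h1
    obtain ⟨n, hn⟩ := exists_nat_ge (max (lam : ℝ) (lam / r))
    have hn1 : (lam : ℝ) ≤ n := le_trans (le_max_left _ _) hn
    have hn2 : (lam : ℝ) / r ≤ n := le_trans (le_max_right _ _) hn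
    have hn3 : (lam : ℝ) ≤ n * r := by rwa [div_le_iff₀ hr] at hn2
    have h2 : (lam : ℝ) ≤ infConv ρ n x := by
      have : Nonempty X := ⟨x⟩
      refine le_ciInf fun y => ?_
      by_cases hy : dist y x < r
      · have h3 := hr2 hy
        have h4 : (lam : ℝ≥0∞) ≤ min (ρ y) n := le_min h3.le (by exact_mod_cast hn1)
        have h5 : (lam : ℝ) ≤ (min (ρ y) n).toReal := by
          have := ENNReal.toReal_mono
            (ne_top_of_le_ne_top (ENNReal.natCast_ne_top n) (min_le_right _ _)) h4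
          simpa using this
        have : 0 ≤ (n : ℝ) * dist x y := by positivity
        linarith
      · push Not at hy
        rw [dist_comm] at hy
        have h6 : (n : ℝ) * r ≤ n * dist x y := by gcongr
        have h7 : 0 ≤ (min (ρ y) n).toReal := ENNReal.toReal_nonneg
        linarith
    refine le_trans ?_ (le_iSup _ n)
    rw [← ENNReal.ofReal_coe_nnreal]
    exact ENNReal.ofReal_le_ofReal h2

end Pool.Agent.H22.Recip
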