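import Pool.Agent.H22.Recip.Minimizer

/-!
# The key estimate on dual curves
-/

open MeasureTheory Measure Set Metric Filter Topology
open scoped ENNReal NNReal

namespace Pool.Agent.H22.Recip

universe u

variable {X : Type u} [MetricSpace X] [MeasurableSpace X] [BorelSpace X]

set_option linter.unusedSectionVars false

theorem Joining.lip {E F S : Set X} {c : ℝ × (ℝ → X)} (hc : c ∈ Joining E F S) :
    LipschitzOnWith 1 c.2 (Icc 0 c.1) := HasUnitSpeedOn.lipschitz hc.2.1

theorem Joining.dist_le {E F S : Set X} {c : ℝ × (ℝ → X)} (hc : c ∈ Joining E F S) {s t : ℝ}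
    (hs : s ∈ Icc 0 c.1) (ht : t ∈ Icc 0 c.1) : dist (c.2 s) (c.2 t) ≤ |s - t| := by
  have := (Joining.lip hc).dist_le_mul s hs t ht
  simpa [Real.dist_eq] using this

/-- the test function built from a cover of a dual curve is admissible -/
theorem admissible_balls (q : Quadrilateral X) {d : ℝ}
    (hd1 : ∀ x ∈ q.arc₁, ∀ y ∈ q.arc₃, d ≤ dist x y)
    {c : ℝ × (ℝ → X)} (hc : c ∈ q.Γstar) (v : Finset ℝ) {r : ℝ → ℝ}
    (hr : ∀ b ∈ v, 0 < r b ∧ r b < d / 10)
    (hcov : c.2 '' Icc 0 c.1 ⊆ ⋃ b ∈ v, ball (c.2 b) (2 * r b)) :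
    Admissible q.Γ (fun x => ∑ b ∈ v, (closedBall (c.2 b) (3 * r b)).indicator
      (fun _ => ENNReal.ofReal (1 / r b)) x) := by
  refine ⟨?_, ?_⟩
  · apply Finset.measurable_fun_sum
    intro b _
    exact measurable_const.indicator measurableSet_closedBall
  · intro c' hc'
    have hγ := Joining.lip hc
    have hγ' := Joining.lip hc'
    obtain ⟨a, ha, b0, hb0, hab⟩ := q.crossing hc'.1 hc.1 hγ'.continuousOn hγ.continuousOn
      hc'.2.2.1 hc.2.2.1 hc'.2.2.2.1 hc'.2.2.2.2 hc.2.2.2.1 hc.2.2.2.2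
    obtain ⟨b, hb, hbb⟩ := mem_iUnion₂.mp (hcov (mem_image_of_mem _ hb0))
    rw [← hab, mem_ball] at hbb
    obtain ⟨hr0, hr1⟩ := hr b hb
    set ρ := r b with hρ
    set z := c.2 b with hz
    have m0 : (0:ℝ) ∈ Icc 0 c'.1 := ⟨le_rfl, hc'.1⟩
    have m1 : c'.1 ∈ Icc 0 c'.1 := ⟨hc'.1, le_rfl⟩
    have hend : 3 * ρ < dist (c'.2 c'.1) z ∨ 3 * ρ < dist (c'.2 0) z := by
      by_contra hcon
      push Not at hcon
      have h1 := hd1 _ hc'.2.2.2.1 _ hc'.2.2.2.2
      have h2 := dist_triangle_right (c'.2 0) (c'.2 c'.1) z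
      linarith [hcon.1, hcon.2]
    -- an interval of length ρ spent in the ball
    have hint : ∃ α, Icc α (α + ρ) ⊆ Icc 0 c'.1 ∧ a ∈ Icc α (α + ρ) := by
      rcases hend with h | h
      · have h1 := Joining.dist_le hc' m1 ha
        rw [abs_of_nonneg (by linarith [ha.2])] at h1
        have h2 := dist_triangle (c'.2 c'.1) (c'.2 a) z
        exact ⟨a, Icc_subset_Icc ha.1 (by linarith), le_rfl, by linarith⟩
      · have h1 := Joining.dist_le hc' ha m0
        rw [sub_zero, abs_of_nonneg ha.1] at h1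
        have h2 := dist_triangle (c'.2 0) (c'.2 a) z
        rw [dist_comm (c'.2 0) (c'.2 a)] at h2
        exact ⟨a - ρ, Icc_subset_Icc (by linarith) (by linarith [ha.2]), by linarith, by linarith⟩
    obtain ⟨α, hα, haα⟩ := hint
    have hin : ∀ t ∈ Icc α (α + ρ), c'.2 t ∈ closedBall z (3 * ρ) := by
      intro t ht
      have h1 := Joining.dist_le hc' (hα ht) ha
      have h2 : |t - a| ≤ ρ := by
        rw [abs_le]; constructor <;> linarith [ht.1, ht.2, haα.1, haα.2]
      have h3 := dist_triangle (c'.2 t) (c'.2 a) z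
      rw [mem_closedBall]; linarith
    calc (1 : ℝ≥0∞) = ∫⁻ _t in Icc α (α + ρ), ENNReal.ofReal (1 / ρ) := by
          rw [setLIntegral_const, Real.volume_Icc, ← ENNReal.ofReal_mul (by positivity)]
          rw [add_sub_cancel_left, one_div_mul_cancel hr0.ne', ENNReal.ofReal_one]
      _ ≤ ∫⁻ t in Icc α (α + ρ), (∑ b ∈ v, (closedBall (c.2 b) (3 * r b)).indicator
            (fun _ => ENNReal.ofReal (1 / r b)) (c'.2 t)) := by
          apply setLIntegral_mono' measurableSet_Icc
          intro t ht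
          have h1 : (closedBall (c.2 b) (3 * r b)).indicator
            (fun _ => ENNReal.ofReal (1 / r b)) (c'.2 t) = ENNReal.ofReal (1 / ρ) :=
            indicator_of_mem (hin t ht) _
          rw [← h1]
          exact Finset.single_le_sum (f := fun b => (closedBall (c.2 b) (3 * r b)).indicator
            (fun _ => ENNReal.ofReal (1 / r b)) (c'.2 t)) (fun _ _ => zero_le) hb
      _ ≤ _ := lintegral_mono_set hα

theorem key_estimate (q : Quadrilateral X) (ν : Measure X) [IsFiniteMeasure ν]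
    {N : Set X} {Mstar : ℝ}
    (hgood : ∀ x ∈ q.carrier, x ∉ N → ∀ δ > 0, ∃ r, 0 < r ∧ r < δ ∧
      ν (closedBall x (15 * r)) ≤ ENNReal.ofReal (Mstar * r ^ 2))
    (hall : ∀ x ∈ q.carrier, ∃ M : ℝ, ∀ δ > 0, ∃ r, 0 < r ∧ r < δ ∧
      ν (closedBall x (15 * r)) ≤ ENNReal.ofReal (M * r ^ 2))
    {f : X → ℝ≥0∞} {m : ℝ≥0∞}
    (hf : Measurable f)
    (hm : ∀ g : X → ℝ≥0∞, Admissible q.Γ g → ∫⁻ x, g x ^ 2 ∂ν ≠ ∞ → m ≤ ∫⁻ x, f x * g x ∂ν)
    {d : ℝ} (hd : 0 < d) (hd1 : ∀ x ∈ q.arc₁, ∀ y ∈ q.arc₃, d ≤ dist x y)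
    (hd2 : ∀ x ∈ q.arc₂, ∀ y ∈ q.arc₄, d ≤ dist x y)
    {c : ℝ × (ℝ → X)} (hc : c ∈ q.Γstar)
    (hnull : volume {s | s ∈ Icc 0 c.1 ∧ c.2 s ∈ N} = 0)
    (hint : ∫⁻ s in Icc 0 c.1, maxFun ν d f (c.2 s) ≠ ∞) :
    m ≤ ENNReal.ofReal (5 * Mstar) * ∫⁻ s in Icc 0 c.1, maxFun ν d f (c.2 s) := by
  set L := c.1 with hL
  set γ := c.2 with hγ
  have hL0 : 0 ≤ L := hc.1
  have hlip := Joining.lip hc
  have hdist : ∀ {s t : ℝ}, s ∈ Icc 0 L → t ∈ Icc 0 L → dist (γ s) (γ t) ≤ |s - t| :=
    fun hs ht => Joining.dist_le hc hs ht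
  have hmaps : MapsTo γ (Icc 0 L) q.carrier := hc.2.2.1
  have hLd : d ≤ L := by
    have h1 := hd2 _ hc.2.2.2.1 _ hc.2.2.2.2
    have h2 := hdist (⟨le_rfl, hL0⟩ : (0:ℝ) ∈ Icc 0 L) (⟨hL0, le_rfl⟩ : L ∈ Icc 0 L)
    rw [zero_sub, abs_neg, abs_of_nonneg hL0] at h2
    exact h1.trans h2
  set G : ℝ → ℝ≥0∞ := fun s => maxFun ν d f (γ s) with hG
  set π : Measure ℝ := (volume.restrict (Icc 0 L)).withDensity G with hπ
  have hπfin : IsFiniteMeasure π := isFiniteMeasure_withDensity hint
  have hπuniv : π univ = ∫⁻ s in Icc 0 L, G s := by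
    rw [hπ, withDensity_apply _ MeasurableSet.univ, Measure.restrict_univ]
  set S : Set ℝ := {s | s ∈ Icc 0 L ∧ γ s ∈ N} with hS
  have hπS : π S = 0 := by
    have h1 : π ≪ volume.restrict (Icc 0 L) := withDensity_absolutelyContinuous _ _
    apply h1
    exact nonpos_iff_eq_zero.mp ((Measure.restrict_le_self S).trans hnull.le)
  -- weights
  set w : ℕ → ℝ := fun k => if k = 0 then Mstar else k with hw
  have hlev : ∀ s ∈ Icc 0 L, ∃ k : ℕ, (k ≠ 0 → s ∈ S) ∧ ∀ δ > 0, ∃ r, 0 < r ∧ r < δ ∧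
      ν (closedBall (γ s) (15 * r)) ≤ ENNReal.ofReal (w k * r ^ 2) := by
    intro s hs
    by_cases hsN : γ s ∈ N
    · obtain ⟨M, hM⟩ := hall (γ s) (hmaps hs)
      refine ⟨⌈M⌉₊ + 1, fun _ => ⟨hs, hsN⟩, fun δ hδ => ?_⟩
      obtain ⟨r, h1, h2, h3⟩ := hM δ hδ
      refine ⟨r, h1, h2, h3.trans (ENNReal.ofReal_le_ofReal ?_)⟩
      have h4 : M ≤ w (⌈M⌉₊ + 1) := by
        simp only [hw, Nat.succ_ne_zero, if_false]
        push_cast
        linarith [Nat.le_ceil M]
      exact mul_le_mul_of_nonneg_right h4 (sq_nonneg r)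
    · refine ⟨0, fun h => absurd rfl h, fun δ hδ => ?_⟩
      simpa [hw] using hgood (γ s) (hmaps hs) hsN δ hδ
  choose! k hkS hk using hlev
  apply ENNReal.le_of_forall_pos_le_add
  intro ε hε _
  have hε' : (ε : ℝ≥0∞) ≠ 0 := by exact_mod_cast hε.ne'
  obtain ⟨e, he0, hesum⟩ := ENNReal.exists_pos_sum_of_countable' hε' ℕ
  have hV : ∀ j : ℕ, ∃ V : Set ℝ, S ⊆ V ∧ IsOpen V ∧ ENNReal.ofReal (5 * w j) * π V ≤ e j := by
    intro j
    set a : ℝ≥0∞ := ENNReal.ofReal (5 * w j) + 1 with ha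
    have ha0 : a ≠ 0 := by simp [ha]
    have hat : a ≠ ∞ := by
      rw [ha]; exact ENNReal.add_ne_top.mpr ⟨ENNReal.ofReal_ne_top, ENNReal.one_ne_top⟩
    have h1 : e j / a ≠ 0 := (ENNReal.div_pos (he0 j).ne' hat).ne'
    obtain ⟨V, hSV, hVo, hVlt⟩ := S.exists_isOpen_lt_add (μ := π) (by rw [hπS]; simp) h1
    rw [hπS, zero_add] at hVlt
    refine ⟨V, hSV, hVo, ?_⟩
    calc ENNReal.ofReal (5 * w j) * π V ≤ a * (e j / a) := by
          gcongr; exact le_self_add
      _ = e j := ENNReal.mul_div_cancel ha0 hat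
  choose V hSV hVo hVe using hV
  set V' : ℕ → Set ℝ := fun j => if j = 0 then univ else V j with hV'
  have hV'o : ∀ j, IsOpen (V' j) := by
    intro j
    simp only [hV']
    split_ifs
    · exact isOpen_univ
    · exact hVo j
  have hV'mem : ∀ s ∈ Icc 0 L, s ∈ V' (k s) := by
    intro s hs
    simp only [hV']
    split_ifs with h
    · exact mem_univ s
    · exact hSV _ (hkS s hs h)
  have hrad : ∀ s ∈ Icc 0 L, ∃ r, 0 < r ∧ r < d / 10 ∧
      ν (closedBall (γ s) (15 * r)) ≤ ENNReal.ofReal (w (k s) * r ^ 2) ∧ ball s (r / 5) ⊆ V' (k s) := by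
    intro s hs
    obtain ⟨δ', hδ', hball⟩ := Metric.isOpen_iff.mp (hV'o (k s)) s (hV'mem s hs)
    obtain ⟨r, h1, h2, h3⟩ := hk s hs (min (d / 10) δ') (by positivity)
    rw [lt_min_iff] at h2
    exact ⟨r, h1, h2.1, h3, (ball_subset_ball (by linarith [h2.2])).trans hball⟩
  choose! r hr0 hrd hrν hrV using hrad
  obtain ⟨u, huI, hud, hucov⟩ := Vitali.exists_disjoint_subfamily_covering_enlargement_closedBall
    (Icc 0 L) γ (fun s => r s / 5) (d / 50) (fun s hs => by linarith [hrd s hs]) 5 (by norm_num)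
  have hcomp : IsCompact (γ '' Icc 0 L) := isCompact_Icc.image_of_continuousOn hlip.continuousOn
  obtain ⟨v, hvu, hvfin, hvcov⟩ := hcomp.elim_finite_subcover_image (b := u)
    (c := fun b => ball (γ b) (2 * r b)) (fun b _ => isOpen_ball) (by
      rintro _ ⟨s, hs, rfl⟩
      obtain ⟨b, hb, hsub⟩ := hucov s hs
      refine mem_iUnion₂.mpr ⟨b, hb, ?_⟩
      have h1 := hsub (mem_closedBall_self (by linarith [hr0 s hs]))
      rw [mem_closedBall] at h1
      rw [mem_ball]
      have := hr0 b (huI hb)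
      linarith)
  set vf := hvfin.toFinset with hvf
  have hvmem : ∀ b ∈ vf, b ∈ u := fun b hb => hvu (hvfin.mem_toFinset.mp hb)
  have hvI : ∀ b ∈ vf, b ∈ Icc 0 L := fun b hb => huI (hvmem b hb)
  have hadm := admissible_balls q hd1 hc vf (r := r)
    (fun b hb => ⟨hr0 b (hvI b hb), hrd b (hvI b hb)⟩) (by
      refine hvcov.trans ?_
      intro x hx
      obtain ⟨b, hb, hxb⟩ := mem_iUnion₂.mp hx
      exact mem_iUnion₂.mpr ⟨b, hvfin.mem_toFinset.mpr hb, hxb⟩)
  set g : X → ℝ≥0∞ := fun x => ∑ b ∈ vf, (closedBall (γ b) (3 * r b)).indicator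
      (fun _ => ENNReal.ofReal (1 / r b)) x with hg
  have hg2 : ∫⁻ x, g x ^ 2 ∂ν ≠ ∞ := by
    set C : ℝ≥0∞ := ∑ b ∈ vf, ENNReal.ofReal (1 / r b) with hC
    have hCt : C ≠ ∞ := by
      rw [hC]; exact ENNReal.sum_ne_top.mpr fun b _ => ENNReal.ofReal_ne_top
    have hle : ∀ x, g x ≤ C := fun x => Finset.sum_le_sum fun b _ => indicator_le_self' (fun _ _ => zero_le) x
    have : ∫⁻ x, g x ^ 2 ∂ν ≤ C ^ 2 * ν univ := by
      rw [← lintegral_const]
      exact lintegral_mono fun x => by gcongr; exact hle x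
    exact ne_top_of_le_ne_top (by finiteness) this
  have hmg := hm g hadm hg2
  -- expand the integral
  have hexp : ∫⁻ x, f x * g x ∂ν = ∑ b ∈ vf, ENNReal.ofReal (1 / r b) *
      ∫⁻ x in closedBall (γ b) (3 * r b), f x ∂ν := by
    simp only [hg, Finset.mul_sum]
    have hmeas : ∀ b ∈ vf, Measurable fun x =>
        f x * (closedBall (γ b) (3 * r b)).indicator (fun _ => ENNReal.ofReal (1 / r b)) x :=
      fun b _ => hf.mul (measurable_const.indicator measurableSet_closedBall)
    rw [lintegral_finsetSum _ hmeas]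
    apply Finset.sum_congr rfl
    intro b _
    have : ∀ x, f x * (closedBall (γ b) (3 * r b)).indicator (fun _ => ENNReal.ofReal (1 / r b)) x =
        (closedBall (γ b) (3 * r b)).indicator (fun x => ENNReal.ofReal (1 / r b) * f x) x := by
      intro x
      by_cases hx : x ∈ closedBall (γ b) (3 * r b)
      · rw [indicator_of_mem hx, indicator_of_mem hx, mul_comm]
      · rw [indicator_of_notMem hx, indicator_of_notMem hx, mul_zero]
    simp_rw [this]
    rw [lintegral_indicator measurableSet_closedBall, lintegral_const_mul' _ _ ENNReal.ofReal_ne_top]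
  set J : ℝ → Set ℝ := fun b => ball b (r b / 5) ∩ Icc 0 L with hJ
  have hJm : ∀ b, MeasurableSet (J b) := fun b => measurableSet_ball.inter measurableSet_Icc
  set Φ : ℝ → ℝ≥0∞ := fun s => ∑' j, (V' j).indicator (fun _ => ENNReal.ofReal (5 * w j)) s with hΦ
  have hterm : ∀ b ∈ vf, ENNReal.ofReal (1 / r b) * ∫⁻ x in closedBall (γ b) (3 * r b), f x ∂ν ≤
      ∫⁻ s in J b, Φ s ∂π := by
    intro b hb
    have hbI := hvI b hb
    have h0 := hr0 b hbI
    have hd' := hrd b hbI
    set A := ∫⁻ x in closedBall (γ b) (3 * r b), f x ∂ν with hA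
    set B := ν (closedBall (γ b) (15 * r b)) with hB
    have hpt : ∀ s ∈ J b, A ≤ G s * ENNReal.ofReal (w (k b) * r b ^ 2) := by
      intro s hs
      have h1 : dist (γ s) (γ b) < r b / 5 := by
        have h2 := hdist hs.2 hbI
        have h3 : |s - b| < r b / 5 := by
          have := hs.1; rwa [mem_ball, Real.dist_eq] at this
        linarith
      have h2 : A / B ≤ G s := le_maxFun ν f h0 (by linarith) h1
      have h3 : A ≤ G s * B := by
        by_cases hB0 : B = 0
        · have : A = 0 := by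
            apply setLIntegral_measure_zero
            refine measure_mono_null (closedBall_subset_closedBall ?_) hB0
            linarith
          rw [this]; exact zero_le
        · rwa [ENNReal.div_le_iff hB0 (measure_ne_top ν _)] at h2
      refine h3.trans ?_
      gcongr
      exact hrν b hbI
    have hvol : ENNReal.ofReal (r b / 5) ≤ volume (J b) := by
      by_cases hcase : b + r b / 5 ≤ L
      · have hsub : Ioo b (b + r b / 5) ⊆ J b := by
          intro s hs
          refine ⟨?_, ?_, ?_⟩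
          · rw [mem_ball, Real.dist_eq, abs_of_nonneg (by linarith [hs.1])]; linarith [hs.2]
          · linarith [hs.1, hbI.1]
          · linarith [hs.2]
        calc ENNReal.ofReal (r b / 5) = volume (Ioo b (b + r b / 5)) := by
              rw [Real.volume_Ioo]; congr 1; ring
          _ ≤ _ := measure_mono hsub
      · push Not at hcase
        have hsub : Ioo (b - r b / 5) b ⊆ J b := by
          intro s hs
          refine ⟨?_, ?_, ?_⟩
          · rw [mem_ball, Real.dist_eq, abs_sub_comm, abs_of_nonneg (by linarith [hs.2])]; linarith [hs.1]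
          · linarith [hs.1, hs.2]
          · linarith [hs.2, hbI.2]
        calc ENNReal.ofReal (r b / 5) = volume (Ioo (b - r b / 5) b) := by
              rw [Real.volume_Ioo]; congr 1; ring
          _ ≤ _ := measure_mono hsub
    have hJI : J b ⊆ Icc 0 L := inter_subset_right
    have hπJ : π (J b) = ∫⁻ s in J b, G s := by
      rw [hπ, withDensity_apply _ (hJm b), Measure.restrict_restrict (hJm b), inter_eq_left.mpr hJI]
    have havg : A * ENNReal.ofReal (r b / 5) ≤ ENNReal.ofReal (w (k b) * r b ^ 2) * π (J b) := by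
      calc A * ENNReal.ofReal (r b / 5) ≤ A * volume (J b) := by gcongr
        _ = ∫⁻ _s in J b, A := by rw [setLIntegral_const]
        _ ≤ ∫⁻ s in J b, G s * ENNReal.ofReal (w (k b) * r b ^ 2) := setLIntegral_mono' (hJm b) hpt
        _ = _ := by rw [lintegral_mul_const' _ _ ENNReal.ofReal_ne_top, mul_comm, hπJ]
    calc ENNReal.ofReal (1 / r b) * A
        = ENNReal.ofReal (5 / r b ^ 2) * (A * ENNReal.ofReal (r b / 5)) := by
          have : ENNReal.ofReal (1 / r b) = ENNReal.ofReal (5 / r b ^ 2) * ENNReal.ofReal (r b / 5) := by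
            rw [← ENNReal.ofReal_mul (by positivity)]
            congr 1; field_simp
          rw [this]; ring
      _ ≤ ENNReal.ofReal (5 / r b ^ 2) * (ENNReal.ofReal (w (k b) * r b ^ 2) * π (J b)) := by gcongr
      _ = ENNReal.ofReal (5 * w (k b)) * π (J b) := by
          rw [← mul_assoc, ← ENNReal.ofReal_mul (by positivity)]
          congr 2; field_simp
      _ = ∫⁻ _s in J b, ENNReal.ofReal (5 * w (k b)) ∂π := by rw [setLIntegral_const]
      _ ≤ ∫⁻ s in J b, Φ s ∂π := by
          apply setLIntegral_mono' (hJm b)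
          intro s hs
          have hsV : s ∈ V' (k b) := hrV b hbI hs.1
          calc ENNReal.ofReal (5 * w (k b)) = (V' (k b)).indicator (fun _ => ENNReal.ofReal (5 * w (k b))) s :=
                (indicator_of_mem hsV (fun _ => ENNReal.ofReal (5 * w (k b)))).symm
            _ ≤ Φ s := ENNReal.le_tsum (f := fun j => (V' j).indicator (fun _ => ENNReal.ofReal (5 * w j)) s) (k b)
  have hJdisj : (vf : Set ℝ).PairwiseDisjoint J := by
    intro b hb b' hb' hne
    have hbd := hud (hvmem b hb) (hvmem b' hb') hne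
    rw [Function.onFun, Set.disjoint_left] at hbd ⊢
    intro s hs hs'
    have h1 : γ s ∈ closedBall (γ b) (r b / 5) := by
      rw [mem_closedBall]
      have h2 := hdist hs.2 (hvI b hb)
      have h3 : |s - b| < r b / 5 := by
        have := hs.1; rwa [mem_ball, Real.dist_eq] at this
      linarith
    have h1' : γ s ∈ closedBall (γ b') (r b' / 5) := by
      rw [mem_closedBall]
      have h2 := hdist hs'.2 (hvI b' hb')
      have h3 : |s - b'| < r b' / 5 := by
        have := hs'.1; rwa [mem_ball, Real.dist_eq] at this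
      linarith
    exact hbd h1 h1'
  have hΦint : ∫⁻ s, Φ s ∂π ≤ ENNReal.ofReal (5 * Mstar) * π univ + ε := by
    have h1 : ∫⁻ s, Φ s ∂π = ∑' j, ENNReal.ofReal (5 * w j) * π (V' j) := by
      simp only [hΦ]
      rw [lintegral_tsum (fun j => (measurable_const.indicator (hV'o j).measurableSet).aemeasurable)]
      congr 1
      ext j
      rw [lintegral_indicator_const (hV'o j).measurableSet]
    rw [h1]
    have h2 : ∀ j, ENNReal.ofReal (5 * w j) * π (V' j) ≤
        (if j = 0 then ENNReal.ofReal (5 * Mstar) * π univ else 0) + e j := by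
      intro j
      by_cases hj : j = 0
      · subst hj
        simp only [hw, hV', if_true]
        exact le_self_add
      · simp only [hj, if_false, zero_add]
        have := hVe j
        simpa [hV', hj] using this
    calc ∑' j, ENNReal.ofReal (5 * w j) * π (V' j)
        ≤ ∑' j, ((if j = 0 then ENNReal.ofReal (5 * Mstar) * π univ else 0) + e j) :=
          ENNReal.tsum_le_tsum h2
      _ = ENNReal.ofReal (5 * Mstar) * π univ + ∑' j, e j := by
          rw [ENNReal.tsum_add, tsum_ite_eq]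
      _ ≤ _ := by gcongr
  calc m ≤ ∑ b ∈ vf, ENNReal.ofReal (1 / r b) * ∫⁻ x in closedBall (γ b) (3 * r b), f x ∂ν := by
        rw [← hexp]; exact hmg
    _ ≤ ∑ b ∈ vf, ∫⁻ s in J b, Φ s ∂π := Finset.sum_le_sum hterm
    _ = ∫⁻ s in ⋃ b ∈ vf, J b, Φ s ∂π := (lintegral_biUnion_finset hJdisj (fun b _ => hJm b) _).symm
    _ ≤ ∫⁻ s, Φ s ∂π := setLIntegral_le_lintegral _ _
    _ ≤ ENNReal.ofReal (5 * Mstar) * π univ + ε := hΦint
    _ = _ := by rw [hπuniv]

end Pool.Agent.H22.Recip
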