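import Pool.Agent.H22.Recip.Density

/-!
# `L²` bound for the maximal function; minimal norm element
-/

open MeasureTheory Measure Set Metric Filter Topology
open scoped ENNReal NNReal

namespace Pool.Agent.H22.Recip

universe u

variable {X : Type u} [MetricSpace X] [MeasurableSpace X] [BorelSpace X]

set_option linter.unusedSectionVars false

theorem sq_layer (a : ℝ≥0∞) :
    a ^ 2 = ∫⁻ t in Ioi (0:ℝ), ({t : ℝ | ENNReal.ofReal t < a}.indicator (fun t => ENNReal.ofReal (2 * t)) t) := by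
  by_cases ha : a = ∞
  · subst ha
    symm
    have h1 : (⊤ : ℝ≥0∞) ^ 2 = ⊤ := by simp
    rw [h1, eq_top_iff]
    calc (⊤ : ℝ≥0∞) = ∫⁻ _t in Ioi (1:ℝ), (2 : ℝ≥0∞) := by
          rw [setLIntegral_const, Real.volume_Ioi]; simp
      _ ≤ ∫⁻ t in Ioi (1:ℝ),
          ({t : ℝ | ENNReal.ofReal t < ⊤}.indicator (fun t => ENNReal.ofReal (2 * t)) t) := by
          apply setLIntegral_mono' measurableSet_Ioi
          intro t ht
          rw [indicator_of_mem (show t ∈ {t : ℝ | ENNReal.ofReal t < ⊤} from ENNReal.ofReal_lt_top)]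
          rw [← ENNReal.ofReal_ofNat 2]
          apply ENNReal.ofReal_le_ofReal
          have : (1:ℝ) < t := ht
          linarith
      _ ≤ _ := lintegral_mono_set (Ioi_subset_Ioi zero_le_one)
  · obtain ⟨A, rfl⟩ : ∃ A : ℝ≥0, a = A := ⟨a.toNNReal, (ENNReal.coe_toNNReal ha).symm⟩
    have h1 : ∀ t : ℝ, 0 < t → (ENNReal.ofReal t < (A : ℝ≥0∞) ↔ t < A) := by
      intro t ht
      rw [← ENNReal.ofReal_coe_nnreal, ENNReal.ofReal_lt_ofReal_iff_of_nonneg ht.le]
    have h2 : ∫⁻ t in Ioi (0:ℝ), ({t : ℝ | ENNReal.ofReal t < A}.indicator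
        (fun t => ENNReal.ofReal (2 * t)) t) =
        ∫⁻ t in Ioi (0:ℝ), ((Iio (A:ℝ)).indicator (fun t => ENNReal.ofReal (2 * t)) t) := by
      apply setLIntegral_congr_fun measurableSet_Ioi
      intro t ht
      by_cases htA : t < A
      · rw [indicator_of_mem (show t ∈ {t : ℝ | ENNReal.ofReal t < A} from (h1 t ht).mpr htA),
          indicator_of_mem (show t ∈ Iio (A:ℝ) from htA)]
      · rw [indicator_of_notMem (show t ∉ {t : ℝ | ENNReal.ofReal t < A} from fun h => htA ((h1 t ht).mp h)),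
          indicator_of_notMem (show t ∉ Iio (A:ℝ) from htA)]
    rw [h2, setLIntegral_indicator measurableSet_Iio, inter_comm, Ioi_inter_Iio]
    have h3 : ∫⁻ t in Ioo (0:ℝ) A, ENNReal.ofReal (2 * t) = ENNReal.ofReal (∫ t in Ioo (0:ℝ) A, 2 * t) := by
      rw [ofReal_integral_eq_lintegral_ofReal]
      · exact ((continuous_const.mul continuous_id).integrableOn_Icc (a := (0:ℝ)) (b := A)).mono_set
          Ioo_subset_Icc_self
      · rw [Filter.EventuallyLE, ae_restrict_iff' measurableSet_Ioo]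
        exact Filter.Eventually.of_forall fun t ht => by
          simp only [Pi.zero_apply]; linarith [ht.1]
    rw [h3, ← integral_Ioc_eq_integral_Ioo, ← intervalIntegral.integral_of_le A.coe_nonneg,
      intervalIntegral.integral_const_mul, integral_id]
    rw [← ENNReal.ofReal_coe_nnreal, ← ENNReal.ofReal_pow A.coe_nonneg]
    congr 1
    ring

theorem vol_lt_le (b : ℝ≥0∞) : volume (Ioi (0:ℝ) ∩ {t : ℝ | ENNReal.ofReal t < b}) ≤ b := by
  by_cases hb : b = ∞
  · rw [hb]; exact le_top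
  · obtain ⟨B, rfl⟩ : ∃ B : ℝ≥0, b = B := ⟨b.toNNReal, (ENNReal.coe_toNNReal hb).symm⟩
    have : Ioi (0:ℝ) ∩ {t : ℝ | ENNReal.ofReal t < B} ⊆ Ioo 0 B := by
      rintro t ⟨ht, ht2⟩
      refine ⟨ht, ?_⟩
      rw [mem_ofPred_eq, ← ENNReal.ofReal_coe_nnreal,
        ENNReal.ofReal_lt_ofReal_iff_of_nonneg (le_of_lt ht)] at ht2
      exact ht2
    refine (measure_mono this).trans ?_
    rw [Real.volume_Ioo, sub_zero, ENNReal.ofReal_coe_nnreal]

/-- strong type (2,2) -/
theorem maxFun_sq (ν : Measure X) [IsFiniteMeasure ν] (δ : ℝ) {f : X → ℝ≥0∞} (hf : Measurable f) :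
    ∫⁻ y, maxFun ν δ f y ^ 2 ∂ν ≤ 8 * ∫⁻ y, f y ^ 2 ∂ν := by
  have hm := measurable_maxFun ν δ f
  set M := maxFun ν δ f with hM
  have e1 : ∫⁻ y, M y ^ 2 ∂ν = ∫⁻ t in Ioi (0:ℝ), ENNReal.ofReal (2 * t) * ν {y | ENNReal.ofReal t < M y} := by
    calc ∫⁻ y, M y ^ 2 ∂ν = ∫⁻ y, (∫⁻ t in Ioi (0:ℝ),
          ({t : ℝ | ENNReal.ofReal t < M y}.indicator (fun t => ENNReal.ofReal (2 * t)) t)) ∂ν :=
          lintegral_congr fun y => sq_layer _
      _ = ∫⁻ t in Ioi (0:ℝ), ∫⁻ y,
          ({t : ℝ | ENNReal.ofReal t < M y}.indicator (fun t => ENNReal.ofReal (2 * t)) t) ∂ν := by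
          apply lintegral_lintegral_swap
          apply Measurable.aemeasurable
          have hset : MeasurableSet {p : X × ℝ | ENNReal.ofReal p.2 < M p.1} :=
            measurableSet_lt (by fun_prop) (hm.comp measurable_fst)
          have : (Function.uncurry fun (y : X) (t : ℝ) =>
              ({t : ℝ | ENNReal.ofReal t < M y}.indicator (fun t => ENNReal.ofReal (2 * t)) t)) =
              {p : X × ℝ | ENNReal.ofReal p.2 < M p.1}.indicator (fun p => ENNReal.ofReal (2 * p.2)) := by
            ext ⟨y, t⟩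
            simp [Function.uncurry, indicator]
          rw [this]
          exact Measurable.indicator (by fun_prop) hset
      _ = _ := by
          apply lintegral_congr
          intro t
          have : ∀ y, ({t : ℝ | ENNReal.ofReal t < M y}.indicator (fun t => ENNReal.ofReal (2 * t)) t) =
              {y : X | ENNReal.ofReal t < M y}.indicator (fun _ => ENNReal.ofReal (2 * t)) y := by
            intro y
            simp [indicator]
          simp_rw [this]
          rw [lintegral_indicator_const (measurableSet_lt measurable_const hm)]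
  have e2 : ∀ t ∈ Ioi (0:ℝ), ENNReal.ofReal (2 * t) * ν {y | ENNReal.ofReal t < M y} ≤
      4 * ∫⁻ z, ({t : ℝ | ENNReal.ofReal t < 2 * f z}.indicator (fun _ => f z) t) ∂ν := by
    intro t ht
    have h1 := weak_trunc ν δ hf ht
    have h2 : ∫⁻ z, ({t : ℝ | ENNReal.ofReal t < 2 * f z}.indicator (fun _ => f z) t) ∂ν =
        ∫⁻ z in {z | ENNReal.ofReal t < 2 * f z}, f z ∂ν := by
      rw [← lintegral_indicator (measurableSet_lt measurable_const (hf.const_mul 2))]
      apply lintegral_congr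
      intro z
      simp [indicator]
    rw [h2, ENNReal.ofReal_mul (by norm_num), ENNReal.ofReal_ofNat, mul_assoc]
    calc 2 * (ENNReal.ofReal t * ν {y | ENNReal.ofReal t < M y})
        ≤ 2 * (2 * ∫⁻ z in {z | ENNReal.ofReal t < 2 * f z}, f z ∂ν) := by gcongr
      _ = 4 * ∫⁻ z in {z | ENNReal.ofReal t < 2 * f z}, f z ∂ν := by
          rw [← mul_assoc]; norm_num
  rw [e1]
  calc ∫⁻ t in Ioi (0:ℝ), ENNReal.ofReal (2 * t) * ν {y | ENNReal.ofReal t < M y}
      ≤ ∫⁻ t in Ioi (0:ℝ), 4 * ∫⁻ z, ({t : ℝ | ENNReal.ofReal t < 2 * f z}.indicator (fun _ => f z) t) ∂ν :=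
        setLIntegral_mono' measurableSet_Ioi e2
    _ = 4 * ∫⁻ t in Ioi (0:ℝ), ∫⁻ z, ({t : ℝ | ENNReal.ofReal t < 2 * f z}.indicator (fun _ => f z) t) ∂ν := by
        rw [lintegral_const_mul' _ _ (by norm_num)]
    _ = 4 * ∫⁻ z, (∫⁻ t in Ioi (0:ℝ), ({t : ℝ | ENNReal.ofReal t < 2 * f z}.indicator (fun _ => f z) t)) ∂ν := by
        congr 1
        apply lintegral_lintegral_swap
        apply Measurable.aemeasurable
        have hset : MeasurableSet {p : ℝ × X | ENNReal.ofReal p.1 < 2 * f p.2} :=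
          measurableSet_lt (by fun_prop) ((hf.comp measurable_snd).const_mul 2)
        have : (Function.uncurry fun (t : ℝ) (z : X) =>
            ({t : ℝ | ENNReal.ofReal t < 2 * f z}.indicator (fun _ => f z) t)) =
            {p : ℝ × X | ENNReal.ofReal p.1 < 2 * f p.2}.indicator (fun p => f p.2) := by
          ext ⟨t, z⟩
          simp [Function.uncurry, indicator]
        rw [this]
        exact Measurable.indicator (by fun_prop) hset
    _ ≤ 4 * ∫⁻ z, 2 * f z ^ 2 ∂ν := by
        gcongr with z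
        have hset : MeasurableSet {t : ℝ | ENNReal.ofReal t < 2 * f z} :=
          measurableSet_lt (by fun_prop) measurable_const
        rw [lintegral_indicator_const hset, Measure.restrict_apply hset, inter_comm]
        calc f z * volume (Ioi (0:ℝ) ∩ {t : ℝ | ENNReal.ofReal t < 2 * f z}) ≤ f z * (2 * f z) := by
              gcongr; exact vol_lt_le _
          _ = 2 * f z ^ 2 := by ring
    _ = 8 * ∫⁻ y, f y ^ 2 ∂ν := by
        rw [lintegral_const_mul' _ _ (by norm_num), ← mul_assoc]; norm_num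

end Pool.Agent.H22.Recip
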