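import Pool.Agent.H22.Recip.Volume

/-!
# The universal lower bound in (R1)
-/

open MeasureTheory Measure Set Metric Filter Topology
open scoped ENNReal NNReal

namespace Pool.Agent.H22.Recip

universe u

variable {X : Type u} [MetricSpace X]

namespace Quadrilateral

variable (q : Quadrilateral X)

theorem isCompact_carrier : IsCompact q.carrier :=
  (isCompact_Icc.prod isCompact_Icc).image_of_continuousOn q.cont

theorem sub1 : (Icc 0 1 ×ˢ {0} : Set (ℝ × ℝ)) ⊆ Icc 0 1 ×ˢ Icc 0 1 :=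
  prod_mono Subset.rfl (by simp)
theorem sub3 : (Icc 0 1 ×ˢ {1} : Set (ℝ × ℝ)) ⊆ Icc 0 1 ×ˢ Icc 0 1 :=
  prod_mono Subset.rfl (by simp)
theorem sub2 : ({1} ×ˢ Icc 0 1 : Set (ℝ × ℝ)) ⊆ Icc 0 1 ×ˢ Icc 0 1 :=
  prod_mono (by simp) Subset.rfl
theorem sub4 : ({0} ×ˢ Icc 0 1 : Set (ℝ × ℝ)) ⊆ Icc 0 1 ×ˢ Icc 0 1 :=
  prod_mono (by simp) Subset.rfl

theorem isCompact_arc₁ : IsCompact q.arc₁ :=
  (isCompact_Icc.prod isCompact_singleton).image_of_continuousOn (q.cont.mono sub1)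
theorem isCompact_arc₂ : IsCompact q.arc₂ :=
  (isCompact_singleton.prod isCompact_Icc).image_of_continuousOn (q.cont.mono sub2)
theorem isCompact_arc₃ : IsCompact q.arc₃ :=
  (isCompact_Icc.prod isCompact_singleton).image_of_continuousOn (q.cont.mono sub3)
theorem isCompact_arc₄ : IsCompact q.arc₄ :=
  (isCompact_singleton.prod isCompact_Icc).image_of_continuousOn (q.cont.mono sub4)

theorem arc₁_sub : q.arc₁ ⊆ q.carrier := image_mono sub1
theorem arc₂_sub : q.arc₂ ⊆ q.carrier := image_mono sub2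
theorem arc₃_sub : q.arc₃ ⊆ q.carrier := image_mono sub3
theorem arc₄_sub : q.arc₄ ⊆ q.carrier := image_mono sub4

theorem disjoint13 : Disjoint q.arc₁ q.arc₃ := by
  rw [Set.disjoint_left]
  rintro _ ⟨p, hp, rfl⟩ ⟨p', hp', h⟩
  have := q.inj (sub3 hp') (sub1 hp) h
  have h1 : p.2 = 0 := hp.2
  have h2 : p'.2 = 1 := hp'.2
  rw [this, h1] at h2
  exact zero_ne_one h2

theorem disjoint24 : Disjoint q.arc₂ q.arc₄ := by
  rw [Set.disjoint_left]
  rintro _ ⟨p, hp, rfl⟩ ⟨p', hp', h⟩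
  have := q.inj (sub4 hp') (sub2 hp) h
  have h1 : p.1 = 1 := hp.1
  have h2 : p'.1 = 0 := hp'.1
  rw [this, h1] at h2
  exact one_ne_zero h2

end Quadrilateral

set_option linter.unusedSectionVars false

variable [MeasurableSpace X] [BorelSpace X]

theorem H2_eq (A : Set X) : H2 X A = ENNReal.ofReal (Real.pi / 4) * μH[2] A := by
  rw [H2, Measure.smul_apply, smul_eq_mul]

theorem H2_lt_top_iff (A : Set X) : H2 X A < ∞ ↔ (μH[2] : Measure X) A < ∞ := by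
  rw [H2_eq]
  have hpos : ENNReal.ofReal (Real.pi / 4) ≠ 0 := (ENNReal.ofReal_pos.mpr (by positivity)).ne'
  constructor
  · intro h
    exact ENNReal.lt_top_of_mul_ne_top_right h.ne hpos
  · intro h
    exact ENNReal.mul_lt_top ENNReal.ofReal_lt_top h

/-- finiteness of the modulus -/
theorem exists_admissible_bdd {E F K : Set X} (hK : IsCompact K) (hE : IsCompact E) (hF : IsClosed F)
    (hdisj : Disjoint E F) : ∃ M : ℝ≥0, Admissible (Joining E F K) (K.indicator fun _ => (M : ℝ≥0∞)) := by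
  obtain ⟨d, hd, hdE⟩ := Metric.exists_pos_forall_lt_edist hE hF hdisj
  refine ⟨d⁻¹, measurable_const.indicator hK.isClosed.measurableSet, ?_⟩
  rintro ⟨L, γ⟩ ⟨hL, hγ, hm, h0, h1⟩
  simp only at hL hγ hm h0 h1 ⊢
  have hlip := HasUnitSpeedOn.lipschitz hγ
  have h2 : ∫⁻ s in Icc 0 L, K.indicator (fun _ => ((d⁻¹ : ℝ≥0) : ℝ≥0∞)) (γ s) =
      ∫⁻ _s in Icc 0 L, ((d⁻¹ : ℝ≥0) : ℝ≥0∞) :=
    setLIntegral_congr_fun measurableSet_Icc fun s hs => by rw [indicator_of_mem (hm hs)]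
  rw [h2, setLIntegral_const, Real.volume_Icc, sub_zero]
  have h3 : edist (γ 0) (γ L) ≤ ENNReal.ofReal L := by
    have := hlip (⟨le_rfl, hL⟩ : (0:ℝ) ∈ Icc 0 L) (⟨hL, le_rfl⟩ : L ∈ Icc 0 L)
    have h0L : edist (0:ℝ) L = ENNReal.ofReal L := by
      rw [edist_comm, edist_dist, Real.dist_eq, sub_zero, abs_of_nonneg hL]
    rw [ENNReal.coe_one, one_mul, h0L] at this
    exact this
  have h4 : (d : ℝ≥0∞) ≤ ENNReal.ofReal L := (hdE _ h0 _ h1).le.trans h3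
  have h5 : ((d⁻¹ : ℝ≥0) : ℝ≥0∞) * d = 1 := by
    rw [← ENNReal.coe_mul, inv_mul_cancel₀ hd.ne', ENNReal.coe_one]
  rw [← h5]
  gcongr

theorem lintegral_indicator_sq {K : Set X} (hK : MeasurableSet K) (M : ℝ≥0∞) (μ : Measure X) :
    ∫⁻ x, (K.indicator (fun _ => M) x) ^ 2 ∂μ = M ^ 2 * μ K := by
  have : ∀ x, (K.indicator (fun _ => M) x) ^ 2 = K.indicator (fun _ => M ^ 2) x := by
    intro x
    by_cases hx : x ∈ K
    · rw [indicator_of_mem hx, indicator_of_mem hx]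
    · rw [indicator_of_notMem hx, indicator_of_notMem hx]; simp
  simp_rw [this]
  rw [lintegral_indicator_const hK]

theorem Mod2_lt_top {E F K : Set X} (hK : IsCompact K) (hE : IsCompact E) (hF : IsClosed F)
    (hdisj : Disjoint E F) (hfin : H2 X K < ∞) : Mod2 (Joining E F K) < ∞ := by
  obtain ⟨M, hM⟩ := exists_admissible_bdd hK hE hF hdisj
  refine lt_of_le_of_lt (iInf₂_le _ hM) ?_
  rw [lintegral_indicator_sq hK.isClosed.measurableSet]
  exact ENNReal.mul_lt_top (by simp) hfin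

theorem mul_limit {A B c : ℝ≥0∞} (hA : A ≠ ∞) (hB : B ≠ ∞)
    (h : ∀ ε : ℝ≥0∞, ε ≠ 0 → c ≤ (A + ε) * (B + ε)) : c ≤ A * B := by
  have h1 : Tendsto (fun n : ℕ => (n : ℝ≥0∞)⁻¹) atTop (𝓝 0) := ENNReal.tendsto_inv_nat_nhds_zero
  have h2 : Tendsto (fun n : ℕ => (A + (n : ℝ≥0∞)⁻¹) * (B + (n : ℝ≥0∞)⁻¹)) atTop (𝓝 (A * B)) := by
    have hA' : Tendsto (fun n : ℕ => A + (n : ℝ≥0∞)⁻¹) atTop (𝓝 A) := by
      simpa using (tendsto_const_nhds (x := A)).add h1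
    have hB' : Tendsto (fun n : ℕ => B + (n : ℝ≥0∞)⁻¹) atTop (𝓝 B) := by
      simpa using (tendsto_const_nhds (x := B)).add h1
    exact ENNReal.Tendsto.mul hA' (Or.inr hB) hB' (Or.inr hA)
  exact ge_of_tendsto h2 (Filter.Eventually.of_forall fun n =>
    h _ (ENNReal.inv_ne_zero.mpr (ENNReal.natCast_ne_top n)))

/-- Cauchy–Schwarz -/
theorem cauchy_schwarz (μ : Measure X) {f g : X → ℝ≥0∞} (hf : AEMeasurable f μ) (hg : AEMeasurable g μ) :
    (∫⁻ x, f x * g x ∂μ) ^ 2 ≤ (∫⁻ x, f x ^ 2 ∂μ) * ∫⁻ x, g x ^ 2 ∂μ := by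
  have h := ENNReal.lintegral_mul_le_Lp_mul_Lq μ (p := 2) (q := 2)
    (by rw [Real.holderConjugate_iff]; norm_num) hf hg
  have e1 : ∀ y : ℝ≥0∞, (y ^ (1 / (2:ℝ))) ^ 2 = y := by
    intro y
    rw [← ENNReal.rpow_natCast, ← ENNReal.rpow_mul]; norm_num
  calc (∫⁻ x, f x * g x ∂μ) ^ 2
      ≤ ((∫⁻ a, f a ^ (2:ℝ) ∂μ) ^ (1 / (2:ℝ)) * (∫⁻ a, g a ^ (2:ℝ) ∂μ) ^ (1 / (2:ℝ))) ^ 2 := by
        gcongr; exact h
    _ = (∫⁻ x, f x ^ (2:ℝ) ∂μ) * ∫⁻ x, g x ^ (2:ℝ) ∂μ := by rw [mul_pow, e1, e1]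
    _ = _ := by simp only [ENNReal.rpow_ofNat]

theorem le_one_add_sq (y : ℝ≥0∞) : y ≤ 1 + y ^ 2 := by
  rcases le_total y 1 with h | h
  · exact h.trans le_self_add
  · calc y = y * 1 := (mul_one y).symm
      _ ≤ y * y := by gcongr
      _ = y ^ 2 := (sq y).symm
      _ ≤ 1 + y ^ 2 := le_add_self

/-- lower bound, semicontinuous case -/
theorem lower_lsc (q : Quadrilateral X) (hfin : (μH[2] : Measure X) q.carrier < ∞)
    {ρ σ : X → ℝ≥0∞} (hρ : LowerSemicontinuous ρ) (hσ : LowerSemicontinuous σ)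
    (hρa : Admissible q.Γ ρ) (hσa : Admissible q.Γstar σ)
    (hρ2 : ∫⁻ x in q.carrier, ρ x ^ 2 ∂(μH[2] : Measure X) < ∞)
    (hσ2 : ∫⁻ x in q.carrier, σ x ^ 2 ∂(μH[2] : Measure X) < ∞) :
    1 ≤ ∫⁻ x in q.carrier, ρ x * σ x ∂(μH[2] : Measure X) := by
  set K := q.carrier with hK
  have hKc : IsCompact K := q.isCompact_carrier
  set ν : Measure X := (μH[2] : Measure X).restrict K with hν
  have hνfin : ν univ < ∞ := by rwa [hν, Measure.restrict_apply_univ]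
  have hρm : Measurable ρ := hρa.1
  have hσm : Measurable σ := hσa.1
  set I := ∫⁻ x, ρ x * σ x ∂ν with hI
  set J := ∫⁻ x, (ρ x + σ x) ∂ν with hJ
  have hJfin : J < ∞ := by
    have h1 : J ≤ ∫⁻ x, ((1 + ρ x ^ 2) + (1 + σ x ^ 2)) ∂ν :=
      lintegral_mono fun x => add_le_add (le_one_add_sq _) (le_one_add_sq _)
    refine lt_of_le_of_lt h1 ?_
    rw [lintegral_add_left (by fun_prop), lintegral_add_left (by fun_prop), lintegral_add_left (by fun_prop)]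
    simp only [lintegral_const, one_mul]
    have := hρ2.ne
    have := hσ2.ne
    have := hνfin.ne
    finiteness
  have hmain : ∀ δ : ℝ, 0 < δ → δ < 1 → ENNReal.ofReal ((1 - δ) ^ 2) ≤
      I + ENNReal.ofReal (2 * δ) * J + ENNReal.ofReal (2 * δ) ^ 2 * ν univ := by
    intro δ hδ hδ1
    obtain ⟨n1, ε1, hε1, hc1⟩ := chain_limit hKc q.isCompact_arc₁.isClosed q.isCompact_arc₃.isClosed
      hρ hρa hδ hδ
    obtain ⟨n2, ε2, hε2, hc2⟩ := chain_limit hKc q.isCompact_arc₂.isClosed q.isCompact_arc₄.isClosed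
      hσ hσa hδ hδ
    set a : X → ℝ := fun z => infConv ρ n1 z + δ with ha
    set b : X → ℝ := fun z => infConv σ n2 z + δ with hb
    have ha0 : ∀ x, 0 ≤ a x := fun x => add_nonneg (infConv_nonneg _ _ _) hδ.le
    have hb0 : ∀ x, 0 ≤ b x := fun x => add_nonneg (infConv_nonneg _ _ _) hδ.le
    set f := pot K q.arc₁ ε1 a with hf
    set g := pot K q.arc₂ ε2 b with hg
    have hfc : ContinuousOn f K := pot_continuousOn hε1 ha0 (M := n1 + δ)
      (fun x => by have := infConv_le_nat ρ n1 x; simp only [ha]; linarith)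
    have hgc : ContinuousOn g K := pot_continuousOn hε2 hb0 (M := n2 + δ)
      (fun x => by have := infConv_le_nat σ n2 x; simp only [hb]; linarith)
    have hvol := vol_image_le hKc (f := f) (g := g) (a := a) (b := b) (ε := min ε1 ε2) (η := δ)
      (by positivity) hδ ((infConv_continuous ρ n1).add continuous_const)
      ((infConv_continuous σ n2).add continuous_const) ha0 hb0
      (fun x hx y hy hxy => pot_lip ha0 hx hy (hxy.trans (min_le_left _ _)))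
      (fun x hx y hy hxy => pot_lip hb0 hx hy (hxy.trans (min_le_right _ _)))
    have hsub : (Icc 0 (1 - δ) ×ˢ Icc 0 (1 - δ) : Set (ℝ × ℝ)) ⊆ (fun x => (f x, g x)) '' K := by
      rintro ⟨s, t⟩ ⟨hs, ht⟩
      obtain ⟨x, hx, h1, h2⟩ := q.surj hfc hgc (A := 1 - δ) (B := 1 - δ)
        (fun x hx => pot_eq_zero ha0 hx (q.arc₁_sub hx))
        (fun x hx => pot_ge hδ.le (fun N y hy => hc1 x hx N y hy))
        (fun x hx => pot_eq_zero hb0 hx (q.arc₂_sub hx))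
        (fun x hx => pot_ge hδ.le (fun N y hy => hc2 x hx N y hy)) hs ht
      exact ⟨x, hx, by simp [h1, h2]⟩
    have hv1 : volume (Icc 0 (1 - δ) ×ˢ Icc 0 (1 - δ) : Set (ℝ × ℝ)) = ENNReal.ofReal ((1 - δ) ^ 2) := by
      rw [Measure.volume_eq_prod, Measure.prod_prod, Real.volume_Icc, sub_zero,
        ← ENNReal.ofReal_mul (by linarith), sq]
    rw [← hv1]
    refine (measure_mono hsub).trans (hvol.trans ?_)
    calc ∫⁻ x in K, ENNReal.ofReal ((a x + δ) * (b x + δ)) ∂(μH[2] : Measure X)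
        ≤ ∫⁻ x, (ρ x + ENNReal.ofReal (2 * δ)) * (σ x + ENNReal.ofReal (2 * δ)) ∂ν := by
          apply lintegral_mono
          intro x
          simp only
          have h1 : ENNReal.ofReal (a x + δ) ≤ ρ x + ENNReal.ofReal (2 * δ) := by
            have : a x + δ = infConv ρ n1 x + 2 * δ := by simp only [ha]; ring
            rw [this, ENNReal.ofReal_add (infConv_nonneg _ _ _) (by linarith)]
            gcongr; exact ofReal_infConv_le _ _ _
          have h2 : ENNReal.ofReal (b x + δ) ≤ σ x + ENNReal.ofReal (2 * δ) := by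
            have : b x + δ = infConv σ n2 x + 2 * δ := by simp only [hb]; ring
            rw [this, ENNReal.ofReal_add (infConv_nonneg _ _ _) (by linarith)]
            gcongr; exact ofReal_infConv_le _ _ _
          rw [ENNReal.ofReal_mul (by linarith [ha0 x])]
          exact mul_le_mul' h1 h2
      _ = ∫⁻ x, (ρ x * σ x + ENNReal.ofReal (2 * δ) * (ρ x + σ x) + ENNReal.ofReal (2 * δ) ^ 2) ∂ν := by
          apply lintegral_congr
          intro x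
          ring
      _ = I + ENNReal.ofReal (2 * δ) * J + ENNReal.ofReal (2 * δ) ^ 2 * ν univ := by
          rw [lintegral_add_right _ measurable_const, lintegral_add_left (by fun_prop),
            lintegral_const_mul _ (by fun_prop), lintegral_const]
  by_contra hlt
  push Not at hlt
  have hIfin : I ≠ ∞ := (hlt.trans ENNReal.one_lt_top).ne
  have hI1 : I.toReal < 1 := by
    have := (ENNReal.toReal_lt_toReal hIfin ENNReal.one_ne_top).mpr hlt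
    simpa using this
  have hreal : ∀ δ : ℝ, 0 < δ → δ < 1 → (1 - δ) ^ 2 ≤ I.toReal + 2 * δ * J.toReal
      + (2 * δ) ^ 2 * (ν univ).toReal := by
    intro δ hδ hδ1
    have h1 := hmain δ hδ hδ1
    have hJ' := hJfin.ne
    have hν' := hνfin.ne
    have h2 : I + ENNReal.ofReal (2 * δ) * J + ENNReal.ofReal (2 * δ) ^ 2 * ν univ =
        ENNReal.ofReal (I.toReal + 2 * δ * J.toReal + (2 * δ) ^ 2 * (ν univ).toReal) := by
      rw [ENNReal.ofReal_add (by positivity) (by positivity),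
        ENNReal.ofReal_add (by positivity) (by positivity), ENNReal.ofReal_toReal hIfin,
        ENNReal.ofReal_mul (p := 2 * δ) (by positivity), ENNReal.ofReal_toReal hJ',
        ENNReal.ofReal_mul (p := (2 * δ) ^ 2) (by positivity), ENNReal.ofReal_toReal hν',
        ENNReal.ofReal_pow (by positivity)]
    rw [h2] at h1
    exact (ENNReal.ofReal_le_ofReal_iff (by positivity)).mp h1
  have hlimit : (1:ℝ) ≤ I.toReal := by
    have t1 : Tendsto (fun n : ℕ => (1:ℝ) / ((n:ℝ) + 1)) atTop (𝓝 0) :=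
      tendsto_one_div_add_atTop_nhds_zero_nat
    have t1' : Tendsto (fun n : ℕ => (1:ℝ) / (((n + 1 : ℕ):ℝ) + 1)) atTop (𝓝 0) :=
      t1.comp (tendsto_add_atTop_nat 1)
    have tl : Tendsto (fun n : ℕ => (1 - (1:ℝ) / (((n + 1 : ℕ):ℝ) + 1)) ^ 2) atTop (𝓝 ((1 - 0) ^ 2)) :=
      (tendsto_const_nhds.sub t1').pow 2
    have tr : Tendsto (fun n : ℕ => I.toReal + 2 * ((1:ℝ) / (((n + 1 : ℕ):ℝ) + 1)) * J.toReal
        + (2 * ((1:ℝ) / (((n + 1 : ℕ):ℝ) + 1))) ^ 2 * (ν univ).toReal) atTop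
        (𝓝 (I.toReal + 2 * 0 * J.toReal + (2 * 0) ^ 2 * (ν univ).toReal)) :=
      (tendsto_const_nhds.add ((t1'.const_mul 2).mul_const _)).add (((t1'.const_mul 2).pow 2).mul_const _)
    have := le_of_tendsto_of_tendsto' tl tr (fun n => hreal _ (by positivity) (by
      rw [div_lt_one (by positivity)]; push_cast; linarith [(Nat.cast_nonneg n : (0:ℝ) ≤ n)]))
    simpa using this
  linarith

/-- lsc regularisation -/
theorem exists_lsc {Γ : Set (ℝ × (ℝ → X))} {K : Set X} (hfin : (μH[2] : Measure X) K < ∞)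
    {ρ : X → ℝ≥0∞} (hρ : Admissible Γ ρ) {ε : ℝ≥0∞} (hε : ε ≠ 0) :
    ∃ ρ' : X → ℝ≥0∞, LowerSemicontinuous ρ' ∧ Admissible Γ ρ' ∧
      ∫⁻ x in K, ρ' x ^ 2 ∂(μH[2] : Measure X) ≤ ∫⁻ x in K, ρ x ^ 2 ∂(μH[2] : Measure X) + ε := by
  have : IsFiniteMeasure ((μH[2] : Measure X).restrict K) :=
    ⟨by rwa [Measure.restrict_apply_univ]⟩
  obtain ⟨g, hg1, hg2, hg3⟩ := exists_le_lowerSemicontinuous_lintegral_ge
    ((μH[2] : Measure X).restrict K) (fun x => ρ x ^ 2) (hρ.1.pow_const 2) hε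
  have hmono : Monotone (fun y : ℝ≥0∞ => y ^ (1 / (2:ℝ))) := ENNReal.monotone_rpow_of_nonneg (by norm_num)
  have e1 : ∀ y : ℝ≥0∞, (y ^ (1 / (2:ℝ))) ^ 2 = y := by
    intro y
    rw [← ENNReal.rpow_natCast, ← ENNReal.rpow_mul]; norm_num
  have e2 : ∀ y : ℝ≥0∞, (y ^ 2) ^ (1 / (2:ℝ)) = y := by
    intro y
    rw [← ENNReal.rpow_natCast, ← ENNReal.rpow_mul]; norm_num
  have hlsc : LowerSemicontinuous (fun x => g x ^ (1 / (2:ℝ))) :=
    ENNReal.continuous_rpow_const.comp_lowerSemicontinuous hg2 hmono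
  refine ⟨fun x => g x ^ (1 / (2:ℝ)), hlsc, ⟨hlsc.measurable, fun c hc => ?_⟩, ?_⟩
  · refine (hρ.2 c hc).trans (lintegral_mono fun s => ?_)
    have := hmono (hg1 (c.2 s))
    simp only [e2] at this
    exact this
  · simp_rw [e1]
    exact hg3

/-- The universal lower bound. -/
theorem lower_bound (q : Quadrilateral X) (hfin : H2 X q.carrier < ∞) :
    ENNReal.ofReal ((Real.pi / 4) ^ 2) ≤ Mod2 q.Γ * Mod2 q.Γstar := by
  have hfin' := (H2_lt_top_iff _).mp hfin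
  set K := q.carrier with hK
  set ν : Measure X := (μH[2] : Measure X).restrict K with hν
  set p : ℝ≥0∞ := ENNReal.ofReal (Real.pi / 4) with hp
  have hppos : 0 < p := ENNReal.ofReal_pos.mpr (by positivity)
  -- the basic inequality
  have hbasic : ∀ ρ σ : X → ℝ≥0∞, Admissible q.Γ ρ → Admissible q.Γstar σ →
      ∫⁻ x, ρ x ^ 2 ∂ν ≠ ∞ → ∫⁻ x, σ x ^ 2 ∂ν ≠ ∞ →
      1 ≤ (∫⁻ x, ρ x ^ 2 ∂ν) * ∫⁻ x, σ x ^ 2 ∂ν := by
    intro ρ σ hρ hσ h1 h2
    apply mul_limit h1 h2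
    intro ε hε
    wlog hεt : ε ≠ ∞ generalizing ε
    · push Not at hεt
      subst hεt
      simp
    obtain ⟨ρ', hρ1, hρ2, hρ3⟩ := exists_lsc hfin' hρ hε
    obtain ⟨σ', hσ1, hσ2, hσ3⟩ := exists_lsc hfin' hσ hε
    have hρf : ∫⁻ x in K, ρ' x ^ 2 ∂(μH[2] : Measure X) < ∞ :=
      lt_of_le_of_lt hρ3 (ENNReal.add_lt_top.mpr ⟨lt_top_iff_ne_top.mpr h1, lt_top_iff_ne_top.mpr hεt⟩)
    have hσf : ∫⁻ x in K, σ' x ^ 2 ∂(μH[2] : Measure X) < ∞ :=
      lt_of_le_of_lt hσ3 (ENNReal.add_lt_top.mpr ⟨lt_top_iff_ne_top.mpr h2, lt_top_iff_ne_top.mpr hεt⟩)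
    have h3 := lower_lsc q hfin' hρ1 hσ1 hρ2 hσ2 hρf hσf
    have h4 := cauchy_schwarz ν hρ2.1.aemeasurable hσ2.1.aemeasurable
    calc (1 : ℝ≥0∞) = 1 ^ 2 := by norm_num
      _ ≤ (∫⁻ x, ρ' x * σ' x ∂ν) ^ 2 := by gcongr
      _ ≤ (∫⁻ x, ρ' x ^ 2 ∂ν) * ∫⁻ x, σ' x ^ 2 ∂ν := h4
      _ ≤ _ := mul_le_mul' hρ3 hσ3
  have hH2 : ∀ ρ : X → ℝ≥0∞, p * ∫⁻ x, ρ x ^ 2 ∂ν ≤ ∫⁻ x, ρ x ^ 2 ∂(H2 X) := by
    intro ρ
    rw [H2, lintegral_smul_measure, smul_eq_mul]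
    gcongr
    exact Measure.restrict_le_self
  have hbasic2 : ∀ ρ σ : X → ℝ≥0∞, Admissible q.Γ ρ → Admissible q.Γstar σ →
      ∫⁻ x, ρ x ^ 2 ∂(H2 X) ≠ ∞ → ∫⁻ x, σ x ^ 2 ∂(H2 X) ≠ ∞ →
      p ^ 2 ≤ (∫⁻ x, ρ x ^ 2 ∂(H2 X)) * ∫⁻ x, σ x ^ 2 ∂(H2 X) := by
    intro ρ σ hρ hσ h1 h2
    have f1 : ∫⁻ x, ρ x ^ 2 ∂ν ≠ ∞ := fun h => by
      have := hH2 ρ
      rw [h, ENNReal.mul_top hppos.ne'] at this
      exact h1 (top_le_iff.mp this)
    have f2 : ∫⁻ x, σ x ^ 2 ∂ν ≠ ∞ := fun h => by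
      have := hH2 σ
      rw [h, ENNReal.mul_top hppos.ne'] at this
      exact h2 (top_le_iff.mp this)
    calc p ^ 2 = p ^ 2 * 1 := (mul_one _).symm
      _ ≤ p ^ 2 * ((∫⁻ x, ρ x ^ 2 ∂ν) * ∫⁻ x, σ x ^ 2 ∂ν) := by gcongr; exact hbasic ρ σ hρ hσ f1 f2
      _ = (p * ∫⁻ x, ρ x ^ 2 ∂ν) * (p * ∫⁻ x, σ x ^ 2 ∂ν) := by ring
      _ ≤ _ := mul_le_mul' (hH2 ρ) (hH2 σ)
  have hp2 : ENNReal.ofReal ((Real.pi / 4) ^ 2) = p ^ 2 := by
    rw [hp, ENNReal.ofReal_pow (by positivity)]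
  rw [hp2]
  have hα : Mod2 q.Γ < ∞ := Mod2_lt_top q.isCompact_carrier q.isCompact_arc₁
    q.isCompact_arc₃.isClosed q.disjoint13 hfin
  have hβ : Mod2 q.Γstar < ∞ := Mod2_lt_top q.isCompact_carrier q.isCompact_arc₂
    q.isCompact_arc₄.isClosed q.disjoint24 hfin
  apply mul_limit hα.ne hβ.ne
  intro ε hε
  wlog hεt : ε ≠ ∞ generalizing ε
  · push Not at hεt
    subst hεt
    simp
  have h1 : Mod2 q.Γ < Mod2 q.Γ + ε := ENNReal.lt_add_right hα.ne hε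
  have h2 : Mod2 q.Γstar < Mod2 q.Γstar + ε := ENNReal.lt_add_right hβ.ne hε
  obtain ⟨ρ, hρ, h3⟩ : ∃ ρ, Admissible q.Γ ρ ∧ ∫⁻ x, ρ x ^ 2 ∂(H2 X) < Mod2 q.Γ + ε := by
    simpa [Mod2, iInf_lt_iff] using h1
  obtain ⟨σ, hσ, h4⟩ : ∃ σ, Admissible q.Γstar σ ∧ ∫⁻ x, σ x ^ 2 ∂(H2 X) < Mod2 q.Γstar + ε := by
    simpa [Mod2, iInf_lt_iff] using h2
  refine (hbasic2 ρ σ hρ hσ ?_ ?_).trans (mul_le_mul' h3.le h4.le)
  · exact (h3.trans_le le_top).ne
  · exact (h4.trans_le le_top).ne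

end Pool.Agent.H22.Recip
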