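import Pool.Agent.H22.Recip.Curves

/-!
# Condition (3) implies (R2)
-/

open MeasureTheory Measure Set Metric Filter Topology
open scoped ENNReal NNReal

namespace Pool.Agent.H22.Recip

universe u

variable {X : Type u} [MetricSpace X] [MeasurableSpace X] [BorelSpace X]

theorem Cond3.exists_scale (h : Cond3 X) (a : X) : ∃ C : ℝ, 0 < C ∧ ∀ ε > 0, ∃ r, 0 < r ∧ r < ε ∧
    H2 X (ball a r) ≤ ENNReal.ofReal (C * r ^ 2) := by
  obtain ⟨C, hC1, hC2⟩ := ENNReal.lt_iff_exists_nnreal_btwn.mp (h a)
  have hC3 : (0 : ℝ) < C := by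
    have : (0:ℝ≥0∞) < C := lt_of_le_of_lt zero_le hC1
    exact_mod_cast this
  refine ⟨C * Real.pi, by positivity, fun ε hε => ?_⟩
  have hfreq := Filter.frequently_lt_of_liminf_lt (by isBoundedDefault) hC1
  have hev : ∀ᶠ r : ℝ in 𝓝[>] 0, 0 < r ∧ r < ε := by
    filter_upwards [self_mem_nhdsWithin, nhdsWithin_le_nhds (Iio_mem_nhds hε)] with r h1 h2
    exact ⟨h1, h2⟩
  obtain ⟨r, h1, h2, h3⟩ := (hfreq.and_eventually hev).exists
  refine ⟨r, h2, h3, ?_⟩
  have hpos : 0 < Real.pi * r ^ 2 := by positivity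
  have h4 : H2 X (ball a r) ≤ C * ENNReal.ofReal (Real.pi * r ^ 2) := by
    rw [ENNReal.div_lt_iff (Or.inl (ENNReal.ofReal_pos.mpr hpos).ne') (Or.inl ENNReal.ofReal_ne_top)] at h1
    exact h1.le
  refine h4.trans (le_of_eq ?_)
  rw [mul_assoc, ENNReal.ofReal_mul C.coe_nonneg, ENNReal.ofReal_coe_nnreal]

/-- a decreasing sequence of good scales -/
theorem exists_scales {P : ℝ → Prop} (hP : ∀ ε > 0, ∃ r, 0 < r ∧ r < ε ∧ P r) {R : ℝ} (hR : 0 < R) :
    ∃ t : ℕ → ℝ, (∀ k, 0 < t k ∧ P (t k)) ∧ t 0 < R ∧ ∀ k, t (k + 1) < t k / 2 := by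
  choose! f hf1 hf2 hf3 using hP
  let t : ℕ → ℝ := fun k => Nat.rec (f R) (fun _ s => f (s / 2)) k
  have h1 : ∀ k, 0 < t k ∧ P (t k) := by
    intro k
    induction k with
    | zero => exact ⟨hf1 R hR, hf3 R hR⟩
    | succ k ih => exact ⟨hf1 (t k / 2) (by linarith [ih.1]), hf3 (t k / 2) (by linarith [ih.1])⟩
  exact ⟨t, h1, hf2 R hR, fun k => hf2 (t k / 2) (by linarith [(h1 k).1])⟩

theorem R2_of_Cond3 (h : Cond3 X) : R2 X := by
  intro a R hR
  obtain ⟨C, hC, hsc⟩ := h.exists_scale a
  obtain ⟨t, ht, ht0, htk⟩ := exists_scales hsc hR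
  have hanti : ∀ j k, j < k → t k < t j / 2 := by
    intro j k hjk
    induction k with
    | zero => omega
    | succ k ih =>
      rcases Nat.lt_or_ge j k with h1 | h1
      · have := ih h1; have := htk k; have := (ht k).1; linarith
      · have : j = k := by omega
        subst this; exact htk j
  rw [ENNReal.tendsto_nhds_zero]
  intro ε hε
  obtain ⟨n, hn⟩ : ∃ n : ℕ, ENNReal.ofReal (4 * C / ((n + 1 : ℕ) : ℝ)) ≤ ε := by
    have h1 : Tendsto (fun n : ℕ => ENNReal.ofReal (4 * C / ((n + 1 : ℕ) : ℝ))) atTop (𝓝 0) := by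
      rw [← ENNReal.ofReal_zero]
      apply ENNReal.tendsto_ofReal
      exact (tendsto_const_div_atTop_nhds_zero_nat (4 * C)).comp (tendsto_add_atTop_nat 1)
    exact ((ENNReal.tendsto_nhds_zero.mp h1) ε hε).exists
  set N := n + 1 with hN
  have hNpos : (0 : ℝ) < (N : ℝ) := by positivity
  have hev : ∀ᶠ r : ℝ in 𝓝[>] 0, 0 < r ∧ r < t N := by
    filter_upwards [self_mem_nhdsWithin, nhdsWithin_le_nhds (Iio_mem_nhds (ht N).1)] with r h1 h2
    exact ⟨h1, h2⟩
  filter_upwards [hev] with r hr
  set c : ℕ → ℝ≥0∞ := fun k => ENNReal.ofReal (2 / (N * t k)) with hc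
  set f : ℝ → ℝ≥0∞ := fun u => ∑ k ∈ Finset.range N, (Ioo (t k / 2) (t k)).indicator (fun _ => c k) u
    with hf
  have hfm : Measurable f := by
    apply Finset.measurable_fun_sum
    intro k _
    exact measurable_const.indicator measurableSet_Ioo
  have hsq : ∀ u, f u ^ 2 = ∑ k ∈ Finset.range N, (Ioo (t k / 2) (t k)).indicator (fun _ => c k ^ 2) u := by
    intro u
    by_cases hu : ∃ k ∈ Finset.range N, u ∈ Ioo (t k / 2) (t k)
    · obtain ⟨k, hk, huk⟩ := hu
      have hother : ∀ j ∈ Finset.range N, j ≠ k → u ∉ Ioo (t j / 2) (t j) := by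
        intro j _ hjk huj
        rcases lt_or_gt_of_ne hjk with h1 | h1
        · have := hanti j k h1; linarith [huj.1, huk.2]
        · have := hanti k j h1; linarith [huk.1, huj.2]
      rw [hf]
      simp only
      rw [Finset.sum_eq_single_of_mem k hk, Finset.sum_eq_single_of_mem k hk, indicator_of_mem huk,
        indicator_of_mem huk]
      · intro j hj hjk; exact indicator_of_notMem (hother j hj hjk) _
      · intro j hj hjk; exact indicator_of_notMem (hother j hj hjk) _
    · push Not at hu
      rw [hf]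
      simp only
      rw [Finset.sum_eq_zero, Finset.sum_eq_zero]
      · simp
      · intro j hj; exact indicator_of_notMem (hu j hj) _
      · intro j hj; exact indicator_of_notMem (hu j hj) _
  have hdm : Measurable (fun x : X => dist x a) := (continuous_id.dist continuous_const).measurable
  have hadm : Admissible (Joining (closedBall a r) (ball a R)ᶜ (univ : Set X)) (fun x => f (dist x a)) := by
    refine ⟨hfm.comp hdm, ?_⟩
    rintro ⟨L, γ⟩ ⟨hL, hγ, -, h0, h1⟩
    simp only at hL hγ h0 h1 ⊢
    have hlip := HasUnitSpeedOn.lipschitz hγ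
    have hlip2 : LipschitzOnWith 1 (fun s => dist (γ s) a) (Icc 0 L) := by
      have := (LipschitzWith.dist_left a).comp_lipschitzOnWith hlip
      simpa [Function.comp_def] using this
    have hle := lintegral_image_le measurableSet_Icc hlip2 f
    refine le_trans ?_ hle
    have hsub : Icc (dist (γ 0) a) (dist (γ L) a) ⊆ (fun s => dist (γ s) a) '' Icc 0 L :=
      intermediate_value_Icc hL hlip2.continuousOn
    have h0' : dist (γ 0) a ≤ r := h0
    have h1' : R ≤ dist (γ L) a := by
      have : ¬ dist (γ L) a < R := h1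
      linarith
    refine le_trans ?_ (lintegral_mono_set hsub)
    rw [hf]
    rw [lintegral_finsetSum _ (fun k _ => measurable_const.indicator measurableSet_Ioo)]
    have hterm : ∀ k ∈ Finset.range N, (ENNReal.ofReal (1 / N) : ℝ≥0∞) ≤
        ∫⁻ u in Icc (dist (γ 0) a) (dist (γ L) a), (Ioo (t k / 2) (t k)).indicator (fun _ => c k) u := by
      intro k hk
      have hk' := Finset.mem_range.mp hk
      rw [lintegral_indicator measurableSet_Ioo, Measure.restrict_restrict measurableSet_Ioo]
      have hkt := (ht k).1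
      have e1 : Ioo (t k / 2) (t k) ∩ Icc (dist (γ 0) a) (dist (γ L) a) = Ioo (t k / 2) (t k) := by
        apply inter_eq_left.mpr
        intro u hu
        have h2 := hanti k N hk'
        have h3 : t k ≤ t 0 := by
          rcases Nat.eq_zero_or_pos k with h4 | h4
          · rw [h4]
          · have := hanti 0 k h4; linarith [(ht 0).1]
        exact ⟨by linarith [hu.1, hr.2], by linarith [hu.2]⟩
      rw [e1, lintegral_const, Measure.restrict_apply_univ, Real.volume_Ioo, hc]
      simp only
      rw [← ENNReal.ofReal_mul (by positivity)]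
      apply ENNReal.ofReal_le_ofReal
      apply le_of_eq
      field_simp
      ring
    calc (1 : ℝ≥0∞) = ∑ k ∈ Finset.range N, (ENNReal.ofReal (1 / N) : ℝ≥0∞) := by
          rw [Finset.sum_const, Finset.card_range, nsmul_eq_mul]
          rw [← ENNReal.ofReal_natCast N, ← ENNReal.ofReal_mul hNpos.le]
          rw [mul_one_div_cancel hNpos.ne', ENNReal.ofReal_one]
      _ ≤ _ := Finset.sum_le_sum hterm
  refine (iInf₂_le (fun x => f (dist x a)) hadm).trans ?_
  calc ∫⁻ x, f (dist x a) ^ 2 ∂(H2 X)
      = ∑ k ∈ Finset.range N, ∫⁻ x, (Ioo (t k / 2) (t k)).indicator (fun _ => c k ^ 2) (dist x a) ∂(H2 X) := by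
        have hm : ∀ k ∈ Finset.range N, Measurable
            (fun x : X => (Ioo (t k / 2) (t k)).indicator (fun _ => c k ^ 2) (dist x a)) :=
          fun k _ => (measurable_const.indicator measurableSet_Ioo).comp hdm
        rw [← lintegral_finsetSum _ hm]
        exact lintegral_congr (fun x => hsq _)
    _ ≤ ∑ k ∈ Finset.range N, ENNReal.ofReal (4 * C / N ^ 2) := by
        apply Finset.sum_le_sum
        intro k _
        have hkt := (ht k).1
        have e2 : ∀ x : X, (Ioo (t k / 2) (t k)).indicator (fun _ => c k ^ 2) (dist x a)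
            ≤ (ball a (t k)).indicator (fun _ => c k ^ 2) x := by
          intro x
          by_cases hx : dist x a ∈ Ioo (t k / 2) (t k)
          · rw [indicator_of_mem hx, indicator_of_mem (show x ∈ ball a (t k) from hx.2)]
          · rw [indicator_of_notMem hx]; exact zero_le
        calc _ ≤ ∫⁻ x, (ball a (t k)).indicator (fun _ => c k ^ 2) x ∂(H2 X) := lintegral_mono e2
          _ = c k ^ 2 * H2 X (ball a (t k)) := lintegral_indicator_const measurableSet_ball _
          _ ≤ c k ^ 2 * ENNReal.ofReal (C * t k ^ 2) := by gcongr; exact (ht k).2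
          _ = ENNReal.ofReal (4 * C / N ^ 2) := by
            rw [hc]; simp only
            rw [← ENNReal.ofReal_pow (by positivity), ← ENNReal.ofReal_mul (by positivity)]
            congr 1
            field_simp
            ring
    _ = ENNReal.ofReal (4 * C / N) := by
        rw [Finset.sum_const, Finset.card_range, nsmul_eq_mul]
        rw [← ENNReal.ofReal_natCast N, ← ENNReal.ofReal_mul hNpos.le]
        congr 1
        field_simp
    _ ≤ ε := hn

end Pool.Agent.H22.Recip
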