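import Pool.Agent.H22.Recip.KeyEst
import Pool.Agent.H22.Recip.RTwo

/-!
# Finite lower density everywhere implies reciprocity
-/

open MeasureTheory Measure Set Metric Filter Topology
open scoped ENNReal NNReal

namespace Pool.Agent.H22.Recip

universe u

variable {X : Type u} [MetricSpace X] [MeasurableSpace X] [BorelSpace X]

set_option linter.unusedSectionVars false

theorem Mod2_le {E F K : Set X} (hK : MeasurableSet K) {ρ : X → ℝ≥0∞}
    (hρ : Admissible (Joining E F K) ρ) :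
    Mod2 (Joining E F K) ≤ ENNReal.ofReal (Real.pi / 4) * ∫⁻ x, ρ x ^ 2 ∂((μH[2] : Measure X).restrict K) := by
  have hadm : Admissible (Joining E F K) (K.indicator ρ) := by
    refine ⟨hρ.1.indicator hK, fun c hc => ?_⟩
    have : ∫⁻ s in Icc 0 c.1, K.indicator ρ (c.2 s) = ∫⁻ s in Icc 0 c.1, ρ (c.2 s) :=
      setLIntegral_congr_fun measurableSet_Icc fun s hs => by rw [indicator_of_mem (hc.2.2.1 hs)]
    rw [this]; exact hρ.2 c hc
  refine (iInf₂_le _ hadm).trans (le_of_eq ?_)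
  rw [H2, lintegral_smul_measure, smul_eq_mul]
  congr 1
  rw [← lintegral_indicator hK]
  apply lintegral_congr
  intro x
  by_cases hx : x ∈ K
  · rw [indicator_of_mem hx, indicator_of_mem hx]
  · rw [indicator_of_notMem hx, indicator_of_notMem hx]; simp

theorem pi_div_four_le_one : ENNReal.ofReal (Real.pi / 4) ≤ 1 := by
  rw [ENNReal.ofReal_le_one]; linarith [Real.pi_le_four]

theorem upper_bound (h3 : Cond3 X) (q : Quadrilateral X) (hfin : H2 X q.carrier < ∞) :
    Mod2 q.Γ * Mod2 q.Γstar ≤ ENNReal.ofReal (8 * 113625 ^ 2) := by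
  have hfin' := (H2_lt_top_iff _).mp hfin
  set K := q.carrier with hK
  have hKc : IsCompact K := q.isCompact_carrier
  have hKm : MeasurableSet K := hKc.isClosed.measurableSet
  set ν : Measure X := (μH[2] : Measure X).restrict K with hν
  have hνfin : IsFiniteMeasure ν := ⟨by rwa [hν, Measure.restrict_apply_univ]⟩
  set p : ℝ≥0∞ := ENNReal.ofReal (Real.pi / 4) with hp
  have hp0 : 0 < p := ENNReal.ofReal_pos.mpr (by positivity)
  have hp1 : p ≤ 1 := pi_div_four_le_one
  -- distances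
  obtain ⟨d1, hd1, hd1'⟩ := Metric.exists_pos_forall_lt_edist q.isCompact_arc₁
    q.isCompact_arc₃.isClosed q.disjoint13
  obtain ⟨d2, hd2, hd2'⟩ := Metric.exists_pos_forall_lt_edist q.isCompact_arc₂
    q.isCompact_arc₄.isClosed q.disjoint24
  set d : ℝ := min (d1 : ℝ) d2 with hd
  have hdpos : 0 < d := lt_min (by exact_mod_cast hd1) (by exact_mod_cast hd2)
  have hda : ∀ x ∈ q.arc₁, ∀ y ∈ q.arc₃, d ≤ dist x y := by
    intro x hx y hy
    have h := (hd1' x hx y hy).le
    rw [edist_nndist] at h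
    have h' : d1 ≤ nndist x y := by exact_mod_cast h
    have h'' : (d1 : ℝ) ≤ dist x y := by exact_mod_cast h'
    exact (min_le_left _ _).trans h''
  have hdb : ∀ x ∈ q.arc₂, ∀ y ∈ q.arc₄, d ≤ dist x y := by
    intro x hx y hy
    have h := (hd2' x hx y hy).le
    rw [edist_nndist] at h
    have h' : d2 ≤ nndist x y := by exact_mod_cast h
    have h'' : (d2 : ℝ) ≤ dist x y := by exact_mod_cast h'
    exact (min_le_right _ _).trans h''
  -- minimizer
  obtain ⟨M0, hM0⟩ := exists_admissible_bdd hKc q.isCompact_arc₁ q.isCompact_arc₃.isClosed q.disjoint13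
  obtain ⟨f, hfm, hf2, hfa, hfb⟩ := exists_minimizer ν q.Γ
    ⟨_, hM0, by
      rw [lintegral_indicator_sq hKm]
      have := measure_ne_top ν K
      finiteness⟩
  set m := ∫⁻ x, f x ^ 2 ∂ν with hm
  have hmod : Mod2 q.Γ ≤ p * m := by
    apply ENNReal.le_of_forall_pos_le_add
    intro ε hε _
    obtain ⟨ρ, h1, h2⟩ := hfb ε (by exact_mod_cast hε.ne')
    calc Mod2 q.Γ ≤ p * ∫⁻ x, ρ x ^ 2 ∂ν := Mod2_le hKm h1
      _ ≤ p * (m + ε) := by gcongr
      _ = p * m + p * ε := mul_add _ _ _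
      _ ≤ p * m + 1 * ε := by gcongr
      _ = p * m + ε := by rw [one_mul]
  by_cases hm0 : m = 0
  · rw [hm0, mul_zero] at hmod
    rw [nonpos_iff_eq_zero.mp hmod, zero_mul]
    exact zero_le
  -- exceptional set
  set A : ℕ → Set X := fun j => {x | x ∈ K ∧ ∀ r, 0 < r → r < 1 / ((j:ℝ) + 1) →
      ENNReal.ofReal (101 * r ^ 2) ≤ ν (closedBall x r)} with hA
  have hA0 : ∀ j, ν (A j) = 0 := fun j => density_null hfin' (by positivity)
  set N : Set X := toMeasurable ν (⋃ j, A j) with hN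
  have hNm : MeasurableSet N := measurableSet_toMeasurable _ _
  have hN0 : ν N = 0 := by
    rw [hN, measure_toMeasurable]
    exact measure_iUnion_null hA0
  have hgood : ∀ x ∈ q.carrier, x ∉ N → ∀ δ > 0, ∃ r, 0 < r ∧ r < δ ∧
      ν (closedBall x (15 * r)) ≤ ENNReal.ofReal (22725 * r ^ 2) := by
    intro x hx hxN δ hδ
    obtain ⟨j, hj⟩ := exists_nat_one_div_lt (show 0 < 15 * δ by positivity)
    have hxA : x ∉ A j := fun h => hxN (subset_toMeasurable _ _ (mem_iUnion.mpr ⟨j, h⟩))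
    simp only [hA, mem_ofPred_eq, not_and, not_forall, not_le] at hxA
    obtain ⟨r', h0, h1, h2⟩ := hxA hx
    refine ⟨r' / 15, by positivity, by linarith, ?_⟩
    rw [mul_div_cancel₀ _ (by norm_num)]
    refine h2.le.trans (ENNReal.ofReal_le_ofReal ?_)
    linarith
  have hall : ∀ x ∈ q.carrier, ∃ M : ℝ, ∀ δ > 0, ∃ r, 0 < r ∧ r < δ ∧
      ν (closedBall x (15 * r)) ≤ ENNReal.ofReal (M * r ^ 2) := by
    intro x _
    obtain ⟨C, hC, hsc⟩ := h3.exists_scale x
    refine ⟨4 / Real.pi * C * 900, fun δ hδ => ?_⟩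
    obtain ⟨r', h0, h1, h2⟩ := hsc (30 * δ) (by positivity)
    refine ⟨r' / 30, by positivity, by linarith, ?_⟩
    have hsub : closedBall x (15 * (r' / 30)) ⊆ ball x r' := closedBall_subset_ball (by linarith)
    have h4 : (μH[2] : Measure X) (ball x r') = ENNReal.ofReal (4 / Real.pi) * H2 X (ball x r') := by
      rw [H2_eq, ← mul_assoc, ← ENNReal.ofReal_mul (by positivity)]
      have : 4 / Real.pi * (Real.pi / 4) = 1 := by field_simp
      rw [this, ENNReal.ofReal_one, one_mul]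
    calc ν (closedBall x (15 * (r' / 30))) ≤ (μH[2] : Measure X) (ball x r') :=
          (measure_mono hsub).trans (Measure.restrict_le_self _)
      _ = ENNReal.ofReal (4 / Real.pi) * H2 X (ball x r') := h4
      _ ≤ ENNReal.ofReal (4 / Real.pi) * ENNReal.ofReal (C * r' ^ 2) := by gcongr
      _ = _ := by
          rw [← ENNReal.ofReal_mul (by positivity)]
          congr 1; ring
  -- admissible function for the dual family
  set K0 : ℝ≥0∞ := ENNReal.ofReal (5 * 22725) with hK0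
  have hK00 : K0 ≠ 0 := (ENNReal.ofReal_pos.mpr (by norm_num)).ne'
  have hK0t : K0 ≠ ∞ := ENNReal.ofReal_ne_top
  have hmt : m ≠ ∞ := hf2
  set Mf := maxFun ν d f with hMf
  have hMm : Measurable Mf := measurable_maxFun ν d f
  set F : X → ℝ≥0∞ := fun x => K0 / m * Mf x + N.indicator (fun _ => ∞) x with hF
  have hFadm : Admissible q.Γstar F := by
    refine ⟨(hMm.const_mul _).add (measurable_const.indicator hNm), fun c hc => ?_⟩
    have hγ : AEMeasurable c.2 (volume.restrict (Icc 0 c.1)) :=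
      (Joining.lip hc).continuousOn.aemeasurable measurableSet_Icc
    by_cases hnull : volume {s | s ∈ Icc 0 c.1 ∧ c.2 s ∈ N} = 0
    · have hsplit : ∫⁻ s in Icc 0 c.1, F (c.2 s) ≥ K0 / m * ∫⁻ s in Icc 0 c.1, Mf (c.2 s) := by
        have hmm : AEMeasurable (fun s => Mf (c.2 s)) (volume.restrict (Icc 0 c.1)) :=
          hMm.comp_aemeasurable hγ
        rw [← lintegral_const_mul'' _ hmm]
        exact lintegral_mono fun s => le_self_add
      refine le_trans ?_ hsplit
      by_cases hint : ∫⁻ s in Icc 0 c.1, Mf (c.2 s) = ∞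
      · rw [hint, ENNReal.mul_top (ENNReal.div_pos hK00 hmt).ne']
        exact le_top
      · have := key_estimate q ν (N := N) (Mstar := 22725) hgood hall hfm hfa hdpos hda hdb hc hnull hint
        calc (1 : ℝ≥0∞) = m / m := (ENNReal.div_self hm0 hmt).symm
          _ ≤ (K0 * ∫⁻ s in Icc 0 c.1, Mf (c.2 s)) / m := by gcongr
          _ = _ := by rw [ENNReal.mul_div_right_comm]
    · have h1 : ∫⁻ s in Icc 0 c.1, F (c.2 s) ≥ ∫⁻ s in Icc 0 c.1, N.indicator (fun _ => ∞) (c.2 s) :=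
        lintegral_mono fun s => le_add_self
      have h2 : AEMeasurable (fun s => N.indicator (fun _ => (∞ : ℝ≥0∞)) (c.2 s))
          (volume.restrict (Icc 0 c.1)) := (measurable_const.indicator hNm).comp_aemeasurable hγ
      have h3 := mul_meas_ge_le_lintegral₀ h2 ∞
      have h4 : (volume.restrict (Icc 0 c.1))
          {s | (∞ : ℝ≥0∞) ≤ N.indicator (fun _ => (∞ : ℝ≥0∞)) (c.2 s)} ≠ 0 := by
        rw [Measure.restrict_apply' measurableSet_Icc]
        intro h0
        apply hnull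
        refine measure_mono_null ?_ h0
        rintro s ⟨hs, hsN⟩
        refine ⟨?_, hs⟩
        rw [mem_ofPred_eq, indicator_of_mem hsN]
      rw [ENNReal.top_mul h4] at h3
      exact le_trans (le_top.trans h3) h1
  have hFint : ∫⁻ x, F x ^ 2 ∂ν ≤ 8 * K0 ^ 2 / m := by
    have hae : ∀ᵐ x ∂ν, F x ^ 2 = (K0 / m) ^ 2 * Mf x ^ 2 := by
      have : ∀ᵐ x ∂ν, x ∉ N := measure_eq_zero_iff_ae_notMem.mp hN0
      filter_upwards [this] with x hx
      simp only [hF]
      rw [indicator_of_notMem hx, add_zero, mul_pow]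
    rw [lintegral_congr_ae hae, lintegral_const_mul _ (hMm.pow_const 2)]
    calc (K0 / m) ^ 2 * ∫⁻ x, Mf x ^ 2 ∂ν ≤ (K0 / m) ^ 2 * (8 * m) := by
          gcongr; exact maxFun_sq ν d hfm
      _ = 8 * K0 ^ 2 / m := by
          rw [ENNReal.div_eq_inv_mul, ENNReal.div_eq_inv_mul, mul_pow]
          have : m⁻¹ ^ 2 * K0 ^ 2 * (8 * m) = (m⁻¹ * m) * (m⁻¹ * (8 * K0 ^ 2)) := by ring
          rw [this, ENNReal.inv_mul_cancel hm0 hmt, one_mul]
  have hmod2 : Mod2 q.Γstar ≤ p * (8 * K0 ^ 2 / m) := (Mod2_le hKm hFadm).trans (by gcongr)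
  calc Mod2 q.Γ * Mod2 q.Γstar ≤ (p * m) * (p * (8 * K0 ^ 2 / m)) := mul_le_mul' hmod hmod2
    _ = p * p * (8 * K0 ^ 2) := by
        rw [ENNReal.div_eq_inv_mul]
        have : p * m * (p * (m⁻¹ * (8 * K0 ^ 2))) = (m * m⁻¹) * (p * p * (8 * K0 ^ 2)) := by ring
        rw [this, ENNReal.mul_inv_cancel hm0 hmt, one_mul]
    _ ≤ 1 * 1 * (8 * K0 ^ 2) := by gcongr
    _ = ENNReal.ofReal (8 * 113625 ^ 2) := by
        rw [hK0, one_mul, one_mul, ← ENNReal.ofReal_pow (by norm_num), ← ENNReal.ofReal_ofNat 8,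
          ← ENNReal.ofReal_mul (by norm_num)]
        congr 1; norm_num

theorem Cond1.cond3 (h : Cond1 X) : Cond3 X := fun x => lt_of_le_of_lt liminf_le_limsup (h x)

theorem Cond2.cond3 (h : Cond2 X) : Cond3 X := by
  obtain ⟨C, hC⟩ := h
  exact fun x => lt_of_le_of_lt (hC x) ENNReal.ofReal_lt_top

theorem reciprocal_of_cond3 [IsLocallyFiniteMeasure (H2 X)] (h : Cond3 X) : Reciprocal X := by
  refine ⟨⟨8 * 113625 ^ 2, by norm_num, fun q => ?_⟩, R2_of_Cond3 h⟩
  have hfin : H2 X q.carrier < ∞ := q.isCompact_carrier.measure_lt_top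
  refine ⟨le_trans (ENNReal.ofReal_le_ofReal ?_) (lower_bound q hfin), upper_bound h q hfin⟩
  have h1 : (3 / 4 : ℝ) ≤ Real.pi / 4 := by linarith [Real.pi_gt_three]
  have h2 : (3 / 4 : ℝ) ^ 2 ≤ (Real.pi / 4) ^ 2 := by gcongr
  refine le_trans ?_ h2
  norm_num

end Pool.Agent.H22.Recip
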