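import Pool.Agent.H22.Recip.LTwo

/-!
# The minimal norm element of the closure of the admissible functions
-/

open MeasureTheory Measure Set Metric Filter Topology
open scoped ENNReal NNReal RealInnerProductSpace

namespace Pool.Agent.H22.Recip

universe u

variable {X : Type u} [MetricSpace X] [MeasurableSpace X] [BorelSpace X]

set_option linter.unusedSectionVars false

theorem Lp_norm_sq (ν : Measure X) (u : Lp ℝ 2 ν) :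
    ENNReal.ofReal (‖u‖ ^ 2) = ∫⁻ x, ‖u x‖ₑ ^ 2 ∂ν := by
  have h1 : eLpNorm u 2 ν ≠ ∞ := Lp.eLpNorm_ne_top u
  rw [Lp.norm_def, ← ENNReal.toReal_pow, ENNReal.ofReal_toReal (by finiteness)]
  rw [eLpNorm_eq_lintegral_rpow_enorm_toReal (by norm_num) (by norm_num)]
  simp only [ENNReal.toReal_ofNat, ENNReal.rpow_ofNat]
  rw [← ENNReal.rpow_natCast, ← ENNReal.rpow_mul]
  norm_num

theorem sq_add_le (x y : ℝ≥0∞) : (x + y) ^ 2 ≤ 4 * (x ^ 2 + y ^ 2) := by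
  rcases le_total x y with h | h
  · calc (x + y) ^ 2 ≤ (y + y) ^ 2 := by gcongr
      _ = 4 * y ^ 2 := by ring
      _ ≤ _ := by gcongr; exact le_add_self
  · calc (x + y) ^ 2 ≤ (x + x) ^ 2 := by gcongr
      _ = 4 * x ^ 2 := by ring
      _ ≤ _ := by gcongr; exact le_self_add

theorem ae_lt_top_of_sq {ν : Measure X} {ρ : X → ℝ≥0∞} (hρ : Measurable ρ)
    (h : ∫⁻ x, ρ x ^ 2 ∂ν ≠ ∞) : ∀ᵐ x ∂ν, ρ x < ∞ := by
  filter_upwards [ae_lt_top (hρ.pow_const 2) h] with x hx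
  by_contra hc
  rw [not_lt, top_le_iff] at hc
  rw [hc] at hx
  simp at hx

theorem memLp_of_sq {ν : Measure X} {ρ : X → ℝ≥0∞} (hρ : Measurable ρ)
    (h : ∫⁻ x, ρ x ^ 2 ∂ν ≠ ∞) : MemLp (fun x => (ρ x).toReal) 2 ν := by
  refine ⟨hρ.ennreal_toReal.aestronglyMeasurable, ?_⟩
  rw [eLpNorm_lt_top_iff_lintegral_rpow_enorm_lt_top (by norm_num) (by norm_num)]
  refine lt_of_le_of_lt ?_ (lt_top_iff_ne_top.mpr h)
  apply lintegral_mono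
  intro x
  simp only [ENNReal.toReal_ofNat, ENNReal.rpow_ofNat]
  gcongr
  rw [Real.enorm_of_nonneg ENNReal.toReal_nonneg]
  exact ENNReal.ofReal_toReal_le

/-- admissible functions of finite energy, inside `L²` -/
def admSet (Γ : Set (ℝ × (ℝ → X))) (ν : Measure X) : Set (Lp ℝ 2 ν) :=
  {u | ∃ ρ : X → ℝ≥0∞, Admissible Γ ρ ∧ ∫⁻ x, ρ x ^ 2 ∂ν ≠ ∞ ∧ u =ᵐ[ν] fun x => (ρ x).toReal}

theorem admSet_norm {Γ : Set (ℝ × (ℝ → X))} {ν : Measure X} {u : Lp ℝ 2 ν} {ρ : X → ℝ≥0∞}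
    (hρ : Admissible Γ ρ) (h : ∫⁻ x, ρ x ^ 2 ∂ν ≠ ∞) (hu : u =ᵐ[ν] fun x => (ρ x).toReal) :
    ENNReal.ofReal (‖u‖ ^ 2) = ∫⁻ x, ρ x ^ 2 ∂ν := by
  rw [Lp_norm_sq]
  apply lintegral_congr_ae
  filter_upwards [hu, ae_lt_top_of_sq hρ.1 h] with x hx hx2
  rw [hx, Real.enorm_of_nonneg ENNReal.toReal_nonneg, ENNReal.ofReal_toReal hx2.ne]

theorem admSet_convex (Γ : Set (ℝ × (ℝ → X))) (ν : Measure X) : Convex ℝ (admSet Γ ν) := by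
  rintro u1 ⟨ρ1, h1, h1', hu1⟩ u2 ⟨ρ2, h2, h2', hu2⟩ a b ha hb hab
  refine ⟨fun x => ENNReal.ofReal a * ρ1 x + ENNReal.ofReal b * ρ2 x, ⟨?_, ?_⟩, ?_, ?_⟩
  · exact (h1.1.const_mul _).add (h2.1.const_mul _)
  · intro c hc
    have e1 := h1.2 c hc
    have e2 := h2.2 c hc
    calc (1 : ℝ≥0∞) = ENNReal.ofReal a * 1 + ENNReal.ofReal b * 1 := by
          rw [mul_one, mul_one, ← ENNReal.ofReal_add ha hb, hab, ENNReal.ofReal_one]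
      _ ≤ ENNReal.ofReal a * (∫⁻ s in Icc 0 c.1, ρ1 (c.2 s)) +
          ENNReal.ofReal b * ∫⁻ s in Icc 0 c.1, ρ2 (c.2 s) := by gcongr
      _ = (∫⁻ s in Icc 0 c.1, ENNReal.ofReal a * ρ1 (c.2 s)) +
          ∫⁻ s in Icc 0 c.1, ENNReal.ofReal b * ρ2 (c.2 s) := by
          rw [lintegral_const_mul' _ _ ENNReal.ofReal_ne_top, lintegral_const_mul' _ _ ENNReal.ofReal_ne_top]
      _ ≤ _ := le_lintegral_add _ _
  · have hle : ∫⁻ x, (ENNReal.ofReal a * ρ1 x + ENNReal.ofReal b * ρ2 x) ^ 2 ∂ν ≤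
        ∫⁻ x, (4 * (ENNReal.ofReal a) ^ 2 * ρ1 x ^ 2 + 4 * (ENNReal.ofReal b) ^ 2 * ρ2 x ^ 2) ∂ν := by
      apply lintegral_mono
      intro x
      refine (sq_add_le _ _).trans (le_of_eq ?_)
      ring
    refine ne_top_of_le_ne_top ?_ hle
    rw [lintegral_add_left ((h1.1.pow_const 2).const_mul _), lintegral_const_mul' _ _ (by finiteness),
      lintegral_const_mul' _ _ (by finiteness)]
    finiteness
  · filter_upwards [hu1, hu2, ae_lt_top_of_sq h1.1 h1', ae_lt_top_of_sq h2.1 h2',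
      Lp.coeFn_add (a • u1) (b • u2), Lp.coeFn_smul a u1, Lp.coeFn_smul b u2] with
      x e1 e2 e3 e4 e5 e6 e7
    rw [e5, Pi.add_apply, e6, e7, Pi.smul_apply, Pi.smul_apply, e1, e2, smul_eq_mul, smul_eq_mul]
    rw [ENNReal.toReal_add (by finiteness) (by finiteness), ENNReal.toReal_mul, ENNReal.toReal_mul,
      ENNReal.toReal_ofReal ha, ENNReal.toReal_ofReal hb]

theorem exists_minimizer (ν : Measure X) [IsFiniteMeasure ν] (Γ : Set (ℝ × (ℝ → X)))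
    (hne : ∃ ρ : X → ℝ≥0∞, Admissible Γ ρ ∧ ∫⁻ x, ρ x ^ 2 ∂ν ≠ ∞) :
    ∃ f : X → ℝ≥0∞, Measurable f ∧ ∫⁻ x, f x ^ 2 ∂ν ≠ ∞ ∧
      (∀ g : X → ℝ≥0∞, Admissible Γ g → ∫⁻ x, g x ^ 2 ∂ν ≠ ∞ →
        ∫⁻ x, f x ^ 2 ∂ν ≤ ∫⁻ x, f x * g x ∂ν) ∧
      (∀ ε : ℝ≥0∞, ε ≠ 0 → ∃ ρ : X → ℝ≥0∞, Admissible Γ ρ ∧
        ∫⁻ x, ρ x ^ 2 ∂ν ≤ ∫⁻ x, f x ^ 2 ∂ν + ε) := by
  have hAne : (closure (admSet Γ ν)).Nonempty := by
    obtain ⟨ρ, h1, h2⟩ := hne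
    refine ⟨(memLp_of_sq h1.1 h2).toLp _, subset_closure ⟨ρ, h1, h2, MemLp.coeFn_toLp _⟩⟩
  have hconv : Convex ℝ (closure (admSet Γ ν)) := (admSet_convex Γ ν).closure
  obtain ⟨v, hv, hvmin⟩ := exists_norm_eq_iInf_of_complete_convex hAne
    isClosed_closure.isComplete hconv (0 : Lp ℝ 2 ν)
  have hinner := (norm_eq_iInf_iff_real_inner_le_zero hconv hv).mp hvmin
  have hvsq := Lp_norm_sq ν v
  refine ⟨fun x => ‖v x‖ₑ, (Lp.stronglyMeasurable v).measurable.enorm, ?_, ?_, ?_⟩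
  · rw [← hvsq]; exact ENNReal.ofReal_ne_top
  · intro g hg hg2
    set w : Lp ℝ 2 ν := (memLp_of_sq hg.1 hg2).toLp _ with hw
    have hwae : w =ᵐ[ν] fun x => (g x).toReal := MemLp.coeFn_toLp _
    have hwA : w ∈ closure (admSet Γ ν) := subset_closure ⟨g, hg, hg2, hwae⟩
    have h1 := hinner w hwA
    rw [zero_sub, inner_neg_left, inner_sub_right, real_inner_self_eq_norm_sq] at h1
    have h2 : ‖v‖ ^ 2 ≤ ⟪v, w⟫ := by linarith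
    rw [← hvsq]
    calc ENNReal.ofReal (‖v‖ ^ 2) ≤ ENNReal.ofReal ⟪v, w⟫ := ENNReal.ofReal_le_ofReal h2
      _ ≤ ‖(⟪v, w⟫ : ℝ)‖ₑ := Real.ofReal_le_enorm _
      _ = ‖∫ x, ⟪v x, w x⟫ ∂ν‖ₑ := by rw [L2.inner_def]
      _ ≤ ∫⁻ x, ‖(⟪v x, w x⟫ : ℝ)‖ₑ ∂ν := enorm_integral_le_lintegral_enorm _
      _ ≤ ∫⁻ x, ‖v x‖ₑ * g x ∂ν := by
          apply lintegral_mono_ae
          filter_upwards [hwae] with x hx
          rw [hx, RCLike.inner_apply, conj_trivial, enorm_mul, mul_comm]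
          gcongr
          rw [Real.enorm_of_nonneg ENNReal.toReal_nonneg]
          exact ENNReal.ofReal_toReal_le
  · intro ε hε
    rw [← hvsq]
    have hcont : Continuous fun u : Lp ℝ 2 ν => ENNReal.ofReal (‖u‖ ^ 2) :=
      ENNReal.continuous_ofReal.comp (continuous_norm.pow 2)
    have hlt : ENNReal.ofReal (‖v‖ ^ 2) < ENNReal.ofReal (‖v‖ ^ 2) + ε :=
      ENNReal.lt_add_right ENNReal.ofReal_ne_top hε
    have hnhds : {u : Lp ℝ 2 ν | ENNReal.ofReal (‖u‖ ^ 2) < ENNReal.ofReal (‖v‖ ^ 2) + ε} ∈ 𝓝 v :=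
      (isOpen_lt hcont continuous_const).mem_nhds hlt
    obtain ⟨u, hu1, ρ, hρ1, hρ2, hρ3⟩ := mem_closure_iff_nhds.mp hv _ hnhds
    refine ⟨ρ, hρ1, ?_⟩
    rw [← admSet_norm hρ1 hρ2 hρ3]
    exact le_of_lt hu1

end Pool.Agent.H22.Recip
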