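import Pool.Agent.H22.Recip.Defs

/-!
# Poincaré–Miranda in the square, via a continuous logarithm
-/

open MeasureTheory Measure Set Metric Filter Topology
open scoped ENNReal NNReal

namespace Pool.Agent.H22.Recip

/-- continuous logarithm on the unit square. -/
theorem exists_log (F : ℝ × ℝ → ℂ) (hF : ContinuousOn F (Icc 0 1 ×ˢ Icc 0 1))
    (h0 : ∀ p ∈ (Icc 0 1 ×ˢ Icc 0 1 : Set (ℝ × ℝ)), F p ≠ 0) :
    ∃ h : ℝ × ℝ → ℂ, ContinuousOn h (Icc 0 1 ×ˢ Icc 0 1) ∧
      ∀ p ∈ (Icc 0 1 ×ˢ Icc 0 1 : Set (ℝ × ℝ)), Complex.exp (h p) = F p := by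
  set S : Set (ℝ × ℝ) := Icc 0 1 ×ˢ Icc 0 1 with hS
  have hScomp : IsCompact S := isCompact_Icc.prod isCompact_Icc
  have hSne : S.Nonempty := ⟨(0, 0), by simp [hS]⟩
  obtain ⟨p0, hp0, hmin⟩ := hScomp.exists_isMinOn hSne hF.norm
  set m := ‖F p0‖ with hm
  have hmpos : 0 < m := norm_pos_iff.mpr (h0 p0 hp0)
  have huc := hScomp.uniformContinuousOn_of_continuous hF
  rw [Metric.uniformContinuousOn_iff] at huc
  obtain ⟨δ, hδ, hδF⟩ := huc m hmpos
  obtain ⟨N, hN⟩ := exists_nat_gt (1 / δ)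
  have hNpos : 0 < (N : ℝ) := lt_trans (by positivity) hN
  have hNne : (N : ℝ) ≠ 0 := hNpos.ne'
  have hscale : ∀ k : ℕ, k ≤ N → ∀ p ∈ S, ((k : ℝ) / N) • p ∈ S := by
    intro k hk p hp
    rw [hS, mem_prod, mem_Icc, mem_Icc] at hp ⊢
    obtain ⟨⟨h1, h2⟩, h3, h4⟩ := hp
    have hk1 : (k : ℝ) / N ≤ 1 := by
      rw [div_le_one hNpos]; exact_mod_cast hk
    have hk0 : 0 ≤ (k : ℝ) / N := by positivity
    simp only [Prod.smul_fst, Prod.smul_snd, smul_eq_mul]
    refine ⟨⟨by positivity, ?_⟩, by positivity, ?_⟩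
    · nlinarith
    · nlinarith
  let h : ℝ × ℝ → ℂ := fun p => Complex.log (F 0) +
    ∑ k ∈ Finset.range N, Complex.log (F ((((k + 1 : ℕ) : ℝ) / N) • p) / F (((k : ℝ) / N) • p))
  have hclose : ∀ k < N, ∀ p ∈ S,
      F ((((k + 1 : ℕ) : ℝ) / N) • p) / F (((k : ℝ) / N) • p) ∈ Complex.slitPlane := by
    intro k hk p hp
    have hp1 := hscale (k + 1) hk p hp
    have hp2 := hscale k hk.le p hp
    have hd : dist ((((k + 1 : ℕ) : ℝ) / N) • p) (((k : ℝ) / N) • p) < δ := by
      rw [dist_eq_norm, ← sub_smul, norm_smul]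
      have e1 : (((k + 1 : ℕ) : ℝ) / N - (k : ℝ) / N) = 1 / N := by push_cast; ring
      rw [e1, Real.norm_of_nonneg (by positivity)]
      have e2 : ‖p‖ ≤ 1 := by
        rw [hS, mem_prod, mem_Icc, mem_Icc] at hp
        rw [Prod.norm_def, sup_le_iff, Real.norm_eq_abs, Real.norm_eq_abs, abs_le, abs_le]
        exact ⟨⟨by linarith [hp.1.1], hp.1.2⟩, by linarith [hp.2.1], hp.2.2⟩
      have e3 : 1 / (N : ℝ) < δ := by
        rw [div_lt_iff₀ hNpos]; rw [div_lt_iff₀ hδ] at hN; linarith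
      calc 1 / (N : ℝ) * ‖p‖ ≤ 1 / N * 1 := by gcongr
        _ < δ := by linarith
    have hlt := hδF _ hp1 _ hp2 hd
    rw [dist_eq_norm] at hlt
    have hne := h0 _ hp2
    have hge : m ≤ ‖F (((k : ℝ) / N) • p)‖ := hmin hp2
    have hb : F ((((k + 1 : ℕ) : ℝ) / N) • p) / F (((k : ℝ) / N) • p) ∈ ball (1 : ℂ) 1 := by
      rw [mem_ball, dist_eq_norm]
      have : F ((((k + 1 : ℕ) : ℝ) / N) • p) / F (((k : ℝ) / N) • p) - 1
          = (F ((((k + 1 : ℕ) : ℝ) / N) • p) - F (((k : ℝ) / N) • p)) / F (((k : ℝ) / N) • p) := by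
        field_simp
      rw [this, norm_div, div_lt_one (norm_pos_iff.mpr hne)]
      linarith
    exact Complex.ball_one_subset_slitPlane hb
  refine ⟨h, ?_, ?_⟩
  · refine continuousOn_const.add ?_
    refine continuousOn_finsetSum _ fun k hk => ?_
    have hk' := Finset.mem_range.mp hk
    refine ContinuousOn.clog ?_ (fun p hp => hclose k hk' p hp)
    refine ContinuousOn.div ?_ ?_ ?_
    · exact hF.comp (continuous_const_smul _).continuousOn (fun p hp => hscale (k + 1) hk' p hp)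
    · exact hF.comp (continuous_const_smul _).continuousOn (fun p hp => hscale k hk'.le p hp)
    · intro p hp; exact h0 _ (hscale k hk'.le p hp)
  · intro p hp
    have key : ∀ n ≤ N, Complex.exp (Complex.log (F 0) +
        ∑ k ∈ Finset.range n, Complex.log (F ((((k + 1 : ℕ) : ℝ) / N) • p) / F (((k : ℝ) / N) • p)))
        = F (((n : ℝ) / N) • p) := by
      intro n
      induction n with
      | zero =>
        intro _
        simp only [Finset.range_zero, Finset.sum_empty, add_zero, Nat.cast_zero, zero_div, zero_smul]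
        exact Complex.exp_log (h0 0 (by rw [hS]; exact ⟨⟨le_rfl, zero_le_one⟩, ⟨le_rfl, zero_le_one⟩⟩))
      | succ n ih =>
        intro hn
        rw [Finset.sum_range_succ, ← add_assoc, Complex.exp_add, ih (by omega)]
        have hne := h0 _ (hscale n (by omega) p hp)
        have hne1 := h0 _ (hscale (n + 1) hn p hp)
        rw [Complex.exp_log (div_ne_zero hne1 hne)]
        field_simp
    have := key N le_rfl
    rw [div_self hNne, one_smul] at this
    exact this

/-- a continuous angle with `sin ≥ 0` on a preconnected set stays in one sector. -/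
theorem sector {α : Type*} [TopologicalSpace α] {T : Set α} (hT : IsPreconnected T) (hne : T.Nonempty)
    {θ : α → ℝ} (hθ : ContinuousOn θ T) (hs : ∀ x ∈ T, 0 ≤ Real.sin (θ x)) :
    ∃ k : ℤ, ∀ x ∈ T, 2 * Real.pi * k ≤ θ x ∧ θ x ≤ 2 * Real.pi * k + Real.pi := by
  obtain ⟨x0, hx0⟩ := hne
  have hpi := Real.pi_pos
  set k : ℤ := ⌊θ x0 / (2 * Real.pi)⌋ with hk
  have h1 : 2 * Real.pi * k ≤ θ x0 := by
    have := Int.floor_le (θ x0 / (2 * Real.pi))
    rw [le_div_iff₀ (by positivity)] at this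
    linarith
  have h2 : θ x0 < 2 * Real.pi * k + 2 * Real.pi := by
    have := Int.lt_floor_add_one (θ x0 / (2 * Real.pi))
    rw [div_lt_iff₀ (by positivity)] at this
    rw [← hk] at this
    linarith
  have hconn : (θ '' T).OrdConnected := (hT.image θ hθ).ordConnected
  have hneg : ∀ v : ℝ, v ∈ θ '' T → 0 ≤ Real.sin (v - k * (2 * Real.pi)) := by
    rintro v ⟨x, hx, rfl⟩
    rw [Real.sin_sub_int_mul_two_pi]
    exact hs x hx
  have h3 : θ x0 ≤ 2 * Real.pi * k + Real.pi := by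
    by_contra hc
    push Not at hc
    have := hneg (θ x0) ⟨x0, hx0, rfl⟩
    have h4 : Real.sin (θ x0 - k * (2 * Real.pi)) < 0 := by
      have e : θ x0 - k * (2 * Real.pi) = (θ x0 - k * (2 * Real.pi) - 2 * Real.pi) + 2 * Real.pi := by ring
      rw [e, Real.sin_add_two_pi]
      apply Real.sin_neg_of_neg_of_neg_pi_lt <;> linarith
    linarith
  refine ⟨k, fun x hx => ?_⟩
  constructor
  · by_contra hc
    push Not at hc
    -- value in [-π/2,0)
    set v := max (θ x) (2 * Real.pi * k - Real.pi / 2) with hv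
    have hv1 : v < 2 * Real.pi * k := by
      rw [hv, max_lt_iff]; exact ⟨hc, by linarith⟩
    have hvmem : v ∈ θ '' T := by
      refine hconn.out ⟨x, hx, rfl⟩ ⟨x0, hx0, rfl⟩ ⟨le_max_left _ _, ?_⟩
      exact hv1.le.trans h1
    have h5 := hneg v hvmem
    have h6 : Real.sin (v - k * (2 * Real.pi)) < 0 := by
      have : 2 * Real.pi * k - Real.pi / 2 ≤ v := le_max_right _ _
      apply Real.sin_neg_of_neg_of_neg_pi_lt <;> linarith
    linarith
  · by_contra hc
    push Not at hc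
    set v := min (θ x) (2 * Real.pi * k + 3 * Real.pi / 2) with hv
    have hv1 : 2 * Real.pi * k + Real.pi < v := by
      rw [hv, lt_min_iff]; exact ⟨hc, by linarith⟩
    have hvmem : v ∈ θ '' T := by
      refine hconn.out ⟨x0, hx0, rfl⟩ ⟨x, hx, rfl⟩ ⟨?_, min_le_left _ _⟩
      exact h3.trans hv1.le
    have h5 := hneg v hvmem
    have h6 : Real.sin (v - k * (2 * Real.pi)) < 0 := by
      have : v ≤ 2 * Real.pi * k + 3 * Real.pi / 2 := min_le_right _ _
      have e : v - k * (2 * Real.pi) = (v - k * (2 * Real.pi) - 2 * Real.pi) + 2 * Real.pi := by ring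
      rw [e, Real.sin_add_two_pi]
      apply Real.sin_neg_of_neg_of_neg_pi_lt <;> linarith
    linarith

/-- Poincaré–Miranda theorem in the unit square. -/
theorem poincare_miranda (f g : ℝ × ℝ → ℝ) (hf : ContinuousOn f (Icc 0 1 ×ˢ Icc 0 1))
    (hg : ContinuousOn g (Icc 0 1 ×ˢ Icc 0 1))
    (hl : ∀ y ∈ Icc (0:ℝ) 1, f (0, y) ≤ 0) (hr : ∀ y ∈ Icc (0:ℝ) 1, 0 ≤ f (1, y))
    (hb : ∀ x ∈ Icc (0:ℝ) 1, g (x, 0) ≤ 0) (ht : ∀ x ∈ Icc (0:ℝ) 1, 0 ≤ g (x, 1)) :
    ∃ p ∈ (Icc 0 1 ×ˢ Icc 0 1 : Set (ℝ × ℝ)), f p = 0 ∧ g p = 0 := by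
  by_contra hcon
  push Not at hcon
  have hpi := Real.pi_pos
  obtain ⟨h, hc, hexp⟩ := exists_log (fun p => (f p : ℂ) + (g p : ℂ) * Complex.I)
    (by
      refine ContinuousOn.add (Complex.continuous_ofReal.comp_continuousOn hf) ?_
      exact (Complex.continuous_ofReal.comp_continuousOn hg).mul continuousOn_const)
    (by
      intro p hp h0
      have h1 : f p = 0 := by simpa using congrArg Complex.re h0
      have h2 : g p = 0 := by simpa using congrArg Complex.im h0
      exact hcon p hp h1 h2)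
  set θ : ℝ × ℝ → ℝ := fun p => (h p).im with hθdef
  have hθ : ContinuousOn θ (Icc 0 1 ×ˢ Icc 0 1) := Complex.continuous_im.comp_continuousOn hc
  have hcos : ∀ p ∈ (Icc 0 1 ×ˢ Icc 0 1 : Set (ℝ × ℝ)), f p = Real.exp (h p).re * Real.cos (θ p) := by
    intro p hp
    have := congrArg Complex.re (hexp p hp)
    rw [Complex.exp_re] at this
    simpa using this.symm
  have hsin : ∀ p ∈ (Icc 0 1 ×ˢ Icc 0 1 : Set (ℝ × ℝ)), g p = Real.exp (h p).re * Real.sin (θ p) := by
    intro p hp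
    have := congrArg Complex.im (hexp p hp)
    rw [Complex.exp_im] at this
    simpa using this.symm
  have hI : IsPreconnected (Icc (0:ℝ) 1) := isPreconnected_Icc
  have hIne : (Icc (0:ℝ) 1).Nonempty := ⟨0, by simp⟩
  have m0 : (0:ℝ) ∈ Icc (0:ℝ) 1 := by simp
  have m1 : (1:ℝ) ∈ Icc (0:ℝ) 1 := by simp
  -- left
  obtain ⟨a, ha⟩ := sector hI hIne (θ := fun y => θ (0, y) - Real.pi / 2)
    (by
      refine ContinuousOn.sub ?_ continuousOn_const
      exact hθ.comp (by fun_prop) (fun y hy => ⟨m0, hy⟩))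
    (by
      intro y hy
      have h1 := hcos (0, y) ⟨m0, hy⟩
      have h2 := hl y hy
      rw [Real.sin_sub_pi_div_two]
      have h3 : Real.cos (θ (0, y)) ≤ 0 := by
        by_contra h4
        push Not at h4
        have := mul_pos (Real.exp_pos (h (0, y)).re) h4
        linarith
      linarith)
  -- top
  obtain ⟨b, hb'⟩ := sector hI hIne (θ := fun x => θ (x, 1))
    (by exact hθ.comp (by fun_prop) (fun y hy => ⟨hy, m1⟩))
    (by
      intro x hx
      have h1 := hsin (x, 1) ⟨hx, m1⟩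
      have h2 := ht x hx
      by_contra h4
      push Not at h4
      have := mul_pos_of_neg_of_neg (neg_lt_zero.mpr (Real.exp_pos (h (x, 1)).re)) h4
      linarith)
  -- right
  obtain ⟨c, hc'⟩ := sector hI hIne (θ := fun y => θ (1, y) + Real.pi / 2)
    (by
      refine ContinuousOn.add ?_ continuousOn_const
      exact hθ.comp (by fun_prop) (fun y hy => ⟨m1, hy⟩))
    (by
      intro y hy
      have h1 := hcos (1, y) ⟨m1, hy⟩
      have h2 := hr y hy
      rw [Real.sin_add_pi_div_two]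
      by_contra h4
      push Not at h4
      have := mul_pos_of_neg_of_neg (neg_lt_zero.mpr (Real.exp_pos (h (1, y)).re)) h4
      linarith)
  -- bottom
  obtain ⟨d, hd⟩ := sector hI hIne (θ := fun x => θ (x, 0) + Real.pi)
    (by
      refine ContinuousOn.add ?_ continuousOn_const
      exact hθ.comp (by fun_prop) (fun y hy => ⟨hy, m0⟩))
    (by
      intro x hx
      have h1 := hsin (x, 0) ⟨hx, m0⟩
      have h2 := hb x hx
      rw [Real.sin_add_pi]
      have h3 : Real.sin (θ (x, 0)) ≤ 0 := by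
        by_contra h4
        push Not at h4
        have := mul_pos (Real.exp_pos (h (x, 0)).re) h4
        linarith
      linarith)
  have TL1 := ha 1 m1
  have TL2 := hb' 0 m0
  have TR1 := hb' 1 m1
  have TR2 := hc' 1 m1
  have BR1 := hc' 0 m0
  have BR2 := hd 1 m1
  have BL1 := hd 0 m0
  have BL2 := ha 0 m0
  have cmp : ∀ (x y : ℤ) (q : ℝ), q < 1 → 2 * Real.pi * x ≤ 2 * Real.pi * y + 2 * Real.pi * q → x ≤ y := by
    intro x y q hq hxy
    have h1 : (x : ℝ) ≤ y + q := by
      have : 2 * Real.pi * (x : ℝ) ≤ 2 * Real.pi * (y + q) := by linarith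
      exact le_of_mul_le_mul_left this (by positivity)
    have h2 : (x : ℝ) < ((y + 1 : ℤ) : ℝ) := by push_cast; linarith
    have h3 : x < y + 1 := by exact_mod_cast h2
    omega
  have hab : a ≤ b := cmp a b (1/4) (by norm_num) (by linarith [TL1.1, TL2.2])
  have hbc : b ≤ c := cmp b c (1/4) (by norm_num) (by linarith [TR1.1, TR2.2])
  have hcd : c ≤ d := cmp c d (1/4) (by norm_num) (by linarith [BR1.1, BR2.2])
  have hdc : d ≤ c := cmp d c (3/4) (by norm_num) (by linarith [BR2.1, BR1.2])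
  have hcb : c ≤ b := cmp c b (3/4) (by norm_num) (by linarith [TR2.1, TR1.2])
  have hba : b ≤ a := cmp b a (3/4) (by norm_num) (by linarith [TL2.1, TL1.2])
  have hda : d = a := by omega
  subst hda
  linarith [BL1.2, BL2.1]

end Pool.Agent.H22.Recip
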