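import Pool.Agent.H22.Recip.Chain

/-!
# The chain potential and the area estimate
-/

open MeasureTheory Measure Set Metric Filter Topology
open scoped ENNReal NNReal

namespace Pool.Agent.H22.Recip

universe u

variable {X : Type u} [MetricSpace X]

/-- set of costs of chains ending at `y` -/
def costs (K E : Set X) (ε : ℝ) (a : X → ℝ) (y : X) : Set ℝ :=
  {c | c = 1 ∨ ∃ N x, IsChain K E ε y N x ∧ c = chainSum a N x}

/-- chain potential, truncated at 1 -/
noncomputable def pot (K E : Set X) (ε : ℝ) (a : X → ℝ) (y : X) : ℝ := sInf (costs K E ε a y)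

theorem costs_nonneg {K E : Set X} {ε : ℝ} {a : X → ℝ} (ha : ∀ x, 0 ≤ a x) {y : X} {c : ℝ}
    (hc : c ∈ costs K E ε a y) : 0 ≤ c := by
  rcases hc with rfl | ⟨N, x, _, rfl⟩
  · exact zero_le_one
  · exact Finset.sum_nonneg fun i _ => mul_nonneg (ha _) dist_nonneg

theorem costs_bdd {K E : Set X} {ε : ℝ} {a : X → ℝ} (ha : ∀ x, 0 ≤ a x) (y : X) :
    BddBelow (costs K E ε a y) := ⟨0, fun _ hc => costs_nonneg ha hc⟩

theorem costs_nonempty (K E : Set X) (ε : ℝ) (a : X → ℝ) (y : X) : (costs K E ε a y).Nonempty :=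
  ⟨1, Or.inl rfl⟩

theorem pot_nonneg {K E : Set X} {ε : ℝ} {a : X → ℝ} (ha : ∀ x, 0 ≤ a x) (y : X) :
    0 ≤ pot K E ε a y := le_csInf (costs_nonempty _ _ _ _ _) fun _ hc => costs_nonneg ha hc

theorem pot_le_one {K E : Set X} {ε : ℝ} {a : X → ℝ} (ha : ∀ x, 0 ≤ a x) (y : X) :
    pot K E ε a y ≤ 1 := csInf_le (costs_bdd ha y) (Or.inl rfl)

theorem pot_eq_zero {K E : Set X} {ε : ℝ} {a : X → ℝ} (ha : ∀ x, 0 ≤ a x) {y : X} (hy : y ∈ E)
    (hyK : y ∈ K) : pot K E ε a y = 0 := by
  apply le_antisymm _ (pot_nonneg ha y)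
  apply csInf_le (costs_bdd ha y)
  refine Or.inr ⟨0, fun _ => y, ⟨hy, rfl, fun _ _ => hyK, fun i hi => absurd hi (by omega)⟩, ?_⟩
  simp [chainSum]

theorem pot_ge {K E : Set X} {ε : ℝ} {a : X → ℝ} {y : X} {δ : ℝ} (hδ : 0 ≤ δ)
    (h : ∀ N x, IsChain K E ε y N x → 1 - δ ≤ chainSum a N x) : 1 - δ ≤ pot K E ε a y := by
  apply le_csInf (costs_nonempty _ _ _ _ _)
  rintro c (rfl | ⟨N, x, hx, rfl⟩)
  · linarith
  · exact h N x hx

theorem pot_step {K E : Set X} {ε : ℝ} {a : X → ℝ} (ha : ∀ x, 0 ≤ a x) {y z : X}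
    (hz : z ∈ K) (hyz : dist y z ≤ ε) : pot K E ε a z ≤ pot K E ε a y + a y * dist y z := by
  rw [← _root_.sub_le_iff_le_add]
  apply le_csInf (costs_nonempty _ _ _ _ _)
  rintro c (rfl | ⟨N, x, hx, rfl⟩)
  · have := pot_le_one (K := K) (E := E) (ε := ε) ha z
    have h2 : 0 ≤ a y * dist y z := mul_nonneg (ha y) dist_nonneg
    linarith
  · rw [_root_.sub_le_iff_le_add]
    apply csInf_le (costs_bdd ha z)
    have hxN : x N = y := hx.last
    refine Or.inr ⟨N + 1, fun i => if i ≤ N then x i else z, ⟨?_, ?_, ?_, ?_⟩, ?_⟩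
    · simpa using hx.start
    · simp
    · intro i hi
      by_cases h : i ≤ N
      · simp only [h, if_true]; exact hx.mem i h
      · simp only [h, if_false]; exact hz
    · intro i hi
      by_cases h : i + 1 ≤ N
      · simp only [h, (by omega : i ≤ N), if_true]; exact hx.step i (by omega)
      · have : i = N := by omega
        subst this
        simp only [le_refl, if_true, h, if_false, hxN]; exact hyz
    · rw [chainSum, chainSum, Finset.sum_range_succ]
      congr 1
      · apply Finset.sum_congr rfl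
        intro i hi
        have hi' := Finset.mem_range.mp hi
        simp only [(by omega : i ≤ N), (by omega : i + 1 ≤ N), if_true]
      · have hN1 : ¬ (N + 1 ≤ N) := by omega
        simp only [le_refl, if_true, hxN]
        rw [if_neg hN1]

theorem pot_lip {K E : Set X} {ε : ℝ} {a : X → ℝ} (ha : ∀ x, 0 ≤ a x) {y z : X}
    (hy : y ∈ K) (hz : z ∈ K) (hyz : dist y z ≤ ε) :
    |pot K E ε a y - pot K E ε a z| ≤ max (a y) (a z) * dist y z := by
  have h1 := pot_step (E := E) ha hz hyz
  have h2 := pot_step (E := E) ha hy (by rwa [dist_comm] : dist z y ≤ ε)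
  rw [dist_comm z y] at h2
  have h3 : a y * dist y z ≤ max (a y) (a z) * dist y z :=
    mul_le_mul_of_nonneg_right (le_max_left _ _) dist_nonneg
  have h4 : a z * dist y z ≤ max (a y) (a z) * dist y z :=
    mul_le_mul_of_nonneg_right (le_max_right _ _) dist_nonneg
  rw [abs_le]
  constructor <;> linarith

theorem pot_continuousOn {K E : Set X} {ε : ℝ} (hε : 0 < ε) {a : X → ℝ} (ha : ∀ x, 0 ≤ a x)
    {M : ℝ} (hM : ∀ x, a x ≤ M) : ContinuousOn (pot K E ε a) K := by
  rw [Metric.continuousOn_iff]
  intro y hy e he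
  have hM0 : 0 ≤ M := (ha y).trans (hM y)
  refine ⟨min ε (e / (M + 1)), by positivity, fun z hz hzy => ?_⟩
  rw [lt_min_iff] at hzy
  rw [Real.dist_eq]
  have h1 := pot_lip (E := E) ha hz hy hzy.1.le
  have h2 : max (a z) (a y) * dist z y ≤ M * dist z y :=
    mul_le_mul_of_nonneg_right (max_le (hM _) (hM _)) dist_nonneg
  have h3 := hzy.2
  rw [lt_div_iff₀ (by linarith)] at h3
  have h4 : 0 ≤ dist z y := dist_nonneg
  nlinarith

variable [MeasurableSpace X] [BorelSpace X]

theorem vol_scale {α β : ℝ} (hα : 0 < α) (hβ : 0 < β) (S : Set (ℝ × ℝ)) :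
    volume ((fun p : ℝ × ℝ => (α * p.1, β * p.2)) '' S) = ENNReal.ofReal (α * β) * volume S := by
  let T : (ℝ × ℝ) →ₗ[ℝ] (ℝ × ℝ) := LinearMap.prodMap (α • LinearMap.id) (β • LinearMap.id)
  have h1 : (fun p : ℝ × ℝ => (α * p.1, β * p.2)) = T := by
    ext p <;> simp [T]
  rw [h1, Measure.addHaar_image_linearMap]
  have h2 : LinearMap.det T = α * β := by
    simp [T, LinearMap.det_prodMap]
  rw [h2, abs_of_pos (mul_pos hα hβ)]

theorem vol_piece {A : Set X} {f g : X → ℝ} {α β : ℝ} (hα : 0 < α) (hβ : 0 < β)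
    (hf : ∀ x ∈ A, ∀ y ∈ A, |f x - f y| ≤ α * dist x y)
    (hg : ∀ x ∈ A, ∀ y ∈ A, |g x - g y| ≤ β * dist x y) :
    volume ((fun x => (f x, g x)) '' A) ≤ ENNReal.ofReal (α * β) * μH[2] A := by
  set G : X → ℝ × ℝ := fun x => (α⁻¹ * f x, β⁻¹ * g x) with hG
  have hGL : LipschitzOnWith 1 G A := by
    apply LipschitzOnWith.of_dist_le_mul
    intro x hx y hy
    rw [NNReal.coe_one, one_mul, Prod.dist_eq, Real.dist_eq, Real.dist_eq]
    apply max_le
    · simp only [hG]
      rw [← mul_sub, abs_mul, abs_of_pos (inv_pos.mpr hα), inv_mul_le_iff₀ hα]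
      exact hf x hx y hy
    · simp only [hG]
      rw [← mul_sub, abs_mul, abs_of_pos (inv_pos.mpr hβ), inv_mul_le_iff₀ hβ]
      exact hg x hx y hy
  have h1 : (fun x => (f x, g x)) '' A = (fun p : ℝ × ℝ => (α * p.1, β * p.2)) '' (G '' A) := by
    rw [image_image]
    apply image_congr
    intro x _
    simp only [hG]
    rw [mul_inv_cancel_left₀ hα.ne', mul_inv_cancel_left₀ hβ.ne']
  rw [h1, vol_scale hα hβ]
  gcongr
  rw [← hausdorffMeasure_prod_real]
  have := hGL.hausdorffMeasure_image_le (d := 2) (by norm_num)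
  simpa using this

/-- area estimate -/
theorem vol_image_le {K : Set X} (hK : IsCompact K) {f g a b : X → ℝ} {ε η : ℝ} (hε : 0 < ε) (hη : 0 < η)
    (ha : Continuous a) (hb : Continuous b) (ha0 : ∀ x, 0 ≤ a x) (hb0 : ∀ x, 0 ≤ b x)
    (hf : ∀ x ∈ K, ∀ y ∈ K, dist x y ≤ ε → |f x - f y| ≤ max (a x) (a y) * dist x y)
    (hg : ∀ x ∈ K, ∀ y ∈ K, dist x y ≤ ε → |g x - g y| ≤ max (b x) (b y) * dist x y) :
    volume ((fun x => (f x, g x)) '' K) ≤
      ∫⁻ x in K, ENNReal.ofReal ((a x + η) * (b x + η)) ∂(μH[2] : Measure X) := by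
  have hua := hK.uniformContinuousOn_of_continuous ha.continuousOn
  have hub := hK.uniformContinuousOn_of_continuous hb.continuousOn
  rw [Metric.uniformContinuousOn_iff] at hua hub
  obtain ⟨δ1, hδ1, hua⟩ := hua (η / 2) (by positivity)
  obtain ⟨δ2, hδ2, hub⟩ := hub (η / 2) (by positivity)
  set r := min (ε / 2) (min (δ1 / 2) (δ2 / 2)) with hr
  have hrpos : 0 < r := by positivity
  have hr1 : 2 * r ≤ ε := by have := min_le_left (ε / 2) (min (δ1 / 2) (δ2 / 2)); linarith
  have hr2 : 2 * r ≤ δ1 := by
    have := (min_le_right (ε / 2) (min (δ1 / 2) (δ2 / 2))).trans (min_le_left _ _); linarith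
  have hr3 : 2 * r ≤ δ2 := by
    have := (min_le_right (ε / 2) (min (δ1 / 2) (δ2 / 2))).trans (min_le_right _ _); linarith
  obtain ⟨t, -, htfin, htcov⟩ := hK.finite_cover_balls hrpos
  classical
  have key : ∀ t : Finset X, ∀ A : Set X, MeasurableSet A → A ⊆ K → A ⊆ ⋃ z ∈ t, ball z r →
      volume ((fun x => (f x, g x)) '' A) ≤
      ∫⁻ x in A, ENNReal.ofReal ((a x + η) * (b x + η)) ∂(μH[2] : Measure X) := by
    intro t
    induction t using Finset.induction_on with
    | empty =>
      intro A _ _ hA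
      have : A = ∅ := by simpa using hA
      subst this
      simp
    | insert z t hzt ih =>
      intro A hAm hAK hA
      set B := A ∩ ball z r with hB
      have hBm : MeasurableSet B := hAm.inter measurableSet_ball
      have hsplit : A = B ∪ (A \ ball z r) := (inter_union_sdiff A (ball z r)).symm
      have h1 : volume ((fun x => (f x, g x)) '' (A \ ball z r)) ≤
          ∫⁻ x in A \ ball z r, ENNReal.ofReal ((a x + η) * (b x + η)) ∂(μH[2] : Measure X) := by
        apply ih _ (hAm.diff measurableSet_ball) (sdiff_subset.trans hAK)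
        intro x hx
        have := hA hx.1
        rw [Finset.set_biUnion_insert] at this
        rcases this with h | h
        · exact absurd h hx.2
        · exact h
      have h2 : volume ((fun x => (f x, g x)) '' B) ≤
          ∫⁻ x in B, ENNReal.ofReal ((a x + η) * (b x + η)) ∂(μH[2] : Measure X) := by
        rcases B.eq_empty_or_nonempty with hBe | ⟨w, hw⟩
        · rw [hBe]; simp
        · have hwK : w ∈ K := hAK hw.1
          have hd : ∀ x ∈ B, ∀ y ∈ B, dist x y < 2 * r := by
            intro x hx y hy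
            have h3 : dist x z < r := hx.2
            have h4 : dist y z < r := hy.2
            have := dist_triangle_right x y z
            linarith
          have haw : ∀ x ∈ B, |a x - a w| < η / 2 := by
            intro x hx
            have := hua x (hAK hx.1) w hwK (by linarith [hd x hx w hw])
            rwa [Real.dist_eq] at this
          have hbw : ∀ x ∈ B, |b x - b w| < η / 2 := by
            intro x hx
            have := hub x (hAK hx.1) w hwK (by linarith [hd x hx w hw])
            rwa [Real.dist_eq] at this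
          have h5 := vol_piece (A := B) (f := f) (g := g) (α := a w + η / 2) (β := b w + η / 2)
            (by linarith [ha0 w]) (by linarith [hb0 w])
            (by
              intro x hx y hy
              refine (hf x (hAK hx.1) y (hAK hy.1) (by linarith [hd x hx y hy])).trans ?_
              apply mul_le_mul_of_nonneg_right _ dist_nonneg
              have h6 := (abs_lt.mp (haw x hx)).2
              have h7 := (abs_lt.mp (haw y hy)).2
              apply max_le <;> linarith)
            (by
              intro x hx y hy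
              refine (hg x (hAK hx.1) y (hAK hy.1) (by linarith [hd x hx y hy])).trans ?_
              apply mul_le_mul_of_nonneg_right _ dist_nonneg
              have h6 := (abs_lt.mp (hbw x hx)).2
              have h7 := (abs_lt.mp (hbw y hy)).2
              apply max_le <;> linarith)
          refine h5.trans ?_
          rw [← setLIntegral_const]
          apply setLIntegral_mono' hBm
          intro x hx
          apply ENNReal.ofReal_le_ofReal
          have h6 := (abs_lt.mp (haw x hx)).1
          have h7 := (abs_lt.mp (hbw x hx)).1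
          have h8 := ha0 w
          have h9 := hb0 w
          apply mul_le_mul <;> linarith [ha0 x, hb0 x]
      calc volume ((fun x => (f x, g x)) '' A)
          = volume ((fun x => (f x, g x)) '' B ∪ (fun x => (f x, g x)) '' (A \ ball z r)) := by
            rw [← image_union, ← hsplit]
        _ ≤ _ := measure_union_le _ _
        _ ≤ _ := add_le_add h2 h1
        _ = ∫⁻ x in A, ENNReal.ofReal ((a x + η) * (b x + η)) ∂(μH[2] : Measure X) := by
            rw [hB, lintegral_inter_add_sdiff _ _ measurableSet_ball]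
  refine key htfin.toFinset K hK.isClosed.measurableSet Subset.rfl ?_
  simpa using htcov

end Pool.Agent.H22.Recip
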